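import Pool.Agent.L7h81.IP.Count

/-!
# Angle sums at vertices not adjacent to the north pole
-/

set_option autoImplicit false

namespace Pool.Agent.L7h81.IP

open Real MeasureTheory Set
open scoped ENNReal

theorem an_eq_arg {w w' : ℂ} (h : 0 < om w w') :
    an w w' = (w' / w).arg ∧ 0 < (w' / w).arg ∧ w ≠ 0 ∧ w' ≠ 0 := by
  have h0 : w ≠ 0 := om_ne_left h.ne'
  have h1 : w' ≠ 0 := om_ne_right h.ne'
  have him : 0 < (w' / w).im := by
    rw [Complex.div_im]
    have : w'.im * w.re / Complex.normSq w - w'.re * w.im / Complex.normSq w =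
        om w w' / Complex.normSq w := by
      unfold om; ring
    rw [this]
    exact div_pos h (Complex.normSq_pos.2 h0)
  have harg : 0 < (w' / w).arg := by
    apply lt_of_le_of_ne (Complex.arg_nonneg_iff.2 him.le)
    intro h2
    have := (Complex.arg_eq_zero_iff.1 h2.symm).2
    linarith
  refine ⟨?_, harg, h0, h1⟩
  rw [an_comm]
  unfold an
  rw [Complex.angle_eq_abs_arg h1 h0, abs_of_pos harg]

/-- a cyclic product forces the angle sum to be at least `2π` -/
theorem arg_sum {ι : Type*} (S : Finset ι) (hS : S.Nonempty) (z : ι → ℂ)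
    (hz : ∀ i ∈ S, 0 < (z i).arg) (hprod : ∏ i ∈ S, z i = 1) :
    2 * π ≤ ∑ i ∈ S, (z i).arg := by
  have h1 : ∏ i ∈ S, z i = (∏ i ∈ S, (‖z i‖ : ℂ)) *
      Complex.exp ((∑ i ∈ S, ((z i).arg : ℂ)) * Complex.I) := by
    rw [Finset.sum_mul, Complex.exp_sum, ← Finset.prod_mul_distrib]
    apply Finset.prod_congr rfl
    intro i _
    rw [Complex.norm_mul_exp_arg_mul_I]
  have h2 : ∏ i ∈ S, ‖z i‖ = 1 := by
    have := congrArg (fun w : ℂ => ‖w‖) hprod
    simpa using this
  have h3 : ∏ i ∈ S, (‖z i‖ : ℂ) = 1 := by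
    rw [← Complex.ofReal_prod, h2, Complex.ofReal_one]
  rw [hprod, h3, one_mul] at h1
  obtain ⟨n, hn⟩ := Complex.exp_eq_one_iff.1 h1.symm
  have h4 : (∑ i ∈ S, (z i).arg) = n * (2 * π) := by
    have := congrArg Complex.im hn
    simpa using this
  have h5 : 0 < ∑ i ∈ S, (z i).arg := Finset.sum_pos hz hS
  have h6 : (1 : ℝ) ≤ n := by
    have : (0 : ℝ) < n := by
      rw [h4] at h5
      by_contra hcon
      push Not at hcon
      have := Real.pi_pos
      nlinarith
    exact_mod_cast this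
  rw [h4]
  have := Real.pi_pos
  nlinarith

section
variable {x : Fin 8 → E3} {v : Fin 8}

open Classical in
/-- the angle of the triangle `t` at `p` -/
noncomputable def ang (x : Fin 8 → E3) (t : Finset (Fin 8)) (p : Fin 8) : ℝ :=
  (∑ a ∈ t.erase p, ∑ b ∈ (t.erase p).erase a, an (Z x a - Z x p) (Z x b - Z x p)) / 2

theorem ang_eq {p a b : Fin 8} (h1 : p ≠ a) (h2 : p ≠ b) (h3 : a ≠ b) :
    ang x {p, a, b} p = an (Z x a - Z x p) (Z x b - Z x p) := by
  classical
  unfold ang
  have e1 : ({p, a, b} : Finset (Fin 8)).erase p = {a, b} := by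
    apply Finset.erase_insert
    simp [h1, h2]
  have e2 : ({a, b} : Finset (Fin 8)).erase a = {b} := by
    apply Finset.erase_insert
    simp [h3]
  have e3 : ({a, b} : Finset (Fin 8)).erase b = {a} := by
    rw [Finset.pair_comm]
    apply Finset.erase_insert
    simp [h3.symm]
  have key : ∑ a' ∈ ({p, a, b} : Finset (Fin 8)).erase p,
      ∑ b' ∈ (({p, a, b} : Finset (Fin 8)).erase p).erase a',
        an (Z x a' - Z x p) (Z x b' - Z x p) = 2 * an (Z x a - Z x p) (Z x b - Z x p) := by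
    rw [e1, Finset.sum_pair h3, e2, e3, Finset.sum_singleton, Finset.sum_singleton,
      an_comm (Z x b - Z x p)]
    ring
  convert (congrArg (fun r : ℝ => r / 2) key) using 1
  ring

/-- the vertices of facets at `p` for `p` not adjacent to `v` -/
theorem not_v (hx : Gen x) {p a b : Fin 8} (hp : p ∉ Nb x v) (h : FS x p a b) :
    a ≠ v ∧ b ≠ v := by
  constructor
  · rintro rfl
    obtain ⟨c, hc⟩ := FS_exists hx h
    exact hp (mem_Nb.2 ⟨c, FS_cyc (FS_cyc hc)⟩)
  · rintro rfl
    exact hp (mem_Nb.2 ⟨a, FS_cyc (FS_cyc h)⟩)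

theorem angle_sum (hx : Gen x) (hv : x v = NP) {p : Fin 8} (hpv : p ≠ v) (hp : p ∉ Nb x v)
    (hne : (Nb x p).Nonempty) :
    2 * π ≤ ∑ t ∈ (Fc x).filter (fun t => p ∈ t), ang x t p := by
  classical
  rw [star_bij p (fun t => ang x t p)]
  have h1 : ∀ a ∈ Nb x p, ang x {p, a, nx x p a} p =
      ((Z x (nx x p a) - Z x p) / (Z x a - Z x p)).arg ∧
      0 < ((Z x (nx x p a) - Z x p) / (Z x a - Z x p)).arg ∧ Z x a - Z x p ≠ 0 := by
    intro a ha
    have hF := nx_spec ha
    obtain ⟨n1, n2⟩ := not_v hx hp hF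
    have ho := om_pos hx hv hF hpv n1 n2
    obtain ⟨e1, e2, e3, -⟩ := an_eq_arg ho
    exact ⟨by rw [ang_eq hF.1 hF.2.1 hF.2.2.1, e1], e2, e3⟩
  rw [Finset.sum_congr rfl (fun a ha => (h1 a ha).1)]
  apply arg_sum _ hne _ (fun a ha => (h1 a ha).2.1)
  rw [Finset.prod_div_distrib]
  have h2 : ∏ a ∈ Nb x p, (Z x (nx x p a) - Z x p) = ∏ a ∈ Nb x p, (Z x a - Z x p) := by
    have hinj : Set.InjOn (nx x p) (Nb x p : Set (Fin 8)) :=
      fun a ha b hb hab => nx_inj ha hb hab
    have himg : (Nb x p).image (nx x p) = Nb x p := by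
      apply Finset.eq_of_subset_of_card_le
      · intro i hi
        rw [Finset.mem_image] at hi
        obtain ⟨a, ha, rfl⟩ := hi
        exact nx_mem hx ha
      · rw [Finset.card_image_of_injOn hinj]
    conv_rhs => rw [← himg]
    rw [Finset.prod_image hinj]
  rw [h2, div_self]
  rw [Finset.prod_ne_zero_iff]
  exact fun a ha => (h1 a ha).2.2

end

end Pool.Agent.L7h81.IP
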