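import Pool.Agent.L7h81.IP.Rot

/-!
# Approximation by generic configurations
-/

set_option autoImplicit false

namespace Pool.Agent.L7h81.IP

open Real MeasureTheory Set Filter
open scoped ENNReal Topology

/-- the cocircularity determinant -/
def D4 {R : Type*} [CommRing R] (a a' b b' c c' d d' : R) : R :=
  (b - a) * ((c' - a') * (d * d + d' * d' - (a * a + a' * a')) -
      (c * c + c' * c' - (a * a + a' * a')) * (d' - a')) -
  (b' - a') * ((c - a) * (d * d + d' * d' - (a * a + a' * a')) -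
      (c * c + c' * c' - (a * a + a' * a')) * (d - a)) +
  (b * b + b' * b' - (a * a + a' * a')) * ((c - a) * (d' - a') - (c' - a') * (d - a))

theorem D4_scale {R : Type*} [CommRing R] (s a a' b b' c c' d d' : R) :
    D4 (s * a) (s * a') (s * b) (s * b') (s * c) (s * c') (s * d) (s * d') =
      s ^ 4 * D4 a a' b b' c c' d d' := by
  unfold D4; ring

theorem D4_moment (a b c d : ℝ) : D4 a (a ^ 2) b (b ^ 2) c (c ^ 2) d (d ^ 2) =
    (b - a) * (c - a) * (d - a) * (c - b) * (d - b) * (d - c) * (a + b + c + d) := by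
  unfold D4; ring

theorem dt_aux {X0 Y0 Z0 X1 Y1 Z1 X2 Y2 Z2 X3 Y3 Z3 a a' b b' c c' d d' m0 m1 m2 m3 : ℝ}
    (e0 : X0 * m0 = 2 * a) (f0 : Y0 * m0 = 2 * a') (g0 : Z0 * m0 = a * a + a' * a' - 1)
    (h0 : m0 = 1 + (a * a + a' * a'))
    (e1 : X1 * m1 = 2 * b) (f1 : Y1 * m1 = 2 * b') (g1 : Z1 * m1 = b * b + b' * b' - 1)
    (h1 : m1 = 1 + (b * b + b' * b'))
    (e2 : X2 * m2 = 2 * c) (f2 : Y2 * m2 = 2 * c') (g2 : Z2 * m2 = c * c + c' * c' - 1)
    (h2 : m2 = 1 + (c * c + c' * c'))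
    (e3 : X3 * m3 = 2 * d) (f3 : Y3 * m3 = 2 * d') (g3 : Z3 * m3 = d * d + d' * d' - 1)
    (h3 : m3 = 1 + (d * d + d' * d')) :
    ((X1 - X0) * ((Y2 - Y0) * (Z3 - Z0) - (Z2 - Z0) * (Y3 - Y0)) -
      (Y1 - Y0) * ((X2 - X0) * (Z3 - Z0) - (Z2 - Z0) * (X3 - X0)) +
      (Z1 - Z0) * ((X2 - X0) * (Y3 - Y0) - (Y2 - Y0) * (X3 - X0))) * (m0 * m1 * m2 * m3) =
    8 * D4 a a' b b' c c' d d' := by
  have key : ((X1 - X0) * ((Y2 - Y0) * (Z3 - Z0) - (Z2 - Z0) * (Y3 - Y0)) -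
      (Y1 - Y0) * ((X2 - X0) * (Z3 - Z0) - (Z2 - Z0) * (X3 - X0)) +
      (Z1 - Z0) * ((X2 - X0) * (Y3 - Y0) - (Y2 - Y0) * (X3 - X0))) * (m0 * m1 * m2 * m3) =
      (m0 * ((X1 * m1) * ((Y2 * m2) * (Z3 * m3) - (Z2 * m2) * (Y3 * m3)) -
        (Y1 * m1) * ((X2 * m2) * (Z3 * m3) - (Z2 * m2) * (X3 * m3)) +
        (Z1 * m1) * ((X2 * m2) * (Y3 * m3) - (Y2 * m2) * (X3 * m3)))) -
      (m1 * ((X0 * m0) * ((Y2 * m2) * (Z3 * m3) - (Z2 * m2) * (Y3 * m3)) -
        (Y0 * m0) * ((X2 * m2) * (Z3 * m3) - (Z2 * m2) * (X3 * m3)) +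
        (Z0 * m0) * ((X2 * m2) * (Y3 * m3) - (Y2 * m2) * (X3 * m3)))) +
      (m2 * ((X0 * m0) * ((Y1 * m1) * (Z3 * m3) - (Z1 * m1) * (Y3 * m3)) -
        (Y0 * m0) * ((X1 * m1) * (Z3 * m3) - (Z1 * m1) * (X3 * m3)) +
        (Z0 * m0) * ((X1 * m1) * (Y3 * m3) - (Y1 * m1) * (X3 * m3)))) -
      (m3 * ((X0 * m0) * ((Y1 * m1) * (Z2 * m2) - (Z1 * m1) * (Y2 * m2)) -
        (Y0 * m0) * ((X1 * m1) * (Z2 * m2) - (Z1 * m1) * (X2 * m2)) +
        (Z0 * m0) * ((X1 * m1) * (Y2 * m2) - (Y1 * m1) * (X2 * m2)))) := by ring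
  rw [key, e0, f0, g0, e1, f1, g1, e2, f2, g2, e3, f3, g3, h0, h1, h2, h3]
  unfold D4
  ring

theorem dt_D4 {A B C D : ℂ} (h : D4 A.re A.im B.re B.im C.re C.im D.re D.im ≠ 0) :
    dt (sph B - sph A) (sph C - sph A) (sph D - sph A) ≠ 0 := by
  intro h0
  apply h
  have hs : ∀ P : ℂ, sph P 0 * (1 + ‖P‖ ^ 2) = 2 * P.re ∧ sph P 1 * (1 + ‖P‖ ^ 2) = 2 * P.im ∧
      sph P 2 * (1 + ‖P‖ ^ 2) = P.re * P.re + P.im * P.im - 1 ∧
      1 + ‖P‖ ^ 2 = 1 + (P.re * P.re + P.im * P.im) := by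
    intro P
    have hP : 0 < 1 + ‖P‖ ^ 2 := by positivity
    unfold sph
    rw [mk_zero, mk_one, mk_two, Complex.smul_re, Complex.smul_im, smul_eq_mul, smul_eq_mul]
    refine ⟨by field_simp, by field_simp, ?_, ?_⟩
    · rw [div_mul_cancel₀ _ hP.ne', norm_sq_C]; ring
    · rw [norm_sq_C]; ring
  obtain ⟨a1, a2, a3, a4⟩ := hs A
  obtain ⟨b1, b2, b3, b4⟩ := hs B
  obtain ⟨c1, c2, c3, c4⟩ := hs C
  obtain ⟨d1, d2, d3, d4⟩ := hs D
  have := dt_aux a1 a2 a3 a4 b1 b2 b3 b4 c1 c2 c3 c4 d1 d2 d3 d4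
  unfold dt at h0
  simp only [PiLp.sub_apply] at h0
  rw [h0, zero_mul] at this
  linarith

/-- the moment direction -/
noncomputable def mo (i : Fin 8) : ℂ := ⟨(i : ℝ) + 1, ((i : ℝ) + 1) ^ 2⟩

open Polynomial in
/-- the polynomial -/
noncomputable def QQ (ζ : Fin 8 → ℂ) (i j k l : Fin 8) : ℝ[X] :=
  let T : ℝ[X] := Polynomial.X
  D4 (C (ζ i).re * T + C (mo i).re) (C (ζ i).im * T + C (mo i).im)
    (C (ζ j).re * T + C (mo j).re) (C (ζ j).im * T + C (mo j).im)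
    (C (ζ k).re * T + C (mo k).re) (C (ζ k).im * T + C (mo k).im)
    (C (ζ l).re * T + C (mo l).re) (C (ζ l).im * T + C (mo l).im)

theorem QQ_eval (ζ : Fin 8 → ℂ) (i j k l : Fin 8) (u : ℝ) : (QQ ζ i j k l).eval u =
    D4 ((ζ i).re * u + (mo i).re) ((ζ i).im * u + (mo i).im)
    ((ζ j).re * u + (mo j).re) ((ζ j).im * u + (mo j).im)
    ((ζ k).re * u + (mo k).re) ((ζ k).im * u + (mo k).im)
    ((ζ l).re * u + (mo l).re) ((ζ l).im * u + (mo l).im) := by
  unfold QQ D4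
  simp only [Polynomial.eval_add, Polynomial.eval_sub, Polynomial.eval_mul, Polynomial.eval_C,
    Polynomial.eval_X]

theorem QQ_ne (ζ : Fin 8 → ℂ) {i j k l : Fin 8} (hij : i ≠ j) (hik : i ≠ k) (hil : i ≠ l)
    (hjk : j ≠ k) (hjl : j ≠ l) (hkl : k ≠ l) : QQ ζ i j k l ≠ 0 := by
  intro h0
  have h1 := QQ_eval ζ i j k l 0
  rw [h0, Polynomial.eval_zero] at h1
  simp only [mul_zero, zero_add] at h1
  have h2 : (0:ℝ) = D4 ((i:ℝ) + 1) (((i:ℝ) + 1) ^ 2) ((j:ℝ) + 1) (((j:ℝ) + 1) ^ 2)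
      ((k:ℝ) + 1) (((k:ℝ) + 1) ^ 2) ((l:ℝ) + 1) (((l:ℝ) + 1) ^ 2) := h1
  rw [D4_moment] at h2
  have hne : ∀ {a b : Fin 8}, a ≠ b → ((b:ℝ) + 1) - ((a:ℝ) + 1) ≠ 0 := by
    intro a b hab h
    apply hab
    have : ((a : ℕ) : ℝ) = ((b : ℕ) : ℝ) := by linarith
    exact Fin.ext (by exact_mod_cast this)
  have hpos : (0:ℝ) < ((i:ℝ) + 1) + ((j:ℝ) + 1) + ((k:ℝ) + 1) + ((l:ℝ) + 1) := by positivity
  have := mul_ne_zero (mul_ne_zero (mul_ne_zero (mul_ne_zero (mul_ne_zero (mul_ne_zero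
    (hne hij) (hne hik)) (hne hil)) (hne hjk)) (hne hjl)) (hne hkl)) hpos.ne'
  exact this h2.symm

/-- generic perturbations exist -/
theorem exists_generic (ζ : Fin 8 → ℂ) : ∃ s : ℕ → ℝ, Tendsto s atTop (𝓝 0) ∧
    ∀ n, Gen (fun i => sph (ζ i + (s n) • mo i)) := by
  classical
  have hfin : (⋃ q : Fin 8 × Fin 8 × Fin 8 × Fin 8, {u : ℝ | q.1 ≠ q.2.1 ∧ q.1 ≠ q.2.2.1 ∧
      q.1 ≠ q.2.2.2 ∧ q.2.1 ≠ q.2.2.1 ∧ q.2.1 ≠ q.2.2.2 ∧ q.2.2.1 ≠ q.2.2.2 ∧
      (QQ ζ q.1 q.2.1 q.2.2.1 q.2.2.2).eval u = 0}).Finite := by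
    apply Set.finite_iUnion
    rintro ⟨i, j, k, l⟩
    by_cases h : i ≠ j ∧ i ≠ k ∧ i ≠ l ∧ j ≠ k ∧ j ≠ l ∧ k ≠ l
    · obtain ⟨h1, h2, h3, h4, h5, h6⟩ := h
      apply (Polynomial.finite_setOfPred_isRoot (QQ_ne ζ h1 h2 h3 h4 h5 h6)).subset
      rintro u ⟨-, -, -, -, -, -, hu⟩
      exact hu
    · apply Set.finite_empty.subset
      rintro u ⟨h1, h2, h3, h4, h5, h6, hu⟩
      exact h ⟨h1, h2, h3, h4, h5, h6⟩
  obtain ⟨M, hM⟩ := hfin.bddAbove
  set u : ℕ → ℝ := fun n => |M| + n + 1 with hu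
  have hupos : ∀ n, 0 < u n := by intro n; simp only [hu]; positivity
  refine ⟨fun n => (u n)⁻¹, ?_, ?_⟩
  · apply Tendsto.inv_tendsto_atTop
    apply tendsto_atTop_mono (f := fun n : ℕ => (n : ℝ)) _ tendsto_natCast_atTop_atTop
    intro n
    simp only [hu]
    have := abs_nonneg M
    linarith
  · intro n
    refine ⟨fun i => norm_sph _, ?_⟩
    intro i j k l h1 h2 h3 h4 h5 h6
    unfold chi
    apply dt_D4
    intro h0
    have hun := (hupos n).ne'
    have e : ∀ i : Fin 8, (ζ i + (u n)⁻¹ • mo i).re = (u n)⁻¹ * ((ζ i).re * u n + (mo i).re) ∧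
        (ζ i + (u n)⁻¹ • mo i).im = (u n)⁻¹ * ((ζ i).im * u n + (mo i).im) := by
      intro i
      rw [Complex.add_re, Complex.add_im, Complex.smul_re, Complex.smul_im, smul_eq_mul,
        smul_eq_mul]
      constructor <;> field_simp
    rw [(e i).1, (e i).2, (e j).1, (e j).2, (e k).1, (e k).2, (e l).1, (e l).2, D4_scale,
      ← QQ_eval] at h0
    have h7 : (QQ ζ i j k l).eval (u n) = 0 := by
      rcases mul_eq_zero.1 h0 with h | h
      · exact absurd h (pow_ne_zero _ (inv_ne_zero hun))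
      · exact h
    have hmem : u n ∈ (⋃ q : Fin 8 × Fin 8 × Fin 8 × Fin 8, {u : ℝ | q.1 ≠ q.2.1 ∧
        q.1 ≠ q.2.2.1 ∧ q.1 ≠ q.2.2.2 ∧ q.2.1 ≠ q.2.2.1 ∧ q.2.1 ≠ q.2.2.2 ∧ q.2.2.1 ≠ q.2.2.2 ∧
        (QQ ζ q.1 q.2.1 q.2.2.1 q.2.2.2).eval u = 0}) := by
      rw [mem_iUnion]
      exact ⟨(i, j, k, l), h1, h2, h3, h4, h5, h6, h7⟩
    have h8 := hM hmem
    have h9 := le_abs_self M
    have h10 : (0:ℝ) ≤ n := Nat.cast_nonneg n
    simp only [hu] at h8
    linarith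

/-- interior points stay inside under small perturbations -/
theorem mem_hull_near {x x' : Fin 8 → E3} {y : E3} {ε : ℝ} (hε : 0 < ε)
    (hb : Metric.ball y ε ⊆ convexHull ℝ (range x)) (h : ∀ i, ‖x' i - x i‖ < ε / 2) :
    y ∈ convexHull ℝ (range x') := by
  by_contra hcon
  have hc : IsCompact (convexHull ℝ (range x')) := (Set.finite_range x').isCompact_convexHull ℝ
  obtain ⟨f, u, hf1, hf2⟩ := geometric_hahn_banach_closed_point (convex_convexHull ℝ _)
    hc.isClosed hcon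
  set a := (InnerProductSpace.toDual ℝ E3).symm f with ha
  have hfa : ∀ z, f z = inner ℝ a z := by
    intro z
    rw [ha, InnerProductSpace.toDual_symm_apply]
  have hlt : ∀ i, inner ℝ a (x' i) < inner ℝ a y := by
    intro i
    rw [← hfa, ← hfa]
    exact (hf1 _ (subset_convexHull ℝ _ ⟨i, rfl⟩)).trans hf2
  have ha0 : a ≠ 0 := by
    intro h0
    have := hlt 0
    rw [h0, inner_zero_left, inner_zero_left] at this
    exact lt_irrefl _ this
  have han : 0 < ‖a‖ := norm_pos_iff.2 ha0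
  have hsub : convexHull ℝ (range x) ⊆ {z | inner ℝ a z < inner ℝ a y + ‖a‖ * (ε / 2)} := by
    apply convexHull_min
    · rintro _ ⟨i, rfl⟩
      have h1 : inner ℝ a (x i) = inner ℝ a (x' i) - inner ℝ a (x' i - x i) := by
        rw [inner_sub_right]; ring
      have h2 : |inner ℝ a (x' i - x i)| ≤ ‖a‖ * ‖x' i - x i‖ := abs_real_inner_le_norm _ _
      have h3 := (abs_le.1 h2).1
      have h4 : ‖a‖ * ‖x' i - x i‖ ≤ ‖a‖ * (ε / 2) :=
        mul_le_mul_of_nonneg_left (h i).le han.le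
      have := hlt i
      show inner ℝ a (x i) < _
      linarith
    · exact convex_halfSpace_lt ((innerSL ℝ a).isLinear) _
  have hmem : y + (ε / 2 / ‖a‖) • a ∈ Metric.ball y ε := by
    rw [Metric.mem_ball, dist_eq_norm, add_sub_cancel_left, norm_smul,
      Real.norm_of_nonneg (by positivity), div_mul_cancel₀ _ han.ne']
    linarith
  have h5 := hsub (hb hmem)
  have h6 : inner ℝ a (y + (ε / 2 / ‖a‖) • a) < inner ℝ a y + ‖a‖ * (ε / 2) := h5
  rw [inner_add_right, inner_smul_right, real_inner_self_eq_norm_sq] at h6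
  have h7 : ε / 2 / ‖a‖ * ‖a‖ ^ 2 = ‖a‖ * (ε / 2) := by
    field_simp
  linarith

/-- lower semicontinuity -/
theorem hull_lsc {x : Fin 8 → E3} {X : ℕ → Fin 8 → E3}
    (hX : ∀ i, Tendsto (fun n => X n i) atTop (𝓝 (x i))) {c : ℝ≥0∞}
    (hb : ∀ n, hvol (convexHull ℝ (range (X n))) ≤ c) : hvol (convexHull ℝ (range x)) ≤ c := by
  set K := convexHull ℝ (range x) with hK
  have hKc : IsCompact K := (Set.finite_range x).isCompact_convexHull ℝ
  set f : E3 → ℝ≥0∞ := fun z => ENNReal.ofReal (1 / (1 - ‖z‖ ^ 2) ^ 2) with hf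
  have hfm : Measurable f := by fun_prop
  have hKn : ∀ n, MeasurableSet (convexHull ℝ (range (X n))) := fun n =>
    ((Set.finite_range (X n)).isCompact_convexHull ℝ).isClosed.measurableSet
  have e1 : hvol K = ∫⁻ z, (interior K).indicator f z := by
    rw [lintegral_indicator isOpen_interior.measurableSet]
    unfold hvol
    apply setLIntegral_congr
    have h0 : volume (frontier K) = 0 := (convex_convexHull ℝ _).addHaar_frontier _
    exact (interior_ae_eq_of_null_frontier h0).symm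
  rw [e1]
  have hev : ∀ z ∈ interior K, ∀ᶠ n in atTop, z ∈ convexHull ℝ (range (X n)) := by
    intro z hz
    obtain ⟨ε, hε, hball⟩ := Metric.mem_nhds_iff.1 (mem_interior_iff_mem_nhds.1 hz)
    have h1 : ∀ i, ∀ᶠ n in atTop, ‖X n i - x i‖ < ε / 2 := by
      intro i
      have := (Metric.tendsto_nhds.1 (hX i)) (ε / 2) (by positivity)
      simpa [dist_eq_norm] using this
    filter_upwards [eventually_all.2 h1] with n hn
    exact mem_hull_near hε hball hn
  calc ∫⁻ z, (interior K).indicator f z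
      ≤ ∫⁻ z, liminf (fun n => (convexHull ℝ (range (X n))).indicator f z) atTop := by
        apply lintegral_mono
        intro z
        by_cases hz : z ∈ interior K
        · rw [indicator_of_mem hz]
          apply le_liminf_of_le
          · isBoundedDefault
          · filter_upwards [hev z hz] with n hn
            rw [indicator_of_mem hn]
        · rw [indicator_of_notMem hz]
          exact bot_le
    _ ≤ liminf (fun n => ∫⁻ z, (convexHull ℝ (range (X n))).indicator f z) atTop :=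
        lintegral_liminf_le (fun n => hfm.indicator (hKn n))
    _ ≤ c := by
        apply liminf_le_of_le
        · isBoundedDefault
        · intro b hb'
          obtain ⟨n, hn⟩ := hb'.exists
          refine hn.trans ?_
          rw [lintegral_indicator (hKn n)]
          exact hb n

theorem sph_continuous : Continuous sph := by
  have h1 : Continuous fun A : ℂ => (2 / (1 + ‖A‖ ^ 2) : ℝ) • A := by
    have h0 : Continuous fun A : ℂ => (2 / (1 + ‖A‖ ^ 2) : ℝ) := by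
      apply Continuous.div continuous_const (by fun_prop)
      intro A
      positivity
    exact h0.smul continuous_id
  have h2 : Continuous fun A : ℂ => (‖A‖ ^ 2 - 1) / (1 + ‖A‖ ^ 2) := by
    apply Continuous.div (by fun_prop) (by fun_prop)
    intro A
    positivity
  unfold sph mk
  apply (PiLp.continuous_toLp 2 _).comp
  apply continuous_pi
  intro i
  fin_cases i
  · exact Complex.continuous_re.comp h1
  · exact Complex.continuous_im.comp h1
  · exact h2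

/-- the upper bound for all configurations of eight points -/
theorem all_bound (x : Fin 8 → E3) (hn : ∀ i, ‖x i‖ = 1) :
    hvol (convexHull ℝ (range x)) ≤ ENNReal.ofReal V0 := by
  -- a point on the sphere different from all the `x i`
  have hinf : (Set.range sph).Infinite := by
    apply Set.infinite_range_of_injective
    intro A B h
    unfold sph at h
    obtain ⟨h1, h2⟩ := mk_inj h
    have pA : 0 < 1 + ‖A‖ ^ 2 := by positivity
    have pB : 0 < 1 + ‖B‖ ^ 2 := by positivity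
    have h3 : ‖A‖ ^ 2 = ‖B‖ ^ 2 := by
      rw [div_eq_div_iff pA.ne' pB.ne'] at h2
      linarith
    rw [h3] at h1
    have h4 : (2 / (1 + ‖B‖ ^ 2) : ℝ) ≠ 0 := by positivity
    exact smul_right_injective ℂ h4 h1
  obtain ⟨y, ⟨A, rfl⟩, hy⟩ := hinf.exists_notMem_finite (Set.finite_range x)
  obtain ⟨R, hR⟩ := exists_rot (norm_sph A)
  have h1 : hvol (convexHull ℝ (range x)) = hvol (convexHull ℝ (range (fun i => R (x i)))) := by
    rw [← hull_isom, hvol_isom]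
  rw [h1]
  have hne : ∀ i, R (x i) ≠ NP := by
    intro i h
    rw [← hR] at h
    exact hy ⟨i, R.injective h⟩
  obtain ⟨s, hs, hgen⟩ := exists_generic (fun i => st (R (x i)))
  apply hull_lsc (X := fun n i => sph (st (R (x i)) + (s n) • mo i))
  · intro i
    have e : R (x i) = sph (st (R (x i)) + (0:ℝ) • mo i) := by
      rw [zero_smul, add_zero, sph_st (by rw [R.norm_map]; exact hn i) (hne i)]
    conv =>
      rhs
      rw [e]
    apply (sph_continuous.tendsto _).comp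
    exact tendsto_const_nhds.add (hs.smul_const _)
  · intro n
    exact gen_bound (hgen n)

end Pool.Agent.L7h81.IP
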