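import Pool.Agent.L7h81.IP.Lob

/-!
# Numerical consequences of the tangent inequality
-/

set_option autoImplicit false

namespace Pool.Agent.L7h81.IP

open Real MeasureTheory Set

/-- the volume of the regular ideal tetrahedron -/
noncomputable def v3 : ℝ := 3 * Lob (π / 3)

theorem F3_le_v3 {x y z : ℝ} (hx : 0 < x) (hy : 0 < y) (hz : 0 < z) (h : x + y + z = π) :
    F3 x y z ≤ v3 := by
  have hpi := Real.pi_pos
  have := F3_tangent hx hy hz h (a := π / 3) (b := π / 3) (c := π / 3) (by positivity)
    (by positivity) (by positivity) (by ring)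
  have e : F3 (π / 3) (π / 3) (π / 3) = v3 := by unfold F3 v3; ring
  have : lg (π / 3) * (x - π / 3) + lg (π / 3) * (y - π / 3) + lg (π / 3) * (z - π / 3) = 0 := by
    have : x - π / 3 + (y - π / 3) + (z - π / 3) = 0 := by linarith
    linear_combination lg (π / 3) * this
  linarith

/-- isosceles comparison triangle -/
theorem F3_le_iso {x y z a : ℝ} (hx : 0 < x) (hy : 0 < y) (hz : 0 < z) (h : x + y + z = π)
    (ha : 0 < a) (ha' : a < π) :
    F3 x y z ≤ F3 a ((π - a) / 2) ((π - a) / 2) - (lg a - lg ((π - a) / 2)) * (x - a) := by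
  have := F3_tangent hx hy hz h (a := a) (b := (π - a) / 2) (c := (π - a) / 2) ha
    (by linarith) (by linarith) (by ring)
  have e : lg ((π - a) / 2) * (y - (π - a) / 2) + lg ((π - a) / 2) * (z - (π - a) / 2) =
      - lg ((π - a) / 2) * (x - a) := by
    have : (y - (π - a) / 2) + (z - (π - a) / 2) = -(x - a) := by linarith
    linear_combination lg ((π - a) / 2) * this
  linarith

theorem F3_le_two {x y z a b c : ℝ} (hx : 0 < x) (hy : 0 < y) (hz : 0 < z)
    (h : x + y + z = π) (ha : 0 < a) (hb : 0 < b) (hc : 0 < c) (h0 : a + b + c = π) :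
    F3 x y z ≤ F3 a b c - (lg a - lg c) * (x - a) - (lg b - lg c) * (y - b) := by
  have := F3_tangent hx hy hz h ha hb hc h0
  have e : lg c * (z - c) = - lg c * (x - a) - lg c * (y - b) := by
    have : (z - c) = -(x - a) - (y - b) := by linarith
    rw [this]; ring
  linarith

theorem Lob_two_thirds : Lob (2 * π / 3) = -Lob (π / 3) := by
  rw [show 2 * π / 3 = π - π / 3 by ring, Lob_pi_sub]

/-- case A: a vertex of degree three -/
theorem F3_A : F3 (2 * π / 3) ((π - 2 * π / 3) / 2) ((π - 2 * π / 3) / 2) = 2 / 3 * v3 := by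
  rw [show (π - 2 * π / 3) / 2 = π / 6 by ring]
  unfold F3 v3
  rw [Lob_two_thirds, Lob_six]
  ring

theorem lg_mono {a b : ℝ} (ha : 0 < a) (hab : a ≤ b) (hb : b ≤ π - a) : lg a ≤ lg b := by
  unfold lg
  have hpi := Real.pi_pos
  have ha2 : a ≤ π / 2 := by linarith
  have sa : 0 < Real.sin a := Real.sin_pos_of_pos_of_lt_pi ha (by linarith)
  apply Real.log_le_log (by positivity)
  have : Real.sin a ≤ Real.sin b := by
    rcases le_total b (π / 2) with h | h
    · exact Real.sin_le_sin_of_le_of_le_pi_div_two (by linarith) h hab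
    · rw [← Real.sin_pi_sub b]
      exact Real.sin_le_sin_of_le_of_le_pi_div_two (by linarith) (by linarith) (by linarith)
  linarith

theorem mu_A : 0 ≤ lg (2 * π / 3) - lg ((π - 2 * π / 3) / 2) := by
  have hpi := Real.pi_pos
  have := lg_mono (a := (π - 2 * π / 3) / 2) (b := 2 * π / 3) (by linarith) (by linarith)
    (by linarith)
  linarith

/-- case B: two adjacent vertices of degree four -/
theorem F3_B : 4 * F3 (3 * π / 5) (π / 5) (π / 5) + 2 * F3 (2 * π / 5) (2 * π / 5) (π / 5) ≤
    5 * v3 := by
  have hpi := Real.pi_pos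
  have e1 : Lob (3 * π / 5) = -Lob (2 * π / 5) := by
    rw [show 3 * π / 5 = π - 2 * π / 5 by ring, Lob_pi_sub]
  have e2 : 4 * F3 (3 * π / 5) (π / 5) (π / 5) + 2 * F3 (2 * π / 5) (2 * π / 5) (π / 5) =
      10 * Lob (π / 5) := by
    unfold F3
    rw [e1]
    ring
  have e3 : Lob (π / 5) ≤ Lob (π / 6) := by
    have hanti : AntitoneOn Lob (Icc (π / 6) (π / 5)) := by
      apply antitoneOn_of_deriv_nonpos (convex_Icc _ _) Lob_cont.continuousOn
      · intro t ht
        rw [interior_Icc] at ht
        exact (Lob_deriv (by linarith [ht.1]) (by linarith [ht.2])).differentiableAt.differentiableWithinAt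
      · intro t ht
        rw [interior_Icc] at ht
        rw [(Lob_deriv (by linarith [ht.1]) (by linarith [ht.2])).deriv]
        have h1 := lg_mono (a := π / 6) (b := t) (by linarith) ht.1.le (by linarith [ht.2])
        have h2 : lg (π / 6) = 0 := by
          unfold lg
          rw [Real.sin_pi_div_six]
          norm_num
        linarith
    exact hanti (left_mem_Icc.2 (by linarith)) (right_mem_Icc.2 (by linarith)) (by linarith)
  rw [e2]
  have := Lob_six
  unfold v3
  linarith

theorem mu_B : lg (3 * π / 5) - lg (π / 5) = lg (2 * π / 5) - lg (π / 5) := by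
  rw [show 3 * π / 5 = π - 2 * π / 5 by ring, lg_pi_sub]

theorem mu_B_nonneg : 0 ≤ lg (2 * π / 5) - lg (π / 5) := by
  have hpi := Real.pi_pos
  have := lg_mono (a := π / 5) (b := 2 * π / 5) (by linarith) (by linarith)
    (by linarith)
  linarith

/-- the angle of the extremal polyhedron -/
noncomputable def X : ℝ := Real.arccos ((√13 - 3) / 4)

theorem sqrt13_bounds : 3.605 < √13 ∧ √13 < 3.606 := by
  constructor
  · apply Real.lt_sqrt_of_sq_lt; norm_num
  · rw [Real.sqrt_lt' (by norm_num)]; norm_num

theorem sqrt13_sq : √13 ^ 2 = 13 := Real.sq_sqrt (by norm_num)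

theorem cos_X : Real.cos X = (√13 - 3) / 4 := by
  have := sqrt13_bounds
  apply Real.cos_arccos <;> linarith [this.1, this.2]

theorem X_pos : 0 < X := by
  have := sqrt13_bounds
  apply Real.arccos_pos.2
  linarith [this.2]

theorem X_lt : X < π / 2 := by
  have := sqrt13_bounds
  apply Real.arccos_lt_pi_div_two.2
  linarith [this.1]

theorem sin_half_X : Real.sin (X / 2) = (√13 - 1) / 4 := by
  have h1 : Real.sin (X / 2) ^ 2 = ((√13 - 1) / 4) ^ 2 := by
    have h := Real.cos_sq (X / 2)
    have h2 := Real.sin_sq_add_cos_sq (X / 2)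
    rw [show 2 * (X / 2) = X by ring, cos_X] at h
    rw [h] at h2
    have h3 := sqrt13_sq
    nlinarith
  have h2 : 0 ≤ Real.sin (X / 2) := Real.sin_nonneg_of_nonneg_of_le_pi (by linarith [X_pos])
    (by linarith [X_lt, Real.pi_pos])
  have h3 := sqrt13_bounds
  exact (pow_left_inj₀ h2 (by linarith [h3.1]) two_ne_zero).1 h1

theorem X_gt : π / 3 < X := by
  by_contra h
  push Not at h
  have h1 : Real.cos (π / 3) ≤ Real.cos X :=
    Real.cos_le_cos_of_nonneg_of_le_pi X_pos.le (by linarith [Real.pi_pos]) h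
  rw [cos_X, Real.cos_pi_div_three] at h1
  linarith [sqrt13_bounds.2]

theorem cos_half_X : 1 / 2 < Real.cos (X / 2) := by
  rw [← Real.cos_pi_div_three]
  apply Real.cos_lt_cos_of_nonneg_of_le_pi_div_two
  · linarith [X_pos]
  · linarith [Real.pi_pos]
  · linarith [X_lt, Real.pi_pos]

/-- the volume of the extremal polyhedron -/
noncomputable def V0 : ℝ := 3 * F3 X ((π - X) / 2) ((π - X) / 2) +
  2 * F3 (π - X) ((π - (π - X)) / 2) ((π - (π - X)) / 2) + 2 * F3 (π - 3 * X / 2) X (X / 2)

theorem mu_p : lg X - lg ((π - X) / 2) = lg (π - 3 * X / 2) - lg (X / 2) := by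
  have hs : 0 < Real.sin (X / 2) := by
    rw [sin_half_X]; linarith [sqrt13_bounds.1]
  have hc : 0 < Real.cos (X / 2) := by linarith [cos_half_X]
  have e1 : lg X = Real.log (2 * Real.sin (X / 2)) + Real.log (2 * Real.cos (X / 2)) := by
    rw [← Real.log_mul (by positivity) (by positivity)]
    unfold lg
    congr 1
    conv_lhs => rw [show X = 2 * (X / 2) by ring, Real.sin_two_mul]
    ring
  have e2 : lg ((π - X) / 2) = Real.log (2 * Real.cos (X / 2)) := by
    unfold lg
    rw [show (π - X) / 2 = π / 2 - X / 2 by ring, Real.sin_pi_div_two_sub]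
  have e3 : lg (π - 3 * X / 2) = Real.log (2 * Real.sin (X / 2)) +
      Real.log (2 * Real.sin (X / 2)) := by
    rw [lg_pi_sub, ← Real.log_mul (by positivity) (by positivity)]
    unfold lg
    congr 1
    rw [show 3 * X / 2 = 3 * (X / 2) by ring, Real.sin_three_mul, sin_half_X]
    have h3 := sqrt13_sq
    have h4 : √13 ^ 3 = 13 * √13 := by rw [pow_succ, h3]
    ring_nf
    rw [h4, h3]
    ring
  have e4 : lg (X / 2) = Real.log (2 * Real.sin (X / 2)) := rfl
  rw [e1, e2, e3, e4]
  ring

theorem mu_p_nonneg : 0 ≤ lg (π - 3 * X / 2) - lg (X / 2) := by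
  rw [← mu_p]
  have := lg_mono (a := (π - X) / 2) (b := X) (by linarith [X_lt, Real.pi_pos])
    (by linarith [X_gt]) (by linarith [X_lt, Real.pi_pos])
  linarith

theorem mu_q : lg (π - X) - lg ((π - (π - X)) / 2) = lg X - lg (X / 2) := by
  rw [lg_pi_sub, show (π - (π - X)) / 2 = X / 2 by ring]

theorem mu_q_nonneg : 0 ≤ lg X - lg (X / 2) := by
  have := lg_mono (a := X / 2) (b := X) (by linarith [X_pos])
    (by linarith [X_pos]) (by linarith [X_lt, Real.pi_pos])
  linarith

/-- `F3` is concave along segments -/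
theorem F3_concave {x y z x' y' z' s : ℝ} (hx : 0 < x) (hy : 0 < y) (hz : 0 < z)
    (h : x + y + z = π) (hx' : 0 < x') (hy' : 0 < y') (hz' : 0 < z')
    (h' : x' + y' + z' = π) (hs0 : 0 < s) (hs1 : s < 1) :
    (1 - s) * F3 x y z + s * F3 x' y' z' ≤
      F3 ((1 - s) * x + s * x') ((1 - s) * y + s * y') ((1 - s) * z + s * z') := by
  have hs : 0 < 1 - s := by linarith
  have pa : 0 < (1 - s) * x + s * x' := by positivity
  have pb : 0 < (1 - s) * y + s * y' := by positivity
  have pc : 0 < (1 - s) * z + s * z' := by positivity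
  have h0 : ((1 - s) * x + s * x') + ((1 - s) * y + s * y') + ((1 - s) * z + s * z') = π := by
    linear_combination (1 - s) * h + s * h'
  have t1 := F3_tangent hx hy hz h pa pb pc h0
  have t2 := F3_tangent hx' hy' hz' h' pa pb pc h0
  have u1 := mul_le_mul_of_nonneg_left t1 hs.le
  have u2 := mul_le_mul_of_nonneg_left t2 hs0.le
  refine (add_le_add u1 u2).trans (le_of_eq ?_)
  ring

theorem V0_ge : 6 * v3 ≤ V0 := by
  have hpi := Real.pi_pos
  have hX0 := X_pos
  have hX1 := X_lt
  have hX2 := X_gt
  -- values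
  have f0 : F3 (π / 3) (π / 3) (π / 3) = v3 := by unfold F3 v3; ring
  have f1 : F3 (2 * π / 3) (π / 6) (π / 6) = 2 / 3 * v3 := by
    have := F3_A
    rwa [show (π - 2 * π / 3) / 2 = π / 6 by ring] at this
  have f2 : F3 (π / 3) (π / 2) (π / 6) = 5 / 6 * v3 := by
    unfold F3 v3
    rw [Lob_half, Lob_six]
    ring
  -- lower bounds at nice angles
  have g1 : 8 / 9 * v3 ≤ F3 (4 * π / 9) (5 * π / 18) (5 * π / 18) := by
    have := F3_concave (x := π / 3) (y := π / 3) (z := π / 3) (x' := 2 * π / 3) (y' := π / 6)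
      (z' := π / 6) (s := 1 / 3) (by positivity) (by positivity) (by positivity) (by ring)
      (by positivity) (by positivity) (by positivity) (by ring) (by norm_num) (by norm_num)
    rw [f0, f1] at this
    convert this using 1
    · ring
    · congr 1 <;> ring
  have g2 : 7 / 9 * v3 ≤ F3 (5 * π / 9) (2 * π / 9) (2 * π / 9) := by
    have := F3_concave (x := π / 3) (y := π / 3) (z := π / 3) (x' := 2 * π / 3) (y' := π / 6)
      (z' := π / 6) (s := 2 / 3) (by positivity) (by positivity) (by positivity) (by ring)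
      (by positivity) (by positivity) (by positivity) (by ring) (by norm_num) (by norm_num)
    rw [f0, f1] at this
    convert this using 1
    · ring
    · congr 1 <;> ring
  have g3 : 8 / 9 * v3 ≤ F3 (π / 3) (4 * π / 9) (2 * π / 9) := by
    have := F3_concave (x := π / 3) (y := π / 3) (z := π / 3) (x' := π / 3) (y' := π / 2)
      (z' := π / 6) (s := 2 / 3) (by positivity) (by positivity) (by positivity) (by ring)
      (by positivity) (by positivity) (by positivity) (by ring) (by norm_num) (by norm_num)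
    rw [f0, f2] at this
    convert this using 1
    · ring
    · congr 1 <;> ring
  -- upper bounds by the tangent inequality
  have t1 := F3_le_iso (x := 4 * π / 9) (y := 5 * π / 18) (z := 5 * π / 18) (a := X)
    (by positivity) (by positivity) (by positivity) (by ring) hX0 (by linarith)
  have t2 := F3_le_iso (x := 5 * π / 9) (y := 2 * π / 9) (z := 2 * π / 9) (a := π - X)
    (by positivity) (by positivity) (by positivity) (by ring) (by linarith) (by linarith)
  have t3 := F3_le_two (x := π / 3) (y := 4 * π / 9) (z := 2 * π / 9) (a := π - 3 * X / 2)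
    (b := X) (c := X / 2) (by positivity) (by positivity) (by positivity) (by ring)
    (by linarith) (by linarith) (by linarith) (by ring)
  rw [mu_p] at t1
  rw [mu_q] at t2
  unfold V0
  set m1 := lg (π - 3 * X / 2) - lg (X / 2)
  set m2 := lg X - lg (X / 2)
  have : 3 * (m1 * (4 * π / 9 - X)) + 2 * (m2 * (5 * π / 9 - (π - X))) +
      2 * (m1 * (π / 3 - (π - 3 * X / 2))) + 2 * (m2 * (4 * π / 9 - X)) = 0 := by ring
  linarith

end Pool.Agent.L7h81.IP
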