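import Pool.Agent.L7h81.IP.AngSum
import Pool.Agent.L7h81.IP.Const

/-!
# The upper bound for the sum of the volumes of the tetrahedra
-/

set_option autoImplicit false

namespace Pool.Agent.L7h81.IP

open Real MeasureTheory Set
open scoped ENNReal

theorem F3_nonneg {α β γ : ℝ} (hα : 0 < α) (hβ : 0 < β) (hγ : 0 < γ) (h : α + β + γ = π) :
    0 ≤ F3 α β γ := by
  rw [← (hh_int h).1, intervalIntegral.integral_of_le hα.le, integral_Ioc_eq_integral_Ioo]
  apply setIntegral_nonneg measurableSet_Ioo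
  intro θ hθ
  obtain ⟨h1, h2, h3⟩ := hh_eq hα hβ hγ h (D := 1) one_pos hθ.1 hθ.2
  rw [← h3]
  have h4 := Real.log_le_log (x := 1 * Real.sin (γ + θ) -
    1 * Real.sin β * Real.sin γ / Real.sin (β + θ)) (y := 1 * Real.sin (γ + θ))
    (by linarith) (by linarith)
  linarith

section
variable {x : Fin 8 → E3} {v : Fin 8}

theorem tri_info (hx : Gen x) (hv : x v = NP) {t : Finset (Fin 8)} (_ht : t ∈ Fc x) (hvt : v ∉ t)
    {p a b : Fin 8} (e : t = {p, a, b}) (h1 : p ≠ a) (h2 : p ≠ b) (h3 : a ≠ b) :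
    0 < ang x t p ∧ 0 < ang x t a ∧ 0 < ang x t b ∧ ang x t p + ang x t a + ang x t b = π ∧
    hvol (convexHull ℝ (insert NP (x '' t))) =
      ENNReal.ofReal (F3 (ang x t p) (ang x t a) (ang x t b)) := by
  have hpv : p ≠ v := by rintro rfl; exact hvt (by rw [e]; simp)
  have hav : a ≠ v := by rintro rfl; exact hvt (by rw [e]; simp)
  have hbv : b ≠ v := by rintro rfl; exact hvt (by rw [e]; simp)
  have hom : om (Z x a - Z x p) (Z x b - Z x p) ≠ 0 := by
    obtain ⟨c, hc, he⟩ := chi_om hx hv hpv hav hbv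
    intro h0
    rw [h0, mul_zero] at he
    exact hx.gen p a b v h1 h2 hpv h3 hav hbv he
  have e1 : ang x t p = an (Z x a - Z x p) (Z x b - Z x p) := by rw [e, ang_eq h1 h2 h3]
  have e2 : ang x t a = an (Z x p - Z x a) (Z x b - Z x a) := by
    have : t = {a, p, b} := by rw [e]; ext i; simp; tauto
    rw [this, ang_eq h1.symm h3 h2]
  have e3 : ang x t b = an (Z x p - Z x b) (Z x a - Z x b) := by
    have : t = {b, p, a} := by rw [e]; ext i; simp; tauto
    rw [this, ang_eq h2.symm h3.symm h1]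
  have hB : om (Z x p - Z x a) (Z x b - Z x a) ≠ 0 := by
    rw [om_B]; simpa using hom
  have hC : om (Z x p - Z x b) (Z x a - Z x b) ≠ 0 := by
    rw [om_C]; simpa using hom
  refine ⟨by rw [e1]; exact an_pos hom, by rw [e2]; exact an_pos hB, by rw [e3]; exact an_pos hC,
    ?_, ?_⟩
  · rw [e1, e2, e3]
    exact an_sum hom
  · rw [e1, e2, e3, ← tet_vol hom, sph_Z hx hv hpv, sph_Z hx hv hav, sph_Z hx hv hbv]
    congr 2
    rw [e]
    simp [Set.image_insert_eq]

/-- the volume of the tetrahedron over `t` -/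
noncomputable def wt (x : Fin 8 → E3) (t : Finset (Fin 8)) : ℝ :=
  (hvol (convexHull ℝ (insert NP (x '' t)))).toReal

theorem wt_eq (hx : Gen x) (hv : x v = NP) {t : Finset (Fin 8)} (ht : t ∈ Fc x) (hvt : v ∉ t)
    {p a b : Fin 8} (e : t = {p, a, b}) (h1 : p ≠ a) (h2 : p ≠ b) (h3 : a ≠ b) :
    wt x t = F3 (ang x t p) (ang x t a) (ang x t b) ∧
    hvol (convexHull ℝ (insert NP (x '' t))) = ENNReal.ofReal (wt x t) := by
  obtain ⟨a1, a2, a3, a4, a5⟩ := tri_info hx hv ht hvt e h1 h2 h3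
  have : wt x t = F3 (ang x t p) (ang x t a) (ang x t b) := by
    unfold wt
    rw [a5, ENNReal.toReal_ofReal (F3_nonneg a1 a2 a3 a4)]
  exact ⟨this, by rw [a5, this]⟩

theorem facet_split {t : Finset (Fin 8)} (ht : t ∈ Fc x) {p : Fin 8} (hp : p ∈ t) :
    ∃ a b, t = {p, a, b} ∧ p ≠ a ∧ p ≠ b ∧ a ≠ b := by
  obtain ⟨a, b, e, h⟩ := facet_at ht hp
  exact ⟨a, b, e, h.1, h.2.1, h.2.2.1⟩

theorem facet_split2 {t : Finset (Fin 8)} (ht : t ∈ Fc x) {p q : Fin 8} (hp : p ∈ t)
    (hq : q ∈ t) (hpq : p ≠ q) : ∃ b, t = {p, q, b} ∧ p ≠ b ∧ q ≠ b := by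
  obtain ⟨a, b, e, h1, h2, h3⟩ := facet_split ht hp
  rw [e] at hq
  simp only [Finset.mem_insert, Finset.mem_singleton] at hq
  rcases hq with h | h | h
  · exact absurd h hpq.symm
  · subst h; exact ⟨b, e, h2, h3⟩
  · subst h
    refine ⟨a, ?_, h1, h3.symm⟩
    rw [e]; ext i; simp; tauto

theorem wt_vol (hx : Gen x) (hv : x v = NP) {t : Finset (Fin 8)} (ht : t ∈ Fc x)
    (hvt : v ∉ t) : hvol (convexHull ℝ (insert NP (x '' t))) = ENNReal.ofReal (wt x t) := by
  obtain ⟨p, a, b, e, h⟩ := mem_Fc.1 ht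
  exact (wt_eq hx hv ht hvt e h.1 h.2.1 h.2.2.1).2

theorem wt_nonneg (t : Finset (Fin 8)) : 0 ≤ wt x t := ENNReal.toReal_nonneg

theorem wt_le_v3 (hx : Gen x) (hv : x v = NP) {t : Finset (Fin 8)} (ht : t ∈ Fc x)
    (hvt : v ∉ t) : wt x t ≤ v3 := by
  obtain ⟨p, a, b, e, h⟩ := mem_Fc.1 ht
  obtain ⟨a1, a2, a3, a4, a5⟩ := tri_info hx hv ht hvt e h.1 h.2.1 h.2.2.1
  rw [(wt_eq hx hv ht hvt e h.1 h.2.1 h.2.2.1).1]
  exact F3_le_v3 a1 a2 a3 a4

theorem wt_le_iso (hx : Gen x) (hv : x v = NP) {t : Finset (Fin 8)} (ht : t ∈ Fc x)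
    (hvt : v ∉ t) {p : Fin 8} (hp : p ∈ t) {a : ℝ} (ha : 0 < a) (ha' : a < π) :
    wt x t ≤ F3 a ((π - a) / 2) ((π - a) / 2) - (lg a - lg ((π - a) / 2)) * (ang x t p - a) := by
  obtain ⟨i, j, e, h1, h2, h3⟩ := facet_split ht hp
  obtain ⟨a1, a2, a3, a4, a5⟩ := tri_info hx hv ht hvt e h1 h2 h3
  rw [(wt_eq hx hv ht hvt e h1 h2 h3).1]
  exact F3_le_iso a1 a2 a3 a4 ha ha'

theorem wt_le_two (hx : Gen x) (hv : x v = NP) {t : Finset (Fin 8)} (ht : t ∈ Fc x)
    (hvt : v ∉ t) {p q : Fin 8} (hp : p ∈ t) (hq : q ∈ t) (hpq : p ≠ q) {a b c : ℝ} (ha : 0 < a)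
    (hb : 0 < b) (hc : 0 < c) (h0 : a + b + c = π) :
    wt x t ≤ F3 a b c - (lg a - lg c) * (ang x t p - a) - (lg b - lg c) * (ang x t q - b) := by
  obtain ⟨j, e, h1, h2⟩ := facet_split2 ht hp hq hpq
  obtain ⟨a1, a2, a3, a4, a5⟩ := tri_info hx hv ht hvt e hpq h1 h2
  rw [(wt_eq hx hv ht hvt e hpq h1 h2).1]
  exact F3_le_two a1 a2 a3 a4 ha hb hc h0

theorem ang_lt (hx : Gen x) (hv : x v = NP) {t : Finset (Fin 8)} (ht : t ∈ Fc x)
    (hvt : v ∉ t) {p : Fin 8} (hp : p ∈ t) : ang x t p < π := by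
  obtain ⟨i, j, e, h1, h2, h3⟩ := facet_split ht hp
  obtain ⟨a1, a2, a3, a4, a5⟩ := tri_info hx hv ht hvt e h1 h2 h3
  linarith

theorem arithB {w11 w01 w10 w00 f g m s11p s11q s10 s01 v V a b P : ℝ}
    (u11 : w11 ≤ 2 * f - m * (s11p - 2 * a) - m * (s11q - 2 * a))
    (u10 : w10 ≤ 2 * g - m * (s10 - 2 * b)) (u01 : w01 ≤ 2 * g - m * (s01 - 2 * b))
    (u00 : w00 ≤ 1 * v) (hab : 2 * a + 2 * b = P) (h1 : 0 ≤ m * (s11q + s01 - P))
    (h2 : 0 ≤ m * (s11p + s10 - P)) (h3 : 4 * g + 2 * f ≤ 5 * v) (h5 : 6 * v ≤ V) :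
    (w11 + w01) + (w10 + w00) ≤ V := by
  have e1 : m * (s11q + s01 - P) = m * (s11q - 2 * a) + m * (s01 - 2 * b) := by
    rw [← hab]; ring
  have e2 : m * (s11p + s10 - P) = m * (s11p - 2 * a) + m * (s10 - 2 * b) := by
    rw [← hab]; ring
  linarith

theorem arithC {w11 w01 w10 w00 f g h m n s11p s11q s10 s01 v a b c d P : ℝ}
    (u11 : w11 ≤ 2 * f - m * (s11p - 2 * a) - n * (s11q - 2 * b))
    (u10 : w10 ≤ 3 * g - m * (s10 - 3 * c)) (u01 : w01 ≤ 2 * h - n * (s01 - 2 * d))
    (u00 : w00 ≤ 0 * v) (hac : 2 * a + 3 * c = P) (hbd : 2 * b + 2 * d = P)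
    (h1 : 0 ≤ n * (s11q + s01 - P))
    (h2 : 0 ≤ m * (s11p + s10 - P)) :
    (w11 + w01) + (w10 + w00) ≤ 3 * g + 2 * h + 2 * f := by
  have e1 : n * (s11q + s01 - P) = n * (s11q - 2 * b) + n * (s01 - 2 * d) := by
    rw [← hbd]; ring
  have e2 : m * (s11p + s10 - P) = m * (s11p - 2 * a) + m * (s10 - 3 * c) := by
    rw [← hac]; ring
  linarith

/-- the core estimate in the case of seven triangles -/
theorem seven (hx : Gen x) (hv : x v = NP) {p q : Fin 8} (hpq : p ≠ q) (hpv : p ≠ v)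
    (hqv : q ≠ v) (hp : p ∉ Nb x v) (hq : q ∉ Nb x v)
    (hT : ((Fc x).filter (fun t => v ∉ t)).card = 7)
    (hp1 : 1 ≤ (Nb x p).card) (hp5 : (Nb x p).card ≤ 5)
    (hq1 : 1 ≤ (Nb x q).card) (hqp : (Nb x q).card ≤ (Nb x p).card) :
    ∑ t ∈ (Fc x).filter (fun t => v ∉ t), wt x t ≤ V0 := by
  classical
  have hpi := Real.pi_pos
  set T := (Fc x).filter (fun t => v ∉ t) with hTd
  -- stars avoid v
  have star : ∀ r : Fin 8, r ≠ v → r ∉ Nb x v → (Fc x).filter (fun t => r ∈ t) =
      T.filter (fun t => r ∈ t) := by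
    intro r hrv hr
    ext t
    simp only [hTd, Finset.mem_filter]
    constructor
    · rintro ⟨h1, h2⟩
      refine ⟨⟨h1, ?_⟩, h2⟩
      obtain ⟨a, b, e, hF⟩ := facet_at h1 h2
      obtain ⟨n1, n2⟩ := not_v hx hr hF
      rw [e]
      simp only [Finset.mem_insert, Finset.mem_singleton, not_or]
      exact ⟨hrv.symm, n1.symm, n2.symm⟩
    · rintro ⟨⟨h1, -⟩, h2⟩
      exact ⟨h1, h2⟩
  have sp := star p hpv hp
  have sq := star q hqv hq
  have cp : (T.filter (fun t => p ∈ t)).card = (Nb x p).card := by rw [← sp, star_card]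
  have cq : (T.filter (fun t => q ∈ t)).card = (Nb x q).card := by rw [← sq, star_card]
  have ap : 2 * π ≤ ∑ t ∈ T.filter (fun t => p ∈ t), ang x t p := by
    rw [← sp]
    exact angle_sum hx hv hpv hp (Finset.card_pos.1 hp1)
  have aq : 2 * π ≤ ∑ t ∈ T.filter (fun t => q ∈ t), ang x t q := by
    rw [← sq]
    exact angle_sum hx hv hqv hq (Finset.card_pos.1 hq1)
  have hTF : ∀ t ∈ T, t ∈ Fc x ∧ v ∉ t := by
    intro t ht
    rw [hTd, Finset.mem_filter] at ht
    exact ht
  -- at least three triangles at q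
  have q3 : 3 ≤ (Nb x q).card := by
    by_contra hcon
    push Not at hcon
    have h1 : ∑ t ∈ T.filter (fun t => q ∈ t), ang x t q <
        ∑ t ∈ T.filter (fun t => q ∈ t), π := by
      apply Finset.sum_lt_sum_of_nonempty
      · rw [← Finset.card_pos, cq]; omega
      · intro t ht
        rw [Finset.mem_filter] at ht
        exact ang_lt hx hv (hTF t ht.1).1 (hTF t ht.1).2 ht.2
    rw [Finset.sum_const, cq, nsmul_eq_mul] at h1
    have h2 : ((Nb x q).card : ℝ) ≤ 2 := by exact_mod_cast (by omega : (Nb x q).card ≤ 2)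
    nlinarith
  -- the four parts
  set T11 := (T.filter (fun t => q ∈ t)).filter (fun t => p ∈ t) with h11
  set T01 := (T.filter (fun t => q ∈ t)).filter (fun t => p ∉ t) with h01
  set T10 := (T.filter (fun t => q ∉ t)).filter (fun t => p ∈ t) with h10
  set T00 := (T.filter (fun t => q ∉ t)).filter (fun t => p ∉ t) with h00
  have c1 : T11.card + T01.card = (Nb x q).card := by
    rw [← cq, h11, h01]
    exact Finset.card_filter_add_card_filter_not _
  have c0 : (T.filter (fun t => q ∈ t)).card + (T.filter (fun t => q ∉ t)).card = 7 := by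
    rw [← hT]
    exact Finset.card_filter_add_card_filter_not _
  have c0' : T10.card + T00.card = (T.filter (fun t => q ∉ t)).card := by
    rw [h10, h00]
    exact Finset.card_filter_add_card_filter_not _
  have eT1 : T11 = (T.filter (fun t => p ∈ t)).filter (fun t => q ∈ t) := by
    rw [h11, Finset.filter_comm]
  have eT2 : T10 = (T.filter (fun t => p ∈ t)).filter (fun t => q ∉ t) := by
    rw [h10, Finset.filter_comm]
  have c2 : T11.card + T10.card = (Nb x p).card := by
    rw [← cp, eT1, eT2]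
    exact Finset.card_filter_add_card_filter_not _
  have c11 : T11.card = 0 ∨ T11.card = 2 := by
    have e : T11 = (Fc x).filter (fun t => p ∈ t ∧ q ∈ t) := by
      rw [eT1, ← sp, Finset.filter_filter]
    rw [e]
    exact edge_card hx hpq
  have sT : ∑ t ∈ T, wt x t = (∑ t ∈ T11, wt x t + ∑ t ∈ T01, wt x t) +
      (∑ t ∈ T10, wt x t + ∑ t ∈ T00, wt x t) := by
    rw [h11, h01, h10, h00, Finset.sum_filter_add_sum_filter_not,
      Finset.sum_filter_add_sum_filter_not, Finset.sum_filter_add_sum_filter_not]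
  have sQ : ∑ t ∈ T.filter (fun t => q ∈ t), ang x t q =
      ∑ t ∈ T11, ang x t q + ∑ t ∈ T01, ang x t q := by
    rw [h11, h01, Finset.sum_filter_add_sum_filter_not]
  have sP : ∑ t ∈ T.filter (fun t => p ∈ t), ang x t p =
      ∑ t ∈ T11, ang x t p + ∑ t ∈ T10, ang x t p := by
    rw [eT1, eT2, Finset.sum_filter_add_sum_filter_not]
  rw [sQ] at aq
  rw [sP] at ap
  have m11 : ∀ t ∈ T11, t ∈ Fc x ∧ v ∉ t ∧ p ∈ t ∧ q ∈ t := by
    intro t ht
    simp only [h11, Finset.mem_filter] at ht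
    exact ⟨(hTF t ht.1.1).1, (hTF t ht.1.1).2, ht.2, ht.1.2⟩
  have m10 : ∀ t ∈ T10, t ∈ Fc x ∧ v ∉ t ∧ p ∈ t := by
    intro t ht
    simp only [h10, Finset.mem_filter] at ht
    exact ⟨(hTF t ht.1.1).1, (hTF t ht.1.1).2, ht.2⟩
  have m01 : ∀ t ∈ T01, t ∈ Fc x ∧ v ∉ t ∧ q ∈ t := by
    intro t ht
    simp only [h01, Finset.mem_filter] at ht
    exact ⟨(hTF t ht.1.1).1, (hTF t ht.1.1).2, ht.1.2⟩
  have m00 : ∀ t ∈ T00, t ∈ Fc x ∧ v ∉ t := by
    intro t ht
    simp only [h00, Finset.mem_filter] at ht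
    exact ⟨(hTF t ht.1.1).1, (hTF t ht.1.1).2⟩
  -- general bounds
  have b00 : ∑ t ∈ T00, wt x t ≤ T00.card * v3 := by
    rw [← nsmul_eq_mul]
    exact Finset.sum_le_card_nsmul _ _ _ (fun t ht => wt_le_v3 hx hv (m00 t ht).1 (m00 t ht).2)
  have iso : ∀ (S : Finset (Finset (Fin 8))) (r : Fin 8) (a : ℝ), 0 < a → a < π →
      (∀ t ∈ S, t ∈ Fc x ∧ v ∉ t ∧ r ∈ t) →
      ∑ t ∈ S, wt x t ≤ S.card * F3 a ((π - a) / 2) ((π - a) / 2) -
        (lg a - lg ((π - a) / 2)) * (∑ t ∈ S, ang x t r - S.card * a) := by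
    intro S r a ha ha' hS
    calc ∑ t ∈ S, wt x t ≤ ∑ t ∈ S, (F3 a ((π - a) / 2) ((π - a) / 2) -
        (lg a - lg ((π - a) / 2)) * (ang x t r - a)) :=
          Finset.sum_le_sum (fun t ht => wt_le_iso hx hv (hS t ht).1 (hS t ht).2.1 (hS t ht).2.2
            ha ha')
      _ = _ := by
        rw [Finset.sum_sub_distrib, ← Finset.mul_sum, Finset.sum_sub_distrib, Finset.sum_const,
          Finset.sum_const, nsmul_eq_mul, nsmul_eq_mul]
  have two : ∀ (a b c : ℝ), 0 < a → 0 < b → 0 < c → a + b + c = π →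
      ∑ t ∈ T11, wt x t ≤ T11.card * F3 a b c -
        (lg a - lg c) * (∑ t ∈ T11, ang x t p - T11.card * a) -
        (lg b - lg c) * (∑ t ∈ T11, ang x t q - T11.card * b) := by
    intro a b c ha hb hc h0
    calc ∑ t ∈ T11, wt x t ≤ ∑ t ∈ T11, (F3 a b c - (lg a - lg c) * (ang x t p - a) -
        (lg b - lg c) * (ang x t q - b)) :=
          Finset.sum_le_sum (fun t ht => wt_le_two hx hv (m11 t ht).1 (m11 t ht).2.1
            (m11 t ht).2.2.1 (m11 t ht).2.2.2 hpq ha hb hc h0)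
      _ = _ := by
        rw [Finset.sum_sub_distrib, Finset.sum_sub_distrib, ← Finset.mul_sum, ← Finset.mul_sum,
          Finset.sum_sub_distrib, Finset.sum_sub_distrib, Finset.sum_const,
          Finset.sum_const, Finset.sum_const, nsmul_eq_mul, nsmul_eq_mul, nsmul_eq_mul]
  -- case distinction
  have hcase : (Nb x q).card = 3 ∨ ((Nb x q).card = 4 ∧ (Nb x p).card = 4) ∨
      ((Nb x q).card = 4 ∧ (Nb x p).card = 5) := by omega
  rcases hcase with hA | hB | hC
  · -- q has degree three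
    have hq' : ∑ t ∈ T.filter (fun t => q ∈ t), wt x t ≤ 2 * v3 := by
      have := iso (T.filter (fun t => q ∈ t)) q (2 * π / 3) (by positivity) (by linarith) (by
        intro t ht
        rw [Finset.mem_filter] at ht
        exact ⟨(hTF t ht.1).1, (hTF t ht.1).2, ht.2⟩)
      rw [cq, hA, F3_A, sQ] at this
      have h1 := mul_nonneg mu_A (sub_nonneg.2 aq)
      push_cast at this
      linarith
    have hr : ∑ t ∈ T.filter (fun t => q ∉ t), wt x t ≤ 4 * v3 := by
      have h4 : (T.filter (fun t => q ∉ t)).card = 4 := by omega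
      have : ∑ t ∈ T.filter (fun t => q ∉ t), wt x t ≤
          (T.filter (fun t => q ∉ t)).card • v3 :=
        Finset.sum_le_card_nsmul _ _ _ (fun t ht => by
          rw [Finset.mem_filter] at ht
          exact wt_le_v3 hx hv (hTF t ht.1).1 (hTF t ht.1).2)
      rw [h4] at this
      simpa using this
    have := Finset.sum_filter_add_sum_filter_not T (fun t => q ∈ t) (fun t => wt x t)
    rw [← this]
    linarith [V0_ge]
  · have k11 : T11.card = 2 := by omega
    have k01 : T01.card = 2 := by omega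
    have k10 : T10.card = 2 := by omega
    have k00 : T00.card = 1 := by omega
    have u11 := two (2 * π / 5) (2 * π / 5) (π / 5) (by positivity) (by positivity)
      (by positivity) (by ring)
    have u10 := iso T10 p (3 * π / 5) (by positivity) (by linarith) m10
    have u01 := iso T01 q (3 * π / 5) (by positivity) (by linarith) m01
    rw [k11] at u11
    rw [k10, show (π - 3 * π / 5) / 2 = π / 5 by ring, mu_B] at u10
    rw [k01, show (π - 3 * π / 5) / 2 = π / 5 by ring, mu_B] at u01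
    rw [k00] at b00
    rw [sT]
    push_cast at u11 u10 u01 b00
    exact arithB u11 u10 u01 b00 (by ring) (mul_nonneg mu_B_nonneg (sub_nonneg.2 aq))
      (mul_nonneg mu_B_nonneg (sub_nonneg.2 ap)) F3_B V0_ge
  · have k11 : T11.card = 2 := by omega
    have k01 : T01.card = 2 := by omega
    have k10 : T10.card = 3 := by omega
    have k00 : T00.card = 0 := by omega
    have hX0 := X_pos
    have hX1 := X_lt
    have u11 := two (π - 3 * X / 2) X (X / 2) (by linarith) hX0
      (by linarith) (by ring)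
    have u10 := iso T10 p X hX0 (by linarith) m10
    have u01 := iso T01 q (π - X) (by linarith) (by linarith) m01
    rw [k11] at u11
    rw [k10, mu_p] at u10
    rw [k01, mu_q] at u01
    rw [k00] at b00
    rw [sT]
    push_cast at u11 u10 u01 b00
    exact arithC u11 u10 u01 b00 (by ring) (by ring) (mul_nonneg mu_q_nonneg (sub_nonneg.2 aq))
      (mul_nonneg mu_p_nonneg (sub_nonneg.2 ap))

/-- the upper bound from a vertex of maximal degree -/
theorem sum_bound (hx : Gen x) (hv : x v = NP) (hmax : ∀ u, (Nb x u).card ≤ (Nb x v).card) :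
    ∑ t ∈ (Fc x).filter (fun t => v ∉ t), hvol (convexHull ℝ (insert NP (x '' t))) ≤
      ENNReal.ofReal V0 := by
  classical
  have e : ∑ t ∈ (Fc x).filter (fun t => v ∉ t), hvol (convexHull ℝ (insert NP (x '' t))) =
      ENNReal.ofReal (∑ t ∈ (Fc x).filter (fun t => v ∉ t), wt x t) := by
    rw [ENNReal.ofReal_sum_of_nonneg (fun t _ => wt_nonneg t)]
    apply Finset.sum_congr rfl
    intro t ht
    rw [Finset.mem_filter] at ht
    exact wt_vol hx hv ht.1 ht.2
  rw [e]
  apply ENNReal.ofReal_le_ofReal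
  have hT := card_T hx hv
  have hF : ((Fc x).filter (fun t => v ∈ t)).card + ((Fc x).filter (fun t => v ∉ t)).card =
      (Fc x).card := Finset.card_filter_add_card_filter_not _
  rw [star_card] at hF
  have hdc := double_count (x := x)
  have hle : ∑ u, (Nb x u).card ≤ 8 * (Nb x v).card := by
    have := Finset.sum_le_card_nsmul Finset.univ (fun u => (Nb x u).card) _ (fun u _ => hmax u)
    simpa using this
  by_cases h6 : ((Fc x).filter (fun t => v ∉ t)).card ≤ 6
  · have h1 : ∑ t ∈ (Fc x).filter (fun t => v ∉ t), wt x t ≤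
        ((Fc x).filter (fun t => v ∉ t)).card • v3 :=
      Finset.sum_le_card_nsmul _ _ _ (fun t ht => by
        rw [Finset.mem_filter] at ht
        exact wt_le_v3 hx hv ht.1 ht.2)
    have hv3 : 0 ≤ v3 := by
      have hpi := Real.pi_pos
      have := F3_nonneg (α := π / 3) (β := π / 3) (γ := π / 3) (by positivity) (by positivity)
        (by positivity) (by ring)
      have e : F3 (π / 3) (π / 3) (π / 3) = v3 := by unfold F3 v3; ring
      rwa [e] at this
    rw [nsmul_eq_mul] at h1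
    have h2 : (((Fc x).filter (fun t => v ∉ t)).card : ℝ) ≤ 6 := by exact_mod_cast h6
    have := mul_le_mul_of_nonneg_right h2 hv3
    linarith [V0_ge]
  · push Not at h6
    have n5 : (Nb x v).card = 5 := by omega
    have t7 : ((Fc x).filter (fun t => v ∉ t)).card = 7 := by omega
    have s36 : ∑ u, (Nb x u).card = 36 := by omega
    have hvN : v ∉ Nb x v := by
      intro h
      obtain ⟨b, hF⟩ := mem_Nb.1 h
      exact hF.1 rfl
    have hcard : (Finset.univ \ insert v (Nb x v)).card = 2 := by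
      rw [Finset.card_sdiff_of_subset (Finset.subset_univ _), Finset.card_univ, Fintype.card_fin,
        Finset.card_insert_of_notMem hvN, n5]
    obtain ⟨p, q, hpq, hpqe⟩ := Finset.card_eq_two.1 hcard
    have hpm : p ∈ Finset.univ \ insert v (Nb x v) := by rw [hpqe]; simp
    have hqm : q ∈ Finset.univ \ insert v (Nb x v) := by rw [hpqe]; simp
    simp only [Finset.mem_sdiff, Finset.mem_univ, true_and, Finset.mem_insert, not_or] at hpm hqm
    have hge : ∀ r : Fin 8, 1 ≤ (Nb x r).card := by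
      intro r
      have h1 := Finset.add_sum_erase Finset.univ (fun u => (Nb x u).card) (Finset.mem_univ r)
      have h2 : ∑ u ∈ Finset.univ.erase r, (Nb x u).card ≤ 35 := by
        have := Finset.sum_le_card_nsmul (Finset.univ.erase r) (fun u => (Nb x u).card) 5
          (fun u _ => by have := hmax u; omega)
        rw [Finset.card_erase_of_mem (Finset.mem_univ _)] at this
        simpa using this
      omega
    rcases le_total (Nb x q).card (Nb x p).card with h | h
    · exact seven hx hv hpq hpm.1 hqm.1 hpm.2 hqm.2 t7 (hge p) (by have := hmax p; omega)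
        (hge q) h
    · exact seven hx hv hpq.symm hqm.1 hpm.1 hqm.2 hpm.2 t7 (hge q) (by have := hmax q; omega)
        (hge p) h

end

end Pool.Agent.L7h81.IP
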