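import Pool.Agent.L7h81.IP.Tet2

/-!
# Combinatorics of the facets of the convex hull of eight generic points
-/

set_option autoImplicit false

namespace Pool.Agent.L7h81.IP

open Real MeasureTheory Set
open scoped ENNReal

/-- the determinant -/
def dt (u v w : E3) : ℝ :=
  u 0 * (v 1 * w 2 - v 2 * w 1) - u 1 * (v 0 * w 2 - v 2 * w 0) + u 2 * (v 0 * w 1 - v 1 * w 0)

/-- the chirotope -/
def chi (x : Fin 8 → E3) (i j k l : Fin 8) : ℝ := dt (x j - x i) (x k - x i) (x l - x i)

/-- eight points on the sphere, no four of them coplanar -/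
structure Gen (x : Fin 8 → E3) : Prop where
  norm : ∀ i, ‖x i‖ = 1
  gen : ∀ i j k l, i ≠ j → i ≠ k → i ≠ l → j ≠ k → j ≠ l → k ≠ l → chi x i j k l ≠ 0

/-- positively oriented facet -/
def FS (x : Fin 8 → E3) (p a b : Fin 8) : Prop :=
  p ≠ a ∧ p ≠ b ∧ a ≠ b ∧ ∀ l, l ≠ p → l ≠ a → l ≠ b → 0 < chi x p a b l

variable {x : Fin 8 → E3}

theorem chi_swap (p a b l : Fin 8) : chi x p b a l = -chi x p a b l := by
  unfold chi dt; simp only [PiLp.sub_apply]; ring

theorem chi_swap34 (p a b l : Fin 8) : chi x p a l b = -chi x p a b l := by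
  unfold chi dt; simp only [PiLp.sub_apply]; ring

theorem chi_cyc (p a b l : Fin 8) : chi x a b p l = chi x p a b l := by
  unfold chi dt; simp only [PiLp.sub_apply]; ring

theorem chi_rot (v a b j : Fin 8) : chi x v a b j = -chi x a b j v := by
  unfold chi dt; simp only [PiLp.sub_apply]; ring

theorem plucker (p a b l c e : Fin 8) :
    chi x p a b l * chi x p a c e - chi x p a b c * chi x p a l e +
      chi x p a b e * chi x p a l c = 0 := by
  unfold chi
  generalize x a - x p = u
  generalize x b - x p = b'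
  generalize x l - x p = l'
  generalize x c - x p = c'
  generalize x e - x p = e'
  unfold dt; ring

theorem FS_cyc {p a b : Fin 8} (h : FS x p a b) : FS x a b p := by
  obtain ⟨h1, h2, h3, h4⟩ := h
  refine ⟨h3, h1.symm, h2.symm, fun l l1 l2 l3 => ?_⟩
  rw [chi_cyc]
  exact h4 l l3 l1 l2

theorem exists_other (p a b : Fin 8) : ∃ l : Fin 8, l ≠ p ∧ l ≠ a ∧ l ≠ b := by
  revert p a b; decide

theorem exists_other4 (p a b c : Fin 8) : ∃ l : Fin 8, l ≠ p ∧ l ≠ a ∧ l ≠ b ∧ l ≠ c := by
  revert p a b c; decide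

theorem FS_unique {p a b c : Fin 8} (h : FS x p a b) (h' : FS x p a c) : b = c := by
  by_contra hne
  have h1 := h.2.2.2 c h'.2.1.symm h'.2.2.1.symm (Ne.symm hne)
  have h2 := h'.2.2.2 b h.2.1.symm h.2.2.1.symm hne
  rw [chi_swap34] at h2
  linarith

theorem FS_unique' {p a b c : Fin 8} (h : FS x p a b) (h' : FS x p c b) : a = c := by
  have h1 := FS_cyc (FS_cyc h)
  have h2 := FS_cyc (FS_cyc h')
  exact FS_unique h1 h2

theorem FS_asymm {p a b : Fin 8} (h : FS x p a b) (h' : FS x p b a) : False := by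
  obtain ⟨l, l1, l2, l3⟩ := exists_other p a b
  have h1 := h.2.2.2 l l1 l2 l3
  have h2 := h'.2.2.2 l l1 l3 l2
  rw [chi_swap] at h2
  linarith

/-- the other facet at an edge -/
theorem FS_exists (hx : Gen x) {p a b : Fin 8} (h : FS x p a b) : ∃ c, FS x p c a := by
  classical
  obtain ⟨h1, h2, h3, h4⟩ := h
  obtain ⟨e, e1, e2, e3⟩ := exists_other p a b
  set S : Finset (Fin 8) := Finset.univ.filter (fun j => j ≠ p ∧ j ≠ a ∧ j ≠ b) with hS
  have hne : S.Nonempty := ⟨e, by simp [hS, e1, e2, e3]⟩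
  obtain ⟨c, hc, hmin⟩ := Finset.exists_min_image S
    (fun j => chi x p a j e / chi x p a b j) hne
  have hc' : c ≠ p ∧ c ≠ a ∧ c ≠ b := by simpa [hS] using hc
  refine ⟨c, hc'.1.symm, h1, hc'.2.1, fun l l1 l2 l3 => ?_⟩
  rw [chi_swap]
  have hbc := h4 c hc'.1 hc'.2.1 hc'.2.2
  by_cases hlb : l = b
  · subst hlb
    rw [chi_swap34] at hbc
    linarith
  · have hl : l ∈ S := by simp [hS, l1, l3, hlb]
    have hm := hmin l hl
    have hbl := h4 l l1 l3 hlb
    have hbe := h4 e e1 e2 e3
    rw [div_le_div_iff₀ hbc hbl] at hm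
    have hp := plucker (x := x) p a b l c e
    have h5 : 0 ≤ chi x p a b e * chi x p a l c := by nlinarith
    have h6 : 0 ≤ chi x p a l c := by
      by_contra hcon
      push Not at hcon
      nlinarith
    have h7 : chi x p a l c ≠ 0 := hx.gen p a l c h1 (Ne.symm l1) (Ne.symm hc'.1) (Ne.symm l3)
      (Ne.symm hc'.2.1) l2
    have h8 : 0 < chi x p a l c := lt_of_le_of_ne h6 h7.symm
    rw [chi_swap34] at h8
    linarith

open Classical in
/-- neighbours -/
noncomputable def Nb (x : Fin 8 → E3) (p : Fin 8) : Finset (Fin 8) :=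
  Finset.univ.filter (fun a => ∃ b, FS x p a b)

open Classical in
/-- facets -/
noncomputable def Fc (x : Fin 8 → E3) : Finset (Finset (Fin 8)) :=
  Finset.univ.filter (fun t => ∃ p a b, t = {p, a, b} ∧ FS x p a b)

theorem mem_Nb {p a : Fin 8} : a ∈ Nb x p ↔ ∃ b, FS x p a b := by
  classical
  simp [Nb]

theorem mem_Fc {t : Finset (Fin 8)} : t ∈ Fc x ↔ ∃ p a b, t = {p, a, b} ∧ FS x p a b := by
  classical
  simp [Fc]

theorem card_facet {t : Finset (Fin 8)} (h : t ∈ Fc x) : t.card = 3 := by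
  obtain ⟨p, a, b, rfl, h1, h2, h3, -⟩ := mem_Fc.1 h
  rw [Finset.card_eq_three]
  exact ⟨p, a, b, h1, h2, h3, rfl⟩

theorem facet_at {t : Finset (Fin 8)} (h : t ∈ Fc x) {q : Fin 8} (hq : q ∈ t) :
    ∃ a b, t = {q, a, b} ∧ FS x q a b := by
  obtain ⟨p, a, b, rfl, hF⟩ := mem_Fc.1 h
  simp only [Finset.mem_insert, Finset.mem_singleton] at hq
  rcases hq with rfl | rfl | rfl
  · exact ⟨a, b, rfl, hF⟩
  · refine ⟨b, p, ?_, FS_cyc hF⟩
    ext i; simp; tauto
  · refine ⟨p, a, ?_, FS_cyc (FS_cyc hF)⟩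
    ext i; simp; tauto

/-- the successor -/
noncomputable def nx (x : Fin 8 → E3) (p a : Fin 8) : Fin 8 :=
  open Classical in if h : ∃ b, FS x p a b then h.choose else a

theorem nx_spec {p a : Fin 8} (h : a ∈ Nb x p) : FS x p a (nx x p a) := by
  have h' := mem_Nb.1 h
  unfold nx
  rw [dif_pos h']
  exact h'.choose_spec

theorem nx_eq {p a b : Fin 8} (h : FS x p a b) : nx x p a = b :=
  FS_unique (nx_spec (mem_Nb.2 ⟨b, h⟩)) h

theorem nx_mem (hx : Gen x) {p a : Fin 8} (h : a ∈ Nb x p) : nx x p a ∈ Nb x p := by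
  have h1 := nx_spec h
  obtain ⟨c, hc⟩ := FS_exists hx (FS_cyc (FS_cyc h1))
  exact mem_Nb.2 ⟨c, FS_cyc (FS_cyc hc)⟩

theorem nx_inj {p a b : Fin 8} (ha : a ∈ Nb x p) (hb : b ∈ Nb x p)
    (h : nx x p a = nx x p b) : a = b := by
  have h1 := nx_spec ha
  have h2 := nx_spec hb
  rw [← h] at h2
  exact FS_unique' h1 h2

theorem facet_mk {p a b : Fin 8} (h : FS x p a b) : ({p, a, b} : Finset (Fin 8)) ∈ Fc x :=
  mem_Fc.2 ⟨p, a, b, rfl, h⟩

/-- facets at `p` correspond to neighbours of `p` -/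
theorem star_bij {M : Type*} [AddCommMonoid M] (p : Fin 8) (g : Finset (Fin 8) → M) :
    ∑ t ∈ (Fc x).filter (fun t => p ∈ t), g t = ∑ a ∈ Nb x p, g {p, a, nx x p a} := by
  classical
  symm
  apply Finset.sum_bij (fun a _ => ({p, a, nx x p a} : Finset (Fin 8)))
  · intro a ha
    rw [Finset.mem_filter]
    exact ⟨facet_mk (nx_spec ha), by simp⟩
  · intro a ha b hb hab
    by_contra hne
    have h1 := nx_spec ha
    have h2 := nx_spec hb
    have m1 : b ∈ ({p, a, nx x p a} : Finset (Fin 8)) := by rw [hab]; simp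
    have m2 : a ∈ ({p, b, nx x p b} : Finset (Fin 8)) := by rw [← hab]; simp
    simp only [Finset.mem_insert, Finset.mem_singleton] at m1 m2
    have m1' : b = nx x p a := by
      rcases m1 with h | h | h
      · exact absurd h h2.1.symm
      · exact absurd h.symm hne
      · exact h
    have m2' : a = nx x p b := by
      rcases m2 with h | h | h
      · exact absurd h h1.1.symm
      · exact absurd h hne
      · exact h
    rw [← m1'] at h1
    rw [← m2'] at h2
    exact FS_asymm h1 h2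
  · intro t ht
    rw [Finset.mem_filter] at ht
    obtain ⟨a, b, rfl, hF⟩ := facet_at ht.1 ht.2
    refine ⟨a, mem_Nb.2 ⟨b, hF⟩, ?_⟩
    rw [nx_eq hF]
  · intro a ha
    rfl

theorem star_card (p : Fin 8) : ((Fc x).filter (fun t => p ∈ t)).card = (Nb x p).card := by
  have := star_bij (x := x) p (fun _ => (1 : ℕ))
  simpa using this

theorem double_count : 3 * (Fc x).card = ∑ p, (Nb x p).card := by
  classical
  have h1 : ∑ t ∈ Fc x, t.card = 3 * (Fc x).card := by
    rw [Finset.sum_congr rfl (fun t ht => card_facet ht)]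
    simp [mul_comm]
  rw [← h1]
  have h2 : ∀ t : Finset (Fin 8), t.card = ∑ p : Fin 8, if p ∈ t then 1 else 0 := by
    intro t; simp
  rw [Finset.sum_congr rfl (fun t _ => h2 t), Finset.sum_comm]
  apply Finset.sum_congr rfl
  intro p _
  rw [← star_card, Finset.card_filter]

/-- the number of facets containing two given vertices is 0 or 2 -/
theorem edge_card (hx : Gen x) {p q : Fin 8} (hpq : p ≠ q) :
    ((Fc x).filter (fun t => p ∈ t ∧ q ∈ t)).card = 0 ∨
    ((Fc x).filter (fun t => p ∈ t ∧ q ∈ t)).card = 2 := by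
  classical
  rcases Finset.eq_empty_or_nonempty ((Fc x).filter (fun t => p ∈ t ∧ q ∈ t)) with h | ⟨t, ht⟩
  · left; rw [h]; rfl
  · right
    rw [Finset.mem_filter] at ht
    obtain ⟨a, b, rfl, hF⟩ := facet_at ht.1 ht.2.1
    have hqm := ht.2.2
    simp only [Finset.mem_insert, Finset.mem_singleton] at hqm
    have key : ∃ b c, FS x p q b ∧ FS x p c q := by
      rcases hqm with h | h | h
      · exact absurd h hpq.symm
      · subst h
        obtain ⟨c, hc⟩ := FS_exists hx hF
        exact ⟨b, c, hF, hc⟩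
      · subst h
        obtain ⟨c, hc⟩ := FS_exists hx (FS_cyc (FS_cyc hF))
        exact ⟨c, a, FS_cyc (FS_cyc hc), hF⟩
    obtain ⟨b, c, hb, hc⟩ := key
    have hbc : b ≠ c := by
      rintro rfl
      exact FS_asymm hb hc
    rw [Finset.card_eq_two]
    refine ⟨{p, q, b}, {p, c, q}, ?_, ?_⟩
    · intro heq
      have : b ∈ ({p, c, q} : Finset (Fin 8)) := by rw [← heq]; simp
      simp only [Finset.mem_insert, Finset.mem_singleton] at this
      rcases this with h | h | h
      · exact hb.2.1 h.symm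
      · exact hbc h
      · exact hb.2.2.1 h.symm
    · ext t
      rw [Finset.mem_filter, Finset.mem_insert, Finset.mem_singleton]
      constructor
      · rintro ⟨h1, h2, h3⟩
        obtain ⟨a', b', rfl, hF'⟩ := facet_at h1 h2
        simp only [Finset.mem_insert, Finset.mem_singleton] at h3
        rcases h3 with h | h | h
        · exact absurd h hpq.symm
        · subst h
          left
          rw [FS_unique hb hF']
        · subst h
          right
          rw [FS_unique' hc hF']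
      · rintro (rfl | rfl)
        · exact ⟨facet_mk hb, by simp, by simp⟩
        · exact ⟨facet_mk hc, by simp, by simp⟩

end Pool.Agent.L7h81.IP
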