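import Pool.Agent.L7h81.IP.Planar

/-!
# Counting the triangles in the planar view
-/

set_option autoImplicit false

namespace Pool.Agent.L7h81.IP

open Real MeasureTheory Set
open scoped ENNReal

section
variable {x : Fin 8 → E3} {v : Fin 8}

theorem exists_slope (hx : Gen x) (hv : x v = NP) : ∃ s : ℝ, ∀ i j, i ≠ v → j ≠ v → i ≠ j →
    (Z x i).re + s * (Z x i).im ≠ (Z x j).re + s * (Z x j).im := by
  classical
  have hfin : (⋃ q : Fin 8 × Fin 8, {s : ℝ | q.1 ≠ v ∧ q.2 ≠ v ∧ q.1 ≠ q.2 ∧
      (Z x q.1).re + s * (Z x q.1).im = (Z x q.2).re + s * (Z x q.2).im}).Finite := by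
    apply Set.finite_iUnion
    rintro ⟨i, j⟩
    apply Set.Subsingleton.finite
    rintro s ⟨h1, h2, h3, h4⟩ s' ⟨-, -, -, h4'⟩
    simp only at h1 h2 h3 h4 h4'
    by_cases him : (Z x i).im = (Z x j).im
    · exfalso
      apply h3
      apply Z_inj hx hv h1 h2
      apply Complex.ext _ him
      rw [him] at h4
      linarith
    · have : (s - s') * ((Z x i).im - (Z x j).im) = 0 := by linarith
      rcases mul_eq_zero.1 this with h | h
      · linarith
      · exact absurd (sub_eq_zero.1 h) him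
  obtain ⟨s, hs⟩ := hfin.infinite_compl.nonempty
  refine ⟨s, fun i j hi hj hij h => hs ?_⟩
  rw [mem_iUnion]
  exact ⟨(i, j), hi, hj, hij, h⟩

theorem exists_sort {ℓ : Fin 8 → ℝ} {v : Fin 8} (hℓ : ∀ i j, i ≠ v → j ≠ v → i ≠ j → ℓ i ≠ ℓ j)
    {t : Finset (Fin 8)} (ht : t.card = 3) (hv : v ∉ t) :
    ∃ p a b, t = {p, a, b} ∧ ℓ a < ℓ p ∧ ℓ p < ℓ b ∧ p ≠ v ∧ a ≠ v ∧ b ≠ v := by
  obtain ⟨i, j, k, hij, hik, hjk, rfl⟩ := Finset.card_eq_three.1 ht
  simp only [Finset.mem_insert, Finset.mem_singleton, not_or] at hv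
  obtain ⟨hi, hj, hk⟩ := hv
  have e1 := hℓ i j (Ne.symm hi) (Ne.symm hj) hij
  have e2 := hℓ i k (Ne.symm hi) (Ne.symm hk) hik
  have e3 := hℓ j k (Ne.symm hj) (Ne.symm hk) hjk
  have hset : ∀ p a b : Fin 8, (({p, a, b} : Finset (Fin 8)) = {p, b, a}) := by
    intro p a b; ext q; simp; tauto
  rcases lt_or_gt_of_ne e1 with h1 | h1 <;> rcases lt_or_gt_of_ne e2 with h2 | h2 <;>
    rcases lt_or_gt_of_ne e3 with h3 | h3
  · exact ⟨j, i, k, by ext q; simp; tauto, h1, h3, Ne.symm hj, Ne.symm hi, Ne.symm hk⟩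
  · exact ⟨k, i, j, by ext q; simp; tauto, h2, h3, Ne.symm hk, Ne.symm hi, Ne.symm hj⟩
  · exfalso; linarith
  · exact ⟨i, k, j, by ext q; simp; tauto, h2, h1, Ne.symm hi, Ne.symm hk, Ne.symm hj⟩
  · exact ⟨i, j, k, by ext q; simp, h1, h2, Ne.symm hi, Ne.symm hj, Ne.symm hk⟩
  · exfalso; linarith
  · exact ⟨k, j, i, by ext q; simp; tauto, h3, h2, Ne.symm hk, Ne.symm hj, Ne.symm hi⟩
  · exact ⟨j, k, i, by ext q; simp; tauto, h3, h1, Ne.symm hj, Ne.symm hk, Ne.symm hi⟩

/-- the vertical direction for slope `s`, with sign -/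
noncomputable def ev (s : ℝ) (σ : Bool) : ℂ := if σ then ⟨-s, 1⟩ else ⟨s, -1⟩

/-- `p` is the middle vertex of `t`, and the triangle lies in direction `σ` -/
def Mid (x : Fin 8 → E3) (s : ℝ) (t : Finset (Fin 8)) (p : Fin 8) (σ : Bool) : Prop :=
  ∃ a b : Fin 8, ∃ α β : ℝ, t = {p, a, b} ∧ 0 < α ∧ 0 < β ∧
    (Z x a).re + s * (Z x a).im < (Z x p).re + s * (Z x p).im ∧
    (Z x p).re + s * (Z x p).im < (Z x b).re + s * (Z x b).im ∧
    α • (Z x a - Z x p) + β • (Z x b - Z x p) = ev s σ

theorem exists_mid (hx : Gen x) (hv : x v = NP) {s : ℝ}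
    (hs : ∀ i j, i ≠ v → j ≠ v → i ≠ j →
      (Z x i).re + s * (Z x i).im ≠ (Z x j).re + s * (Z x j).im)
    {t : Finset (Fin 8)} (ht : t ∈ Fc x) (hvt : v ∉ t) : ∃ p σ, Mid x s t p σ := by
  obtain ⟨p, a, b, e, h1, h2, hp, ha, hb⟩ := exists_sort
    (ℓ := fun i => (Z x i).re + s * (Z x i).im) hs (card_facet ht) hvt
  have hpa : p ≠ a := by rintro rfl; exact lt_irrefl _ h1
  have hpb : p ≠ b := by rintro rfl; exact lt_irrefl _ h2
  have hab : a ≠ b := by rintro rfl; linarith
  have hom : om (Z x a - Z x p) (Z x b - Z x p) ≠ 0 := by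
    obtain ⟨c, hc, he⟩ := chi_om hx hv hp ha hb
    intro h0
    rw [h0, mul_zero] at he
    exact hx.gen p a b v hpa hpb hp hab ha hb he
  set wa := Z x a - Z x p with hwa
  set wb := Z x b - Z x p with hwb
  set α := wb.re + s * wb.im with hα
  set β := -(wa.re + s * wa.im) with hβ
  have hα0 : 0 < α := by
    rw [hα, hwb, Complex.sub_re, Complex.sub_im]; linarith
  have hβ0 : 0 < β := by
    rw [hβ, hwa, Complex.sub_re, Complex.sub_im]; linarith
  set τ := α * wa.im + β * wb.im with hτ
  have hτ0 : τ ≠ 0 := by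
    intro h0
    have h3 : om wa wb * β = (wa.re + s * wa.im) * τ := by
      rw [hτ, hβ, hα]; unfold om; ring
    rw [h0, mul_zero] at h3
    rcases mul_eq_zero.1 h3 with h | h
    · exact hom h
    · exact hβ0.ne' h
  have hre : α * wa.re + β * wb.re = -s * τ := by
    rw [hτ, hβ, hα]; ring
  rcases lt_or_gt_of_ne hτ0 with h | h
  · refine ⟨p, false, a, b, α / (-τ), β / (-τ), e, div_pos hα0 (by linarith),
      div_pos hβ0 (by linarith), h1, h2, ?_⟩
    rw [← hwa, ← hwb]
    apply Complex.ext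
    · simp only [ev, Complex.add_re, Complex.smul_re, smul_eq_mul, Bool.false_eq_true, if_false]
      have : α / -τ * wa.re + β / -τ * wb.re = (α * wa.re + β * wb.re) / (-τ) := by ring
      rw [this, hre]
      field_simp
    · simp only [ev, Complex.add_im, Complex.smul_im, smul_eq_mul, Bool.false_eq_true, if_false]
      have : α / -τ * wa.im + β / -τ * wb.im = (α * wa.im + β * wb.im) / (-τ) := by ring
      rw [this, ← hτ]
      field_simp
  · refine ⟨p, true, a, b, α / τ, β / τ, e, div_pos hα0 h, div_pos hβ0 h, h1, h2, ?_⟩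
    rw [← hwa, ← hwb]
    apply Complex.ext
    · simp only [ev, Complex.add_re, Complex.smul_re, smul_eq_mul, if_true]
      have : α / τ * wa.re + β / τ * wb.re = (α * wa.re + β * wb.re) / τ := by ring
      rw [this, hre]
      field_simp
    · simp only [ev, Complex.add_im, Complex.smul_im, smul_eq_mul, if_true]
      have : α / τ * wa.im + β / τ * wb.im = (α * wa.im + β * wb.im) / τ := by ring
      rw [this, ← hτ]
      field_simp

theorem mid_inj (hx : Gen x) (hv : x v = NP) {s : ℝ} {t t' : Finset (Fin 8)} (ht : t ∈ Fc x)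
    (ht' : t' ∈ Fc x) (hvt : v ∉ t) (hvt' : v ∉ t') {p : Fin 8} {σ : Bool}
    (h : Mid x s t p σ) (h' : Mid x s t' p σ) : t = t' := by
  obtain ⟨a, b, α, β, e, hα, hβ, -, -, h1⟩ := h
  obtain ⟨c, d, γ, δ, e', hγ, hδ, -, -, h2⟩ := h'
  exact cone_unique hx hv ht ht' hvt hvt' e e' hα hβ hγ hδ (h1.trans h2.symm)

theorem mid_nb (hx : Gen x) (hv : x v = NP) {s : ℝ}
    (hs : ∀ i j, i ≠ v → j ≠ v → i ≠ j →
      (Z x i).re + s * (Z x i).im ≠ (Z x j).re + s * (Z x j).im) {p : Fin 8}
    (hp : p ∈ Nb x v) : ∃ σ : Bool, ∀ t, v ∉ t → ¬ Mid x s t p σ := by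
  obtain ⟨b, hF⟩ := mem_Nb.1 hp
  have hle : ∀ j, j ≠ v → om (Z x b - Z x p) (Z x j - Z x p) ≤ 0 := by
    intro j hj
    by_cases h1 : j = p
    · rw [h1]; simp [om]
    · by_cases h2 : j = b
      · rw [h2]; unfold om; linarith
      · exact (om_neg hx hv hF hj h1 h2).le
  have hn := hs b p hF.2.1.symm hF.1.symm hF.2.2.1.symm
  have hval : om (Z x b - Z x p) ⟨-s, 1⟩ =
      ((Z x b).re + s * (Z x b).im) - ((Z x p).re + s * (Z x p).im) := by
    unfold om
    simp only [Complex.sub_re, Complex.sub_im]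
    ring
  have hval' : om (Z x b - Z x p) ⟨s, -1⟩ =
      -(((Z x b).re + s * (Z x b).im) - ((Z x p).re + s * (Z x p).im)) := by
    unfold om
    simp only [Complex.sub_re, Complex.sub_im]
    ring
  have key : ∀ t, v ∉ t → ∀ σ, Mid x s t p σ → om (Z x b - Z x p) (ev s σ) ≤ 0 := by
    rintro t hvt σ ⟨a, c, α, β, e, hα, hβ, -, -, h1⟩
    have ha : a ≠ v := by
      rintro rfl
      exact hvt (by rw [e]; simp)
    have hc : c ≠ v := by
      rintro rfl
      exact hvt (by rw [e]; simp)
    rw [← h1]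
    have e1 : om (Z x b - Z x p) (α • (Z x a - Z x p) + β • (Z x c - Z x p)) =
        α * om (Z x b - Z x p) (Z x a - Z x p) + β * om (Z x b - Z x p) (Z x c - Z x p) := by
      unfold om
      simp only [Complex.add_re, Complex.add_im, Complex.smul_re, Complex.smul_im, smul_eq_mul]
      ring
    rw [e1]
    have := hle a ha
    have := hle c hc
    nlinarith
  rcases lt_or_gt_of_ne hn with h | h
  · refine ⟨false, fun t hvt hm => ?_⟩
    have := key t hvt false hm
    simp only [ev, Bool.false_eq_true, if_false] at this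
    rw [hval'] at this
    linarith
  · refine ⟨true, fun t hvt hm => ?_⟩
    have := key t hvt true hm
    simp only [ev, if_true] at this
    rw [hval] at this
    linarith

theorem card_T (hx : Gen x) (hv : x v = NP) :
    ((Fc x).filter (fun t => v ∉ t)).card + (Nb x v).card ≤ 12 := by
  classical
  obtain ⟨s, hs⟩ := exists_slope hx hv
  set ℓ : Fin 8 → ℝ := fun i => (Z x i).re + s * (Z x i).im with hℓ
  set U : Finset (Fin 8) := Finset.univ.erase v with hU
  have hUne : U.Nonempty := by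
    obtain ⟨l, l1, -, -⟩ := exists_other v v v
    exact ⟨l, by simp [hU, l1]⟩
  obtain ⟨m, hm, hmin⟩ := Finset.exists_min_image U ℓ hUne
  obtain ⟨M, hM, hmax⟩ := Finset.exists_max_image U ℓ hUne
  have hmv : m ≠ v := by simpa [hU] using hm
  have hMv : M ≠ v := by simpa [hU] using hM
  have hmM : m ≠ M := by
    rintro rfl
    obtain ⟨l, l1, l2, -⟩ := exists_other v m v
    have hl : l ∈ U := by simp [hU, l1]
    have := hmin l hl
    have := hmax l hl
    exact hs l m l1 hmv l2 (by simp only [hℓ] at *; linarith)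
  choose! pp σσ hmid using fun (t : Finset (Fin 8)) (ht : t ∈ (Fc x).filter (fun t => v ∉ t)) =>
    exists_mid hx hv hs (Finset.mem_filter.1 ht).1 (Finset.mem_filter.1 ht).2
  choose! τ hτ using fun (p : Fin 8) (hp : p ∈ Nb x v) => mid_nb hx hv hs hp
  set W : Finset (Fin 8) := Finset.univ \ {v, m, M} with hW
  have hWc : W.card = 5 := by
    rw [hW, Finset.card_sdiff_of_subset (Finset.subset_univ _), Finset.card_univ, Fintype.card_fin,
      Finset.card_eq_three.2 ⟨v, m, M, hmv.symm, hMv.symm, hmM, rfl⟩]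
  set A : Finset (Fin 8 × Bool) := W ×ˢ Finset.univ with hA
  set B : Finset (Fin 8 × Bool) := (Nb x v ∩ W).image (fun p => (p, τ p)) with hB
  have hAc : A.card = 10 := by
    rw [hA, Finset.card_product, hWc]; rfl
  have hBA : B ⊆ A := by
    intro q hq
    rw [hB, Finset.mem_image] at hq
    obtain ⟨p, hp, rfl⟩ := hq
    rw [hA, Finset.mem_product]
    exact ⟨(Finset.mem_inter.1 hp).2, Finset.mem_univ _⟩
  have hBc : B.card = (Nb x v ∩ W).card := by
    rw [hB]
    apply Finset.card_image_of_injective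
    intro a b hab
    exact (Prod.mk.inj hab).1
  have hN : (Nb x v).card ≤ (Nb x v ∩ W).card + 2 := by
    have hsub : Nb x v ⊆ (Nb x v ∩ W) ∪ {m, M} := by
      intro i hi
      have hiv : i ≠ v := by
        rintro rfl
        obtain ⟨b, hF⟩ := mem_Nb.1 hi
        exact hF.1 rfl
      rw [Finset.mem_union, Finset.mem_inter, hW]
      simp only [Finset.mem_sdiff, Finset.mem_univ, true_and, Finset.mem_insert,
        Finset.mem_singleton, hi, hiv, false_or]
      tauto
    calc (Nb x v).card ≤ ((Nb x v ∩ W) ∪ {m, M}).card := Finset.card_le_card hsub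
      _ ≤ (Nb x v ∩ W).card + ({m, M} : Finset (Fin 8)).card := Finset.card_union_le _ _
      _ ≤ _ := by
        gcongr
        exact Finset.card_le_two
  have hmain : ((Fc x).filter (fun t => v ∉ t)).card ≤ (A \ B).card := by
    apply Finset.card_le_card_of_injOn (fun t => (pp t, σσ t))
    · intro t ht
      have ht' : t ∈ (Fc x).filter (fun t => v ∉ t) := ht
      have hmt := hmid t ht'
      have hvt := (Finset.mem_filter.1 ht').2
      simp only [Finset.coe_sdiff, Set.mem_sdiff, Finset.mem_coe]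
      have hmt' := hmt
      obtain ⟨a, b, α, β, e, hα, hβ, h1, h2, h3⟩ := hmt
      have ha : a ≠ v := by
        intro h
        exact hvt (by rw [e, h]; simp)
      have hb : b ≠ v := by
        intro h
        exact hvt (by rw [e, h]; simp)
      have hp : pp t ≠ v := by
        intro h
        exact hvt (by rw [e, h]; simp)
      refine ⟨?_, ?_⟩
      · rw [hA, Finset.mem_product]
        refine ⟨?_, Finset.mem_univ _⟩
        rw [hW]
        simp only [Finset.mem_sdiff, Finset.mem_univ, true_and, Finset.mem_insert,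
          Finset.mem_singleton, not_or]
        refine ⟨hp, ?_, ?_⟩
        · intro h
          have := hmin a (by simp [hU, ha])
          simp only [hℓ] at this
          rw [h] at h1
          linarith
        · intro h
          have := hmax b (by simp [hU, hb])
          simp only [hℓ] at this
          rw [h] at h2
          linarith
      · rw [hB, Finset.mem_image]
        rintro ⟨p, hp, hpe⟩
        obtain ⟨e1, e2⟩ := Prod.mk.inj hpe
        subst e1
        have := hτ (pp t) (Finset.mem_inter.1 hp).1 t hvt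
        rw [e2] at this
        exact this hmt'
    · intro t ht t' ht' heq
      have ht1 : t ∈ (Fc x).filter (fun t => v ∉ t) := ht
      have ht1' : t' ∈ (Fc x).filter (fun t => v ∉ t) := ht'
      obtain ⟨e1, e2⟩ := Prod.mk.inj heq
      have h1 := hmid t ht1
      have h2 := hmid t' ht1'
      rw [← e1, ← e2] at h2
      exact mid_inj hx hv (Finset.mem_filter.1 ht1).1 (Finset.mem_filter.1 ht1').1
        (Finset.mem_filter.1 ht1).2 (Finset.mem_filter.1 ht1').2 h1 h2
  rw [Finset.card_sdiff_of_subset hBA, hAc, hBc] at hmain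
  have h5 : (Nb x v ∩ W).card ≤ 5 := by
    rw [← hWc]; exact Finset.card_le_card Finset.inter_subset_right
  omega

end

end Pool.Agent.L7h81.IP
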