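import Pool.Agent.L7h81.IP.Comb

/-!
# Covering the polytope by the tetrahedra from a vertex
-/

set_option autoImplicit false

namespace Pool.Agent.L7h81.IP

open Real MeasureTheory Set
open scoped ENNReal

theorem exists_coeff (f : E3 →L[ℝ] ℝ) : ∃ a0 a1 a2 : ℝ, ∀ y, f y = a0 * y 0 + a1 * y 1 + a2 * y 2 := by
  refine ⟨f (mk 1 0), f (mk Complex.I 0), f (mk 0 1), fun y => ?_⟩
  have e : y = y 0 • mk 1 0 + y 1 • mk Complex.I 0 + y 2 • mk 0 1 := by
    rw [mk_smul, mk_smul, mk_smul, mk_add, mk_add]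
    conv_lhs => rw [← mk_eta y]
    congr 1
    · apply Complex.ext <;> simp
    · simp
  conv_lhs => rw [e]
  rw [map_add, map_add, map_smul, map_smul, map_smul, smul_eq_mul, smul_eq_mul, smul_eq_mul]
  ring

/-- a nonzero functional vanishing on three vectors makes the determinant vanish -/
theorem dt_zero {a0 a1 a2 : ℝ} (hne : a0 ≠ 0 ∨ a1 ≠ 0 ∨ a2 ≠ 0) {u w r : E3}
    (hu : a0 * u 0 + a1 * u 1 + a2 * u 2 = 0) (hw : a0 * w 0 + a1 * w 1 + a2 * w 2 = 0)
    (hr : a0 * r 0 + a1 * r 1 + a2 * r 2 = 0) : dt u w r = 0 := by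
  have e0 : dt u w r * a0 = 0 := by
    unfold dt
    linear_combination (w 1 * r 2 - w 2 * r 1) * hu + (r 1 * u 2 - r 2 * u 1) * hw +
      (u 1 * w 2 - u 2 * w 1) * hr
  have e1 : dt u w r * a1 = 0 := by
    unfold dt
    linear_combination (w 2 * r 0 - w 0 * r 2) * hu + (r 2 * u 0 - r 0 * u 2) * hw +
      (u 2 * w 0 - u 0 * w 2) * hr
  have e2 : dt u w r * a2 = 0 := by
    unfold dt
    linear_combination (w 0 * r 1 - w 1 * r 0) * hu + (r 0 * u 1 - r 1 * u 0) * hw +
      (u 0 * w 1 - u 1 * w 0) * hr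
  rcases hne with h | h | h
  · exact (mul_eq_zero.1 e0).resolve_right h
  · exact (mul_eq_zero.1 e1).resolve_right h
  · exact (mul_eq_zero.1 e2).resolve_right h

theorem dt_sign {a0 a1 a2 : ℝ} {u w : E3}
    (hu : a0 * u 0 + a1 * u 1 + a2 * u 2 = 0) (hw : a0 * w 0 + a1 * w 1 + a2 * w 2 = 0) (r : E3) :
    (a0 * r 0 + a1 * r 1 + a2 * r 2) * ((u 1 * w 2 - u 2 * w 1) ^ 2 +
      (u 2 * w 0 - u 0 * w 2) ^ 2 + (u 0 * w 1 - u 1 * w 0) ^ 2) =
    (a0 * (u 1 * w 2 - u 2 * w 1) + a1 * (u 2 * w 0 - u 0 * w 2) +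
      a2 * (u 0 * w 1 - u 1 * w 0)) * dt u w r := by
  unfold dt
  set n0 := u 1 * w 2 - u 2 * w 1 with hn0
  set n1 := u 2 * w 0 - u 0 * w 2 with hn1
  set n2 := u 0 * w 1 - u 1 * w 0 with hn2
  -- a × n = u (a·w) - w (a·u)
  have c0 : a1 * n2 - a2 * n1 = 0 := by
    rw [hn1, hn2]; linear_combination u 0 * hw - w 0 * hu
  have c1 : a2 * n0 - a0 * n2 = 0 := by
    rw [hn0, hn2]; linear_combination u 1 * hw - w 1 * hu
  have c2 : a0 * n1 - a1 * n0 = 0 := by
    rw [hn0, hn1]; linear_combination u 2 * hw - w 2 * hu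
  have e : u 0 * (w 1 * r 2 - w 2 * r 1) - u 1 * (w 0 * r 2 - w 2 * r 0) +
      u 2 * (w 0 * r 1 - w 1 * r 0) = n0 * r 0 + n1 * r 1 + n2 * r 2 := by
    rw [hn0, hn1, hn2]; ring
  rw [e]
  linear_combination (r 1 * n2 - r 2 * n1) * c0 + (r 2 * n0 - r 0 * n2) * c1 +
    (r 0 * n1 - r 1 * n0) * c2

theorem cross_pos {u w r : E3} (h : dt u w r ≠ 0) : 0 < (u 1 * w 2 - u 2 * w 1) ^ 2 +
      (u 2 * w 0 - u 0 * w 2) ^ 2 + (u 0 * w 1 - u 1 * w 0) ^ 2 := by
  have e : dt u w r = (u 1 * w 2 - u 2 * w 1) * r 0 + (u 2 * w 0 - u 0 * w 2) * r 1 +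
      (u 0 * w 1 - u 1 * w 0) * r 2 := by
    unfold dt; ring
  rw [e] at h
  generalize u 1 * w 2 - u 2 * w 1 = n0 at *
  generalize u 2 * w 0 - u 0 * w 2 = n1 at *
  generalize u 0 * w 1 - u 1 * w 0 = n2 at *
  by_contra hcon
  push Not at hcon
  apply h
  have z0 : n0 = 0 := by nlinarith [sq_nonneg n0, sq_nonneg n1, sq_nonneg n2]
  have z1 : n1 = 0 := by nlinarith [sq_nonneg n0, sq_nonneg n1, sq_nonneg n2]
  have z2 : n2 = 0 := by nlinarith [sq_nonneg n0, sq_nonneg n1, sq_nonneg n2]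
  rw [z0, z1, z2]
  ring

theorem sign_aux {a0 a1 a2 : ℝ} {u w : E3}
    (hu : a0 * u 0 + a1 * u 1 + a2 * u 2 = 0) (hw : a0 * w 0 + a1 * w 1 + a2 * w 2 = 0) {r : E3}
    (hr : a0 * r 0 + a1 * r 1 + a2 * r 2 < 0) (h : dt u w r ≠ 0) :
    (a0 * (u 1 * w 2 - u 2 * w 1) + a1 * (u 2 * w 0 - u 0 * w 2) +
      a2 * (u 0 * w 1 - u 1 * w 0)) * dt u w r < 0 := by
  rw [← dt_sign hu hw r]
  exact mul_neg_of_neg_of_pos hr (cross_pos h)

theorem neg_aux {A c : ℝ} (h : A * c < 0) : (A < 0 → 0 < c) ∧ (0 < A → c < 0) := by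
  constructor
  · intro hA
    by_contra hcon
    push Not at hcon
    nlinarith
  · intro hA
    by_contra hcon
    push Not at hcon
    nlinarith

/-- the last point of a ray in a compact convex set has a supporting functional -/
theorem ray_support {K : Set E3} (hK : IsCompact K) (hconv : Convex ℝ K) {o y : E3}
    (_ho : o ∈ K) (hy : y ∈ interior K) (hne : y ≠ o) :
    ∃ (z : E3) (f : E3 →L[ℝ] ℝ) (s : ℝ), z ∈ K ∧ 0 < s ∧ s < 1 ∧
      y = (1 - s) • o + s • z ∧ f y < f z ∧ ∀ w ∈ K, f w ≤ f z := by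
  -- bounded parameter
  obtain ⟨R, hR⟩ := hK.isBounded.subset_closedBall 0
  have hd : 0 < ‖y - o‖ := norm_pos_iff.2 (sub_ne_zero.2 hne)
  set g : ℝ → E3 := fun s => o + s • (y - o) with hg
  have hgc : Continuous g := by fun_prop
  have hbd : ∀ s : ℝ, 0 ≤ s → g s ∈ K → s ≤ (R + ‖o‖) / ‖y - o‖ := by
    intro s hs h
    have h1 := hR h
    rw [mem_closedBall_zero_iff] at h1
    rw [le_div_iff₀ hd]
    have h2 : ‖s • (y - o)‖ ≤ ‖g s‖ + ‖o‖ := by
      have : s • (y - o) = g s - o := by simp [hg]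
      rw [this]
      exact norm_sub_le _ _
    rw [norm_smul, Real.norm_of_nonneg hs] at h2
    linarith
  set M := max 1 ((R + ‖o‖) / ‖y - o‖) with hM
  set S : Set ℝ := Icc 1 M ∩ g ⁻¹' K with hS
  have hSc : IsCompact S := isCompact_Icc.inter_right (hK.isClosed.preimage hgc)
  have hg1 : g 1 = y := by simp [hg]
  have h1S : (1 : ℝ) ∈ S := by
    refine ⟨⟨le_refl _, le_max_left _ _⟩, ?_⟩
    rw [mem_preimage, hg1]
    exact interior_subset hy
  obtain ⟨s0, hs0, hmax⟩ := hSc.exists_isMaxOn ⟨1, h1S⟩ continuousOn_id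
  have hs0' : (1:ℝ) ≤ s0 := hs0.1.1
  have hzK : g s0 ∈ K := hs0.2
  have hzi : g s0 ∉ interior K := by
    intro hz
    have hnh : g ⁻¹' (interior K) ∈ nhds s0 :=
      hgc.continuousAt.preimage_mem_nhds (isOpen_interior.mem_nhds hz)
    obtain ⟨ε, hε, hball⟩ := Metric.mem_nhds_iff.1 hnh
    have hmem : s0 + ε / 2 ∈ Metric.ball s0 ε := by
      rw [Metric.mem_ball, Real.dist_eq]
      rw [show s0 + ε / 2 - s0 = ε / 2 by ring, abs_of_pos (by positivity)]
      linarith
    have h2 : g (s0 + ε / 2) ∈ K := interior_subset (hball hmem)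
    have h3 : s0 + ε / 2 ∈ S := by
      refine ⟨⟨by linarith, ?_⟩, h2⟩
      exact (hbd _ (by linarith) h2).trans (le_max_right _ _)
    have := hmax h3
    simp only [id, mem_ofPred_eq] at this
    linarith
  obtain ⟨f, hf⟩ := geometric_hahn_banach_open_point hconv.interior isOpen_interior hzi
  have hfy : f y < f (g s0) := hf y hy
  have hs1 : 1 < s0 := by
    apply lt_of_le_of_ne hs0'
    intro h
    rw [← h, hg1] at hfy
    exact lt_irrefl _ hfy
  have hspos : 0 < s0 := by linarith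
  refine ⟨g s0, f, s0⁻¹, hzK, by positivity, inv_lt_one_of_one_lt₀ hs1, ?_, hfy, ?_⟩
  · simp only [hg, smul_add, smul_smul, inv_mul_cancel₀ hspos.ne', one_smul, sub_smul]
    abel
  · intro w hw
    by_contra hcon
    push Not at hcon
    set d := f w - f (g s0) with hdd
    set e := f (g s0) - f y with hee
    have hd0 : 0 < d := by linarith
    have he0 : 0 < e := by linarith
    have hseg : (d / (d + e)) • y + (e / (d + e)) • w ∈ interior K := by
      apply hconv.openSegment_interior_self_subset_interior hy hw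
      refine ⟨d / (d + e), e / (d + e), by positivity, by positivity, ?_, rfl⟩
      field_simp
    have := hf _ hseg
    rw [map_add, map_smul, map_smul, smul_eq_mul, smul_eq_mul] at this
    have e2 : d / (d + e) * f y + e / (d + e) * f w = f (g s0) := by
      have h1 : f y = f (g s0) - e := by rw [hee]; ring
      have h2 : f w = f (g s0) + d := by rw [hdd]; ring
      rw [h1, h2]
      field_simp
      ring
    linarith

/-- hyperbolic volume as a measure -/
noncomputable def muh : Measure E3 :=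
  volume.withDensity (fun x => ENNReal.ofReal (1 / (1 - ‖x‖ ^ 2) ^ 2))

theorem muh_apply {A : Set E3} (hA : MeasurableSet A) : muh A = hvol A := by
  unfold muh hvol
  rw [withDensity_apply _ hA]

theorem muh_null {A : Set E3} (hA : volume A = 0) : muh A = 0 :=
  (withDensity_absolutelyContinuous _ _) hA

theorem dt_null {u w o : E3} (h : ∃ r, dt u w r ≠ 0) : volume {y : E3 | dt u w (y - o) = 0} = 0 := by
  obtain ⟨r, hr⟩ := h
  set f : E3 →ₗ[ℝ] ℝ :=
    { toFun := fun y => dt u w y
      map_add' := by intro a b; unfold dt; simp only [PiLp.add_apply]; ring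
      map_smul' := by
        intro c a; unfold dt; simp only [PiLp.smul_apply, smul_eq_mul, RingHom.id_apply]; ring }
    with hf
  have hne : f ≠ 0 := by
    intro h0
    apply hr
    have := congrArg (fun g : E3 →ₗ[ℝ] ℝ => g r) h0
    exact this
  have := null_hyper (volume : Measure E3) f hne (f o)
  have e : {y : E3 | dt u w (y - o) = 0} = {y | f y = f o} := by
    ext y
    have h1 : dt u w (y - o) = f y - f o := by
      rw [← map_sub]; rfl
    constructor
    · intro hy
      have hy' : dt u w (y - o) = 0 := hy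
      rw [h1] at hy'
      exact sub_eq_zero.1 hy'
    · intro hy
      have hy' : f y = f o := hy
      show dt u w (y - o) = 0
      rw [h1, hy', sub_self]
  rw [e]
  exact this

section
variable {x : Fin 8 → E3}

theorem pt_cover (hx : Gen x) (v : Fin 8) {y : E3} (hy : y ∈ interior (convexHull ℝ (range x)))
    (hne : y ≠ x v)
    (hnull : ∀ i j : Fin 8, i ≠ j → i ≠ v → j ≠ v → dt (x i - x v) (x j - x v) (y - x v) ≠ 0) :
    ∃ t ∈ (Fc x).filter (fun t => v ∉ t), y ∈ convexHull ℝ (insert (x v) (x '' t)) := by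
  classical
  have hKc : IsCompact (convexHull ℝ (range x)) := (Set.finite_range x).isCompact_convexHull ℝ
  obtain ⟨z, f, s, hz, hs0, hs1, hyz, hfy, hfmax⟩ := ray_support hKc (convex_convexHull ℝ _)
    (subset_convexHull ℝ _ ⟨v, rfl⟩) hy hne
  obtain ⟨a0, a1, a2, ha⟩ := exists_coeff f
  have hne0 : a0 ≠ 0 ∨ a1 ≠ 0 ∨ a2 ≠ 0 := by
    by_contra hcon
    push Not at hcon
    obtain ⟨h0, h1, h2⟩ := hcon
    rw [ha y, ha z, h0, h1, h2] at hfy
    simp at hfy
  have hfx : ∀ i, f (x i) ≤ f z := fun i => hfmax _ (subset_convexHull ℝ _ ⟨i, rfl⟩)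
  obtain ⟨w, w0, w1, w2⟩ := (mem_hull_range x z).1 hz
  set C : Finset (Fin 8) := Finset.univ.filter (fun i => f (x i) = f z) with hC
  have hCm : ∀ i, i ∈ C ↔ f (x i) = f z := by intro i; simp [hC]
  -- weights vanish off C
  have hwC : ∀ i, i ∉ C → w i = 0 := by
    have h1 : ∑ i, w i * (f z - f (x i)) = 0 := by
      have h2 : f z = ∑ i, w i * f (x i) := by
        conv_lhs => rw [← w2]
        rw [map_sum]
        simp
      simp only [mul_sub, Finset.sum_sub_distrib, ← Finset.sum_mul]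
      rw [w1, ← h2]
      ring
    have h3 := (Finset.sum_eq_zero_iff_of_nonneg (fun i _ =>
      mul_nonneg (w0 i) (sub_nonneg.2 (hfx i)))).1 h1
    intro i hi
    have := h3 i (Finset.mem_univ i)
    rcases mul_eq_zero.1 this with h | h
    · exact h
    · exact absurd ((hCm i).2 (by linarith)) hi
  have hvC : v ∉ C := by
    intro h
    have h1 := (hCm v).1 h
    have h2 : f y = f z := by
      rw [hyz, map_add, map_smul, map_smul, h1, smul_eq_mul, smul_eq_mul]
      ring
    linarith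
  have hdiff : ∀ i j, i ∈ C → j ∈ C → a0 * (x j - x i) 0 + a1 * (x j - x i) 1 +
      a2 * (x j - x i) 2 = 0 := by
    intro i j hi hj
    rw [← ha, map_sub, (hCm i).1 hi, (hCm j).1 hj, sub_self]
  have hsum : ∀ (D : Finset (Fin 8)), C ⊆ D → ∑ i ∈ D, w i = 1 ∧ ∑ i ∈ D, w i • x i = z := by
    intro D hD
    constructor
    · rw [← w1]
      apply Finset.sum_subset (Finset.subset_univ _)
      intro i _ hi
      exact hwC i (fun h => hi (hD h))
    · rw [← w2]
      apply Finset.sum_subset (Finset.subset_univ _)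
      intro i _ hi
      rw [hwC i (fun h => hi (hD h)), zero_smul]
  rcases lt_trichotomy C.card 3 with hlt | heq | hgt
  · -- too few contact points
    exfalso
    have hsub : C ⊆ Finset.univ.erase v := by
      intro i hi
      rw [Finset.mem_erase]
      exact ⟨fun h => hvC (h ▸ hi), Finset.mem_univ _⟩
    obtain ⟨D, hCD, hDv, hDc⟩ := Finset.exists_subsuperset_card_eq hsub (n := 2) (by omega) (by
      rw [Finset.card_erase_of_mem (Finset.mem_univ _)]; simp)
    obtain ⟨i, j, hij, rfl⟩ := Finset.card_eq_two.1 hDc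
    have hiv : i ≠ v := by
      intro h; have := hDv (show i ∈ ({i, j} : Finset (Fin 8)) by simp); simp [h] at this
    have hjv : j ≠ v := by
      intro h; have := hDv (show j ∈ ({i, j} : Finset (Fin 8)) by simp); simp [h] at this
    apply hnull i j hij hiv hjv
    obtain ⟨s1, s2⟩ := hsum _ hCD
    rw [Finset.sum_pair hij] at s1 s2
    have e : y - x v = (s * w i) • (x i - x v) + (s * w j) • (x j - x v) := by
      rw [hyz, ← s2]
      have : w j = 1 - w i := by linarith
      rw [this]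
      module
    rw [e]
    unfold dt
    simp only [PiLp.add_apply, PiLp.smul_apply, smul_eq_mul]
    ring
  · -- a facet
    obtain ⟨i, j, k, hij, hik, hjk, hCe⟩ := Finset.card_eq_three.1 heq
    have hi : i ∈ C := by rw [hCe]; simp
    have hj : j ∈ C := by rw [hCe]; simp
    have hk : k ∈ C := by rw [hCe]; simp
    have hu := hdiff i j hi hj
    have hw := hdiff i k hi hk
    have key : ∀ l, l ∉ C → (a0 * (x l - x i) 0 + a1 * (x l - x i) 1 + a2 * (x l - x i) 2) < 0 := by
      intro l hl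
      rw [← ha, map_sub, (hCm i).1 hi]
      have h1 : f (x l) ≠ f z := fun h => hl ((hCm l).2 h)
      have h2 := hfx l
      have h3 : f (x l) < f z := lt_of_le_of_ne h2 h1
      linarith
    obtain ⟨A, hsign⟩ : ∃ A : ℝ, ∀ l, l ≠ i → l ≠ j → l ≠ k → A * chi x i j k l < 0 := by
      refine ⟨_, fun l l1 l2 l3 => sign_aux hu hw (key l ?_) ?_⟩
      · rw [hCe]; simp [l1, l2, l3]
      · exact hx.gen i j k l hij hik (Ne.symm l1) hjk (Ne.symm l2) (Ne.symm l3)
    have hCF : C ∈ Fc x := by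
      rw [mem_Fc]
      obtain ⟨l, l1, l2, l3⟩ := exists_other i j k
      have hA0 : A ≠ 0 := by
        intro h0
        have := hsign l l1 l2 l3
        rw [h0, zero_mul] at this
        exact lt_irrefl _ this
      rcases lt_or_gt_of_ne hA0 with h | h
      · refine ⟨i, j, k, hCe, hij, hik, hjk, fun l l1 l2 l3 => ?_⟩
        exact (neg_aux (hsign l l1 l2 l3)).1 h
      · refine ⟨i, k, j, ?_, hik, hij, hjk.symm, fun l l1 l2 l3 => ?_⟩
        · rw [hCe]; ext m; simp; tauto
        · have := hsign l l1 l3 l2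
          rw [chi_swap]
          have := (neg_aux this).2 h
          linarith
    refine ⟨C, Finset.mem_filter.2 ⟨hCF, hvC⟩, ?_⟩
    obtain ⟨s1, s2⟩ := hsum C (Finset.Subset.refl _)
    have hzC : z ∈ convexHull ℝ (insert (x v) (x '' C)) := by
      rw [← s2]
      exact (convex_convexHull ℝ _).sum_mem (fun i _ => w0 i) s1
        (fun i hi => subset_convexHull _ _ (mem_insert_of_mem _ ⟨i, hi, rfl⟩))
    have hvK : x v ∈ convexHull ℝ (insert (x v) (x '' C)) :=
      subset_convexHull _ _ (mem_insert _ _)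
    rw [hyz]
    exact (convex_convexHull ℝ _) hvK hzC (by linarith) hs0.le (by ring)
  · -- four coplanar contact points
    exfalso
    obtain ⟨D, hDC, hD4⟩ := Finset.exists_subset_card_eq (show 4 ≤ C.card by omega)
    obtain ⟨i, j, k, l, hij, hik, hil, hjk, hjl, hkl, hDe⟩ := Finset.card_eq_four.1 hD4
    have hi : i ∈ C := hDC (by rw [hDe]; simp)
    have hj : j ∈ C := hDC (by rw [hDe]; simp)
    have hk : k ∈ C := hDC (by rw [hDe]; simp)
    have hl : l ∈ C := hDC (by rw [hDe]; simp)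
    exact hx.gen i j k l hij hik hil hjk hjl hkl
      (dt_zero hne0 (hdiff i j hi hj) (hdiff i k hi hk) (hdiff i l hi hl))

theorem cover (hx : Gen x) (v : Fin 8) : hvol (convexHull ℝ (range x)) ≤
    ∑ t ∈ (Fc x).filter (fun t => v ∉ t), hvol (convexHull ℝ (insert (x v) (x '' t))) := by
  classical
  set K := convexHull ℝ (range x) with hK
  have hKc : IsCompact K := (Set.finite_range x).isCompact_convexHull ℝ
  set N : Set E3 := frontier K ∪ ⋃ q ∈ (Finset.univ : Finset (Fin 8 × Fin 8)).filter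
    (fun q => q.1 ≠ q.2 ∧ q.1 ≠ v ∧ q.2 ≠ v),
      {y | dt (x q.1 - x v) (x q.2 - x v) (y - x v) = 0} with hN
  have hN0 : volume N = 0 := by
    rw [hN, measure_union_null_iff]
    refine ⟨(convex_convexHull ℝ _).addHaar_frontier _, ?_⟩
    refine measure_iUnion_null fun q => measure_iUnion_null fun hq => ?_
    have hq' : q.1 ≠ q.2 ∧ q.1 ≠ v ∧ q.2 ≠ v := by simpa using hq
    apply dt_null
    obtain ⟨l, l1, l2, l3⟩ := exists_other q.1 q.2 v
    refine ⟨x l - x v, ?_⟩
    exact hx.gen v q.1 q.2 l hq'.2.1.symm hq'.2.2.symm (Ne.symm l3) hq'.1 (Ne.symm l1) (Ne.symm l2)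
  have hsub : K ⊆ N ∪ ⋃ t ∈ (Fc x).filter (fun t => v ∉ t),
      convexHull ℝ (insert (x v) (x '' t)) := by
    intro y hy
    by_cases hyN : y ∈ N
    · exact Or.inl hyN
    · right
      have hyi : y ∈ interior K := by
        by_contra hcon
        apply hyN
        left
        rw [hKc.isClosed.frontier_eq]
        exact ⟨hy, hcon⟩
      have hnull : ∀ i j : Fin 8, i ≠ j → i ≠ v → j ≠ v →
          dt (x i - x v) (x j - x v) (y - x v) ≠ 0 := by
        intro i j hij hi hj h0
        apply hyN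
        right
        rw [mem_iUnion₂]
        exact ⟨(i, j), by simp [hij, hi, hj], h0⟩
      have hne : y ≠ x v := by
        rintro rfl
        obtain ⟨i, i1, -, -⟩ := exists_other v v v
        obtain ⟨j, j1, j2, -⟩ := exists_other v i v
        apply hnull i j (Ne.symm j2) i1 j1
        rw [sub_self]
        simp [dt]
      obtain ⟨t, ht, hyt⟩ := pt_cover hx v hyi hne hnull
      rw [mem_iUnion₂]
      exact ⟨t, ht, hyt⟩
  rw [← muh_apply hKc.isClosed.measurableSet]
  calc muh K ≤ muh (N ∪ ⋃ t ∈ (Fc x).filter (fun t => v ∉ t),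
      convexHull ℝ (insert (x v) (x '' t))) := measure_mono hsub
    _ ≤ muh N + muh (⋃ t ∈ (Fc x).filter (fun t => v ∉ t),
      convexHull ℝ (insert (x v) (x '' t))) := measure_union_le _ _
    _ = muh (⋃ t ∈ (Fc x).filter (fun t => v ∉ t),
      convexHull ℝ (insert (x v) (x '' t))) := by rw [muh_null hN0, zero_add]
    _ ≤ ∑ t ∈ (Fc x).filter (fun t => v ∉ t), muh (convexHull ℝ (insert (x v) (x '' t))) :=
      measure_biUnion_finset_le _ _
    _ = _ := by
      apply Finset.sum_congr rfl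
      intro t _
      apply muh_apply
      exact ((t.finite_toSet.image x).insert _).isCompact_convexHull ℝ |>.isClosed.measurableSet

end

end Pool.Agent.L7h81.IP
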