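import Pool.Agent.L7h81.IP.Const

/-!
# The angle `X` is an irrational multiple of `π`
-/

set_option autoImplicit false

namespace Pool.Agent.L7h81.IP

open Real

theorem cheb_X (k : ℕ) : ∃ a b a' b' : ℤ,
    2 * Real.cos (k * X) = a + b * ((√13 - 3) / 2) ∧
    2 * Real.cos ((k + 1 : ℕ) * X) = a' + b' * ((√13 - 3) / 2) ∧
    2 ≤ |(a : ℝ) + b * ((-3 - √13) / 2)| ∧
    |(a : ℝ) + b * ((-3 - √13) / 2)| < |(a' : ℝ) + b' * ((-3 - √13) / 2)| := by
  have hb := sqrt13_bounds
  have hs := sqrt13_sq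
  induction k with
  | zero =>
    refine ⟨2, 0, 0, 1, by simp, ?_, by simp, ?_⟩
    · have := cos_X
      simp only [zero_add, Nat.cast_one, one_mul, Int.cast_zero, Int.cast_one]
      rw [this]; ring
    · simp only [Int.cast_zero, Int.cast_one, zero_mul, add_zero, one_mul, zero_add]
      rw [abs_of_neg (show ((-3 - √13) / 2) < 0 by linarith [hb.1])]
      norm_num
      linarith [hb.1]
  | succ k ih =>
    obtain ⟨a, b, a', b', h1, h2, h3, h4⟩ := ih
    refine ⟨a', b', b' - a, a' - 3 * b' - b, h2, ?_, (h3.trans h4.le), ?_⟩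
    · have e : 2 * Real.cos ((k + 1 + 1 : ℕ) * X) = 2 * Real.cos X * (2 * Real.cos ((k + 1 : ℕ) * X)) -
          2 * Real.cos (k * X) := by
        have e1 : ((k + 1 + 1 : ℕ) : ℝ) * X = ((k + 1 : ℕ) : ℝ) * X + X := by push_cast; ring
        have e2 : (k : ℝ) * X = ((k + 1 : ℕ) : ℝ) * X - X := by push_cast; ring
        rw [e1, e2, Real.cos_add, Real.cos_sub]
        ring
      rw [e, h1, h2, cos_X]
      push_cast
      linear_combination ((b' : ℝ) / 4) * hs
    · have e : (((b' - a : ℤ) : ℝ) + ((a' - 3 * b' - b : ℤ) : ℝ) * ((-3 - √13) / 2)) =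
          ((-3 - √13) / 2) * ((a' : ℝ) + b' * ((-3 - √13) / 2)) -
          ((a : ℝ) + b * ((-3 - √13) / 2)) := by
        push_cast
        linear_combination (-(b' : ℝ) / 4) * hs
      rw [e]
      set c := (a : ℝ) + b * ((-3 - √13) / 2)
      set c' := (a' : ℝ) + b' * ((-3 - √13) / 2)
      have h5 : |((-3 - √13) / 2) * c'| - |c| ≤ |((-3 - √13) / 2) * c' - c| :=
        abs_sub_abs_le_abs_sub _ _
      rw [abs_mul, abs_of_neg (show ((-3 - √13) / 2) < 0 by linarith [hb.1])] at h5
      have h6 : 3 * |c'| ≤ -((-3 - √13) / 2) * |c'| := by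
        apply mul_le_mul_of_nonneg_right _ (abs_nonneg _)
        linarith [hb.1]
      linarith

theorem X_irr (q : ℚ) : X ≠ q * π := by
  intro h
  have hden : 0 < q.den := q.den_pos
  obtain ⟨a, b, a', b', -, h2, h3, h4⟩ := cheb_X (2 * q.den - 1)
  have e : 2 * q.den - 1 + 1 = 2 * q.den := by omega
  rw [e] at h2
  have hcos : Real.cos ((2 * q.den : ℕ) * X) = 1 := by
    have h5 : ((2 * q.den : ℕ) : ℝ) * X = (q.num : ℝ) * (2 * π) := by
      rw [h]
      have h6 : (q : ℝ) * q.den = q.num := by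
        exact_mod_cast Rat.mul_den_eq_num q
      push_cast
      linear_combination (2 * π) * h6
    rw [h5]
    exact Real.cos_int_mul_two_pi _
  rw [hcos] at h2
  have hirr : Irrational (√13) := by
    have := Nat.Prime.irrational_sqrt (show Nat.Prime 13 by norm_num)
    exact_mod_cast this
  have hb' : b' = 0 := by
    by_contra hne
    apply hirr
    refine ⟨(4 - 2 * a' + 3 * b') / b', ?_⟩
    have hne' : (b' : ℝ) ≠ 0 := by exact_mod_cast hne
    push_cast
    field_simp
    linarith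
  rw [hb'] at h2 h4
  simp only [Int.cast_zero, zero_mul, add_zero] at h2 h4
  have : (a' : ℝ) = 2 := by linarith
  rw [this] at h4
  norm_num at h4
  linarith

end Pool.Agent.L7h81.IP
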