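import Mathlib

/-!
# Lobachevsky's function and its tangent inequality
-/

set_option autoImplicit false

namespace Pool.Agent.L7h81.IP

open Real MeasureTheory Set

/-- the integrand `log (2 sin t)` -/
noncomputable def lg (t : ℝ) : ℝ := Real.log (2 * Real.sin t)

/-- Lobachevsky's function -/
noncomputable def Lob (x : ℝ) : ℝ := -∫ t in (0:ℝ)..x, lg t

theorem lg_int (a b : ℝ) : IntervalIntegrable lg volume a b := by
  have h : MeromorphicOn (fun s : ℝ => 2 * Real.sin s) (Set.uIcc a b) := by
    intro x _
    exact (MeromorphicAt.const (2 : ℝ) x).mul (analyticAt_sin.meromorphicAt)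
  have h2 := h.intervalIntegrable_log_norm
  have h3 : lg = fun s => Real.log ‖(fun s : ℝ => 2 * Real.sin s) s‖ := by
    funext s
    simp only [lg, Real.norm_eq_abs, Real.log_abs]
  rw [h3]
  exact h2

theorem Lob_zero : Lob 0 = 0 := by simp [Lob]

theorem lg_pi_sub (t : ℝ) : lg (π - t) = lg t := by
  simp [lg, Real.sin_pi_sub]

theorem Lob_sub (x y : ℝ) : Lob x - Lob y = ∫ t in x..y, lg t := by
  unfold Lob
  have := intervalIntegral.integral_add_adjacent_intervals (lg_int 0 x) (lg_int x y)
  linarith

theorem Lob_pi : Lob π = 0 := by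
  unfold Lob lg
  have h1 : ∫ s in (0:ℝ)..π, Real.log (2 * Real.sin s) =
      ∫ s in (0:ℝ)..π, (Real.log 2 + Real.log (Real.sin s)) := by
    apply intervalIntegral.integral_congr_ae
    have : ∀ᵐ s : ℝ, s ≠ π := by simp [ae_iff]
    filter_upwards [this] with s hs1 hs
    rw [Set.uIoc_of_le (by positivity)] at hs
    have hsin : 0 < Real.sin s := Real.sin_pos_of_pos_of_lt_pi hs.1 (lt_of_le_of_ne hs.2 hs1)
    rw [Real.log_mul (by norm_num) hsin.ne']
  have h2 : IntervalIntegrable (fun s : ℝ => Real.log (Real.sin s)) volume 0 π :=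
    intervalIntegrable_log_sin
  rw [h1, intervalIntegral.integral_add (by simp) h2, integral_log_sin_zero_pi]
  simp
  ring

theorem Lob_pi_sub (x : ℝ) : Lob (π - x) = -Lob x := by
  have h1 : ∫ t in (0:ℝ)..x, lg (π - t) = ∫ t in (π - x)..(π - 0), lg t := by
    rw [intervalIntegral.integral_comp_sub_left]
  have h2 : ∫ t in (0:ℝ)..x, lg (π - t) = ∫ t in (0:ℝ)..x, lg t := by
    congr 1
    funext t
    exact lg_pi_sub t
  have h3 := Lob_sub (π - x) π
  rw [Lob_pi] at h3
  rw [sub_zero] at h1
  rw [h2] at h1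
  have h4 : Lob x = -∫ t in (0:ℝ)..x, lg t := rfl
  linarith

theorem Lob_half : Lob (π / 2) = 0 := by
  have := Lob_pi_sub (π / 2)
  rw [show π - π / 2 = π / 2 by ring] at this
  linarith

theorem Lob_deriv {x : ℝ} (h0 : 0 < x) (h1 : x < π) : HasDerivAt Lob (-lg x) x := by
  have hs := Real.sin_pos_of_pos_of_lt_pi h0 h1
  have hc : ContinuousAt lg x := by
    unfold lg
    apply ContinuousAt.log
    · fun_prop
    · positivity
  have hm : Measurable lg := by
    unfold lg
    fun_prop
  have := intervalIntegral.integral_hasDerivAt_right (lg_int 0 x)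
    (hm.stronglyMeasurable.stronglyMeasurableAtFilter) hc
  exact this.neg

/-- the duplication formula -/
theorem Lob_two {x : ℝ} (h0 : 0 ≤ x) (h1 : x ≤ π / 2) :
    Lob (2 * x) = 2 * Lob x - 2 * Lob (π / 2 - x) := by
  have e1 : ∫ u in (0:ℝ)..x, lg (2 * u) = 2⁻¹ * ∫ s in (0:ℝ)..(2 * x), lg s := by
    rw [intervalIntegral.integral_comp_mul_left _ (by norm_num), smul_eq_mul, mul_zero]
  have e2 : ∫ u in (0:ℝ)..x, lg (π / 2 - u) = ∫ s in (π / 2 - x)..(π / 2), lg s := by
    rw [intervalIntegral.integral_comp_sub_left, sub_zero]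
  have e3 : ∫ u in (0:ℝ)..x, lg (2 * u) = ∫ u in (0:ℝ)..x, (lg u + lg (π / 2 - u)) := by
    apply intervalIntegral.integral_congr_ae
    have : ∀ᵐ s : ℝ, s ≠ π / 2 := by simp [ae_iff]
    filter_upwards [this] with u hu1 hu
    rw [Set.uIoc_of_le h0] at hu
    have hpi := Real.pi_pos
    have hlt : u < π / 2 := lt_of_le_of_ne (hu.2.trans h1) hu1
    have hsin : 0 < Real.sin u := Real.sin_pos_of_pos_of_lt_pi hu.1 (by linarith)
    have hcos : 0 < Real.cos u := Real.cos_pos_of_mem_Ioo ⟨by linarith [hu.1], by linarith⟩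
    unfold lg
    rw [Real.sin_pi_div_two_sub, Real.sin_two_mul,
      ← Real.log_mul (by positivity) (by positivity)]
    congr 1
    ring
  have h5 : IntervalIntegrable (fun u => lg (π / 2 - u)) volume 0 x := by
    have h5 := (lg_int (π / 2) (π / 2 - x)).comp_sub_left (π / 2)
    rw [sub_self, show π / 2 - (π / 2 - x) = x by ring] at h5
    exact h5
  rw [intervalIntegral.integral_add (lg_int _ _) h5, e1, e2, ← Lob_sub (π / 2 - x),
    Lob_half] at e3
  unfold Lob at *
  linarith

theorem Lob_six : Lob (π / 6) = 3 / 2 * Lob (π / 3) := by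
  have h := Lob_two (x := π / 6) (by positivity) (by linarith [Real.pi_pos])
  rw [show 2 * (π / 6) = π / 3 by ring, show π / 2 - π / 6 = π / 3 by ring] at h
  linarith

theorem Lob_cont : Continuous Lob :=
  (intervalIntegral.continuous_primitive (fun a b => lg_int a b) 0).neg

/-- the sum of the values at the three angles of a triangle -/
noncomputable def F3 (x y z : ℝ) : ℝ := Lob x + Lob y + Lob z

theorem cot_form {x y z : ℝ} (hx : 0 < x) (hy : 0 < y) (hz : 0 < z) (h : x + y + z = π)
    (u v w : ℝ) (huvw : u + v + w = 0) :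
    0 ≤ u ^ 2 * (Real.cos x / Real.sin x) + v ^ 2 * (Real.cos y / Real.sin y) +
      w ^ 2 * (Real.cos z / Real.sin z) := by
  have sx : 0 < Real.sin x := Real.sin_pos_of_pos_of_lt_pi hx (by linarith)
  have sy : 0 < Real.sin y := Real.sin_pos_of_pos_of_lt_pi hy (by linarith)
  have sz : 0 < Real.sin z := Real.sin_pos_of_pos_of_lt_pi hz (by linarith)
  have ez : z = π - (x + y) := by linarith
  have e1 : Real.sin z = Real.sin x * Real.cos y + Real.cos x * Real.sin y := by
    rw [ez, Real.sin_pi_sub, Real.sin_add]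
  have e2 : Real.cos z = Real.sin x * Real.sin y - Real.cos x * Real.cos y := by
    rw [ez, Real.cos_pi_sub, Real.cos_add]; ring
  have hw : w = -(u + v) := by linarith
  have key : u ^ 2 * (Real.cos x / Real.sin x) + v ^ 2 * (Real.cos y / Real.sin y) +
      w ^ 2 * (Real.cos z / Real.sin z) =
      ((u * Real.sin y - (v * Real.sin x * (-Real.cos z))) ^ 2 * 1 +
        (v * Real.sin x * Real.sin z) ^ 2) / (Real.sin x * Real.sin y * Real.sin z) := by
    have px := Real.sin_sq_add_cos_sq x
    have py := Real.sin_sq_add_cos_sq y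
    rw [hw]
    field_simp
    rw [e1, e2]
    set a := Real.sin x
    set b := Real.cos x
    set c := Real.sin y
    set d := Real.cos y
    have hb : b ^ 2 = 1 - a ^ 2 := by linarith
    have hd : d ^ 2 = 1 - c ^ 2 := by linarith
    ring_nf
    simp only [hb, hd]
    ring
  rw [key]
  positivity

/-- the tangent inequality: `F3` is concave on the set of the triangles -/
theorem F3_tangent {x y z a b c : ℝ} (hx : 0 < x) (hy : 0 < y) (hz : 0 < z)
    (h : x + y + z = π) (ha : 0 < a) (hb : 0 < b) (hc : 0 < c) (h0 : a + b + c = π) :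
    F3 x y z ≤ F3 a b c - lg a * (x - a) - lg b * (y - b) - lg c * (z - c) := by
  set φ : ℝ → ℝ := fun t => F3 (a + t * (x - a)) (b + t * (y - b)) (c + t * (z - c)) +
    t * (lg a * (x - a) + lg b * (y - b) + lg c * (z - c)) with hφ
  have pos : ∀ t ∈ Icc (0:ℝ) 1, 0 < a + t * (x - a) ∧ 0 < b + t * (y - b) ∧
      0 < c + t * (z - c) := by
    intro t ht
    have key : ∀ p q : ℝ, 0 < p → 0 < q → 0 < p + t * (q - p) := by
      intro p q hp hq
      have : p + t * (q - p) = (1 - t) * p + t * q := by ring
      rw [this]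
      rcases eq_or_lt_of_le ht.1 with h1 | h1
      · rw [← h1]; simpa using hp
      · have : 0 ≤ (1 - t) * p := mul_nonneg (by linarith [ht.2]) hp.le
        have : 0 < t * q := mul_pos h1 hq
        linarith
    exact ⟨key a x ha hx, key b y hb hy, key c z hc hz⟩
  have sm : ∀ t, (a + t * (x - a)) + (b + t * (y - b)) + (c + t * (z - c)) = π := by
    intro t
    have : (x - a) + (y - b) + (z - c) = 0 := by linarith
    linear_combination h0 + t * this
  set ψ : ℝ → ℝ := fun t => -(lg (a + t * (x - a)) * (x - a)) - lg (b + t * (y - b)) * (y - b) -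
    lg (c + t * (z - c)) * (z - c) with hψ
  have lin : ∀ (p q t : ℝ), HasDerivAt (fun t => p + t * (q - p)) (q - p) t := by
    intro p q t
    have := ((hasDerivAt_id t).mul_const (q - p)).const_add p
    simpa using this
  have dφ : ∀ t ∈ Icc (0:ℝ) 1, HasDerivAt φ (ψ t + (lg a * (x - a) + lg b * (y - b) +
      lg c * (z - c))) t := by
    intro t ht
    obtain ⟨p1, p2, p3⟩ := pos t ht
    have s := sm t
    have d1 := (Lob_deriv p1 (by linarith)).comp t (lin a x t)
    have d2 := (Lob_deriv p2 (by linarith)).comp t (lin b y t)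
    have d3 := (Lob_deriv p3 (by linarith)).comp t (lin c z t)
    have d4 := (hasDerivAt_id t).mul_const (lg a * (x - a) + lg b * (y - b) + lg c * (z - c))
    have := ((d1.add d2).add d3).add d4
    refine this.congr_deriv ?_
    simp only [hψ]
    ring
  have dψ : ∀ t ∈ Icc (0:ℝ) 1, HasDerivAt ψ
      (-((x - a) ^ 2 * (Real.cos (a + t * (x - a)) / Real.sin (a + t * (x - a))) +
        (y - b) ^ 2 * (Real.cos (b + t * (y - b)) / Real.sin (b + t * (y - b))) +
        (z - c) ^ 2 * (Real.cos (c + t * (z - c)) / Real.sin (c + t * (z - c))))) t := by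
    intro t ht
    obtain ⟨p1, p2, p3⟩ := pos t ht
    have s := sm t
    have dl : ∀ (p q : ℝ), 0 < p + t * (q - p) → p + t * (q - p) < π →
        HasDerivAt (fun t => lg (p + t * (q - p)) * (q - p))
          ((q - p) ^ 2 * (Real.cos (p + t * (q - p)) / Real.sin (p + t * (q - p)))) t := by
      intro p q hp1 hp2
      have hs := Real.sin_pos_of_pos_of_lt_pi hp1 hp2
      have e := (((lin p q t).sin.const_mul 2).log (by positivity)).mul_const (q - p)
      refine e.congr_deriv ?_
      field_simp
    have d1 := dl a x p1 (by linarith)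
    have d2 := dl b y p2 (by linarith)
    have d3 := dl c z p3 (by linarith)
    have := (d1.neg.sub d2).sub d3
    refine this.congr_deriv ?_
    ring
  have hanti : AntitoneOn ψ (Icc 0 1) := by
    apply antitoneOn_of_deriv_nonpos (convex_Icc 0 1)
    · intro t ht
      exact (dψ t ht).continuousAt.continuousWithinAt
    · intro t ht
      rw [interior_Icc] at ht
      exact (dψ t (Ioo_subset_Icc_self ht)).differentiableAt.differentiableWithinAt
    · intro t ht
      rw [interior_Icc] at ht
      have ht' := Ioo_subset_Icc_self ht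
      rw [(dψ t ht').deriv]
      obtain ⟨p1, p2, p3⟩ := pos t ht'
      have := cot_form p1 p2 p3 (sm t) (x - a) (y - b) (z - c) (by linarith)
      linarith
  have hφanti : AntitoneOn φ (Icc 0 1) := by
    apply antitoneOn_of_deriv_nonpos (convex_Icc 0 1)
    · intro t ht
      exact (dφ t ht).continuousAt.continuousWithinAt
    · intro t ht
      rw [interior_Icc] at ht
      exact (dφ t (Ioo_subset_Icc_self ht)).differentiableAt.differentiableWithinAt
    · intro t ht
      rw [interior_Icc] at ht
      have ht' := Ioo_subset_Icc_self ht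
      rw [(dφ t ht').deriv]
      have h1 := hanti (left_mem_Icc.2 zero_le_one) ht' ht'.1
      have h2 : ψ 0 = -(lg a * (x - a)) - lg b * (y - b) - lg c * (z - c) := by
        simp [hψ]
      linarith
  have h1 := hφanti (left_mem_Icc.2 zero_le_one) (right_mem_Icc.2 zero_le_one) zero_le_one
  have h2 : φ 0 = F3 a b c := by simp [hφ]
  have h3 : φ 1 = F3 x y z + (lg a * (x - a) + lg b * (y - b) + lg c * (z - c)) := by
    simp [hφ]
  rw [h2, h3] at h1
  linarith

end Pool.Agent.L7h81.IP
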