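import Pool.Agent.L7h81.IP.Approx

/-!
# The extremal polyhedron
-/

set_option autoImplicit false

namespace Pool.Agent.L7h81.IP

open Real MeasureTheory Set
open scoped ENNReal

/-- separation of two tetrahedra by a plane through the north pole -/
theorem tet_sep {A B C A' B' C' : ℂ} (p q r : ℝ) (hne : p ≠ 0 ∨ q ≠ 0)
    (hA : 0 ≤ p * A.re + q * A.im + r) (hB : 0 ≤ p * B.re + q * B.im + r)
    (hC : 0 ≤ p * C.re + q * C.im + r) (hA' : p * A'.re + q * A'.im + r ≤ 0)
    (hB' : p * B'.re + q * B'.im + r ≤ 0) (hC' : p * C'.re + q * C'.im + r ≤ 0) :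
    AEDisjoint muh (convexHull ℝ {NP, sph A, sph B, sph C})
      (convexHull ℝ {NP, sph A', sph B', sph C'}) := by
  set g : E3 →ₗ[ℝ] ℝ :=
    { toFun := fun y => p * y 0 + q * y 1 - r * y 2
      map_add' := by intro a b; simp only [PiLp.add_apply]; ring
      map_smul' := by
        intro c a; simp only [PiLp.smul_apply, smul_eq_mul, RingHom.id_apply]; ring }
    with hg
  have hgv : ∀ y, g y = p * y 0 + q * y 1 - r * y 2 := fun y => rfl
  have hsph : ∀ P : ℂ, g (sph P) + r = 2 / (1 + ‖P‖ ^ 2) * (p * P.re + q * P.im + r) := by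
    intro P
    have hP : 0 < 1 + ‖P‖ ^ 2 := by positivity
    rw [hgv]
    unfold sph
    rw [mk_zero, mk_one, mk_two, Complex.smul_re, Complex.smul_im, smul_eq_mul, smul_eq_mul]
    field_simp
    ring
  have hNP : g NP = -r := by
    rw [hgv]; unfold NP; rw [mk_zero, mk_one, mk_two]; simp
  have h1 : convexHull ℝ {NP, sph A, sph B, sph C} ⊆ {y | -r ≤ g y} := by
    apply convexHull_min _ (convex_halfSpace_ge g.isLinear _)
    have key : ∀ P : ℂ, 0 ≤ p * P.re + q * P.im + r → -r ≤ g (sph P) := by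
      intro P hP
      have := hsph P
      have h2 : 0 ≤ 2 / (1 + ‖P‖ ^ 2) * (p * P.re + q * P.im + r) := by positivity
      linarith
    intro y hy
    simp only [mem_insert_iff, mem_singleton_iff] at hy
    rcases hy with rfl | rfl | rfl | rfl
    · exact hNP.ge
    · exact key A hA
    · exact key B hB
    · exact key C hC
  have h2 : convexHull ℝ {NP, sph A', sph B', sph C'} ⊆ {y | g y ≤ -r} := by
    apply convexHull_min _ (convex_halfSpace_le g.isLinear _)
    have key : ∀ P : ℂ, p * P.re + q * P.im + r ≤ 0 → g (sph P) ≤ -r := by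
      intro P hP
      have := hsph P
      have h2 : 2 / (1 + ‖P‖ ^ 2) * (p * P.re + q * P.im + r) ≤ 0 :=
        mul_nonpos_of_nonneg_of_nonpos (by positivity) hP
      linarith
    intro y hy
    simp only [mem_insert_iff, mem_singleton_iff] at hy
    rcases hy with rfl | rfl | rfl | rfl
    · exact hNP.le
    · exact key A' hA'
    · exact key B' hB'
    · exact key C' hC'
  have hg0 : g ≠ 0 := by
    intro h0
    have e1 : g (mk 1 0) = 0 := by rw [h0]; rfl
    have e2 : g (mk Complex.I 0) = 0 := by rw [h0]; rfl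
    rw [hgv, mk_zero, mk_one, mk_two] at e1 e2
    simp at e1 e2
    rcases hne with h | h
    · exact h e1
    · exact h e2
  apply muh_null
  apply measure_mono_null _ (null_hyper (volume : Measure E3) g hg0 (-r))
  rintro y ⟨y1, y2⟩
  exact le_antisymm (h2 y2) (h1 y1)

/-- recognising an angle -/
theorem an_of {w w' : ℂ} {r θ : ℝ} (hr : 0 < r) (h0 : 0 ≤ θ) (h1 : θ ≤ π)
    (hi : w.re * w'.re + w.im * w'.im = r * Real.cos θ)
    (ho : (om w w') ^ 2 = (r * Real.sin θ) ^ 2) : an w w' = θ := by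
  have h2 : (‖w‖ * ‖w'‖) ^ 2 = r ^ 2 := by
    have e : (‖w‖ * ‖w'‖) ^ 2 = (w.re * w'.re + w.im * w'.im) ^ 2 + (om w w') ^ 2 := by
      rw [mul_pow, norm_sq_C, norm_sq_C]
      unfold om
      ring
    rw [e, hi, ho]
    have := Real.sin_sq_add_cos_sq θ
    linear_combination r ^ 2 * this
  have h3 : ‖w‖ * ‖w'‖ = r := by
    have h4 : 0 ≤ ‖w‖ * ‖w'‖ := by positivity
    nlinarith
  have h5 := cos_an w w'
  rw [h3, hi] at h5
  have h6 : Real.cos (an w w') = Real.cos θ := by
    have : (Real.cos (an w w') - Real.cos θ) * r = 0 := by linarith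
    rcases mul_eq_zero.1 this with h | h
    · linarith
    · exact absurd h hr.ne'
  exact Real.injOn_cos ⟨InnerProductGeometry.angle_nonneg _ _, InnerProductGeometry.angle_le_pi _ _⟩
    ⟨h0, h1⟩ h6

/-- `√13` -/
noncomputable def w13 : ℝ := √13
/-- the parameter `s` -/
noncomputable def s0 : ℝ := √((w13 - 1) / 6)

theorem w13_sq : w13 ^ 2 = 13 := sqrt13_sq
theorem w13_lo : 3.605 < w13 := sqrt13_bounds.1
theorem w13_hi : w13 < 3.606 := sqrt13_bounds.2

theorem s0_sq : s0 ^ 2 = (w13 - 1) / 6 := by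
  unfold s0
  rw [Real.sq_sqrt]
  linarith [w13_lo]

theorem s0_pos : 0 < s0 := by
  unfold s0
  apply Real.sqrt_pos.2
  linarith [w13_lo]

theorem s0_lt : s0 < 1 := by
  have h1 := s0_sq
  have h2 := s0_pos
  have h3 := w13_hi
  nlinarith

theorem cosX : Real.cos X = (w13 - 3) / 4 := cos_X
theorem sin_half : Real.sin (X / 2) = (w13 - 1) / 4 := sin_half_X

theorem cos_half : Real.cos (X / 2) = 1 / (2 * s0) := by
  have h1 := Real.sin_sq_add_cos_sq (X / 2)
  rw [sin_half] at h1
  have hc : 0 < Real.cos (X / 2) := by linarith [cos_half_X]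
  have hs := s0_pos
  have h2 : (Real.cos (X / 2)) ^ 2 = (1 / (2 * s0)) ^ 2 := by
    have h3 : (Real.cos (X / 2)) ^ 2 = 1 - ((w13 - 1) / 4) ^ 2 := by linarith
    have hw := w13_lo
    have hw2 := w13_sq
    have e : (1 / (2 * s0)) ^ 2 = 1 / (4 * ((w13 - 1) / 6)) := by
      rw [← s0_sq]; field_simp; norm_num
    rw [h3, e]
    have : w13 - 1 ≠ 0 := by linarith
    field_simp
    nlinarith
  have h4 : 0 < 1 / (2 * s0) := by positivity
  nlinarith

theorem sinX : Real.sin X = 3 * s0 / 2 := by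
  have h := Real.sin_two_mul (X / 2)
  rw [show 2 * (X / 2) = X by ring, sin_half, cos_half] at h
  rw [h]
  have hs := s0_pos
  have hs2 := s0_sq
  field_simp
  rw [hs2]
  ring

theorem cosx' : Real.cos (π - 3 * X / 2) = (5 - w13) / (4 * s0) := by
  have e : π - 3 * X / 2 = π - (X + X / 2) := by ring
  rw [e, Real.cos_pi_sub, Real.cos_add, cosX, sinX, sin_half, cos_half]
  have hs := s0_pos
  have hs2 := s0_sq
  have hw2 := w13_sq
  field_simp
  rw [hs2]
  nlinarith

theorem sinx' : Real.sin (π - 3 * X / 2) = (7 - w13) / 4 := by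
  have e : π - 3 * X / 2 = π - (X + X / 2) := by ring
  rw [e, Real.sin_pi_sub, Real.sin_add, cosX, sinX, sin_half, cos_half]
  have hs := s0_pos
  have hs2 := s0_sq
  have hw2 := w13_sq
  field_simp
  nlinarith

/-- coordinates -/
noncomputable def D1 : ℝ := (5 - w13) / (4 * s0)
noncomputable def D2 : ℝ := (7 - w13) / 4
noncomputable def A1 : ℝ := 1 / (2 * s0)
noncomputable def A2 : ℝ := (w13 - 1) / 4

theorem D1_pos : 0 < D1 := by
  unfold D1; have := s0_pos; have := w13_hi; apply div_pos <;> linarith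
theorem D2_pos : 0 < D2 := by unfold D2; have := w13_hi; linarith
theorem A1_pos : 0 < A1 := by unfold A1; have := s0_pos; positivity
theorem A2_pos : 0 < A2 := by unfold A2; have := w13_lo; linarith

theorem D_norm : D1 * D1 + D2 * D2 = 1 := by
  unfold D1 D2
  rw [← cosx', ← sinx']
  have := Real.sin_sq_add_cos_sq (π - 3 * X / 2)
  linarith

theorem A_norm : A1 * A1 + A2 * A2 = 1 := by
  unfold A1 A2
  rw [← cos_half, ← sin_half]
  have := Real.sin_sq_add_cos_sq (X / 2)
  linarith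

theorem AA_cos : A1 * A1 - A2 * A2 = Real.cos X := by
  unfold A1 A2
  rw [← cos_half, ← sin_half]
  have := Real.cos_two_mul (X / 2)
  rw [show 2 * (X / 2) = X by ring] at this
  have h2 := Real.sin_sq_add_cos_sq (X / 2)
  rw [this]
  linarith

theorem DA_cos : -(D1 * A1) + D2 * A2 = Real.cos X := by
  unfold D1 D2 A1 A2
  rw [cosX]
  have hs := s0_pos
  have hs2 := s0_sq
  have hw := w13_lo
  have hw2 := w13_sq
  have : w13 - 1 ≠ 0 := by linarith
  have e : (5 - w13) / (4 * s0) * (1 / (2 * s0)) = (5 - w13) / (8 * ((w13 - 1) / 6)) := by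
    rw [← s0_sq]; field_simp; ring
  rw [e]
  field_simp
  nlinarith

/-- volume of an isosceles tetrahedron -/
theorem iso_vol {B C : ℂ} {θ : ℝ} (hB : B.re * B.re + B.im * B.im = 1)
    (hC : C.re * C.re + C.im * C.im = 1) (h : B.re * C.re + B.im * C.im = Real.cos θ)
    (h0 : 0 < θ) (h1 : θ < π) : hvol (convexHull ℝ {NP, sph 0, sph B, sph C}) =
      ENNReal.ofReal (F3 θ ((π - θ) / 2) ((π - θ) / 2)) := by
  have hs : 0 < Real.sin θ := Real.sin_pos_of_pos_of_lt_pi h0 h1
  have hs2 : 0 < Real.sin (θ / 2) := Real.sin_pos_of_pos_of_lt_pi (by linarith) (by linarith)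
  have ho : (om B C) ^ 2 = Real.sin θ ^ 2 := by
    have e : (om B C) ^ 2 = (B.re * B.re + B.im * B.im) * (C.re * C.re + C.im * C.im) -
        (B.re * C.re + B.im * C.im) ^ 2 := by
      unfold om; ring
    rw [e, hB, hC, h]
    have := Real.sin_sq_add_cos_sq θ
    linarith
  have hom : om (B - 0) (C - 0) ≠ 0 := by
    rw [sub_zero, sub_zero]
    intro h2
    rw [h2] at ho
    nlinarith
  have c2 : Real.cos ((π - θ) / 2) = Real.sin (θ / 2) := by
    rw [show (π - θ) / 2 = π / 2 - θ / 2 by ring, Real.cos_pi_div_two_sub]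
  have s2 : Real.sin ((π - θ) / 2) = Real.cos (θ / 2) := by
    rw [show (π - θ) / 2 = π / 2 - θ / 2 by ring, Real.sin_pi_div_two_sub]
  have d1 : Real.cos θ = 1 - 2 * Real.sin (θ / 2) ^ 2 := by
    have := Real.cos_two_mul (θ / 2)
    rw [show 2 * (θ / 2) = θ by ring] at this
    have h2 := Real.sin_sq_add_cos_sq (θ / 2)
    rw [this]
    linarith
  have d2 : Real.sin θ = 2 * Real.sin (θ / 2) * Real.cos (θ / 2) := by
    have := Real.sin_two_mul (θ / 2)
    rwa [show 2 * (θ / 2) = θ by ring] at this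
  rw [tet_vol hom]
  have a1 : an (B - 0) (C - 0) = θ := by
    rw [sub_zero, sub_zero]
    apply an_of (r := 1) one_pos h0.le h1.le
    · rw [h, one_mul]
    · rw [ho, one_mul]
  have a2 : an (0 - B) (C - B) = (π - θ) / 2 := by
    apply an_of (r := 2 * Real.sin (θ / 2)) (by positivity) (by linarith) (by linarith)
    · rw [c2]
      simp only [zero_sub, Complex.neg_re, Complex.neg_im, Complex.sub_re, Complex.sub_im]
      have : -B.re * (C.re - B.re) + -B.im * (C.im - B.im) =
        (B.re * B.re + B.im * B.im) - (B.re * C.re + B.im * C.im) := by ring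
      rw [this, hB, h, d1]
      ring
    · rw [s2]
      have : om (0 - B) (C - B) = -om B C := by
        unfold om
        simp only [zero_sub, Complex.neg_re, Complex.neg_im, Complex.sub_re, Complex.sub_im]
        ring
      rw [this, neg_sq, ho, d2]
  have a3 : an (0 - C) (B - C) = (π - θ) / 2 := by
    have := an_sum hom
    rw [a1, a2] at this
    linarith
  rw [a1, a2, a3]

/-- volume of the tetrahedra of type `(0, b', d)` -/
theorem vol_B {y : ℝ} (hy : y ^ 2 = D2 ^ 2) :
    hvol (convexHull ℝ {NP, sph 0, sph ⟨s0, 0⟩, sph ⟨D1, y⟩}) =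
      ENNReal.ofReal (F3 (π - 3 * X / 2) X (X / 2)) := by
  have hs := s0_pos
  have hd := D2_pos
  have hpi := Real.pi_pos
  have hX0 := X_pos
  have hX1 := X_lt
  have hy0 : y ≠ 0 := by rintro rfl; nlinarith
  have hom : om ((⟨s0, 0⟩ : ℂ) - 0) (⟨D1, y⟩ - 0) ≠ 0 := by
    rw [sub_zero, sub_zero]
    unfold om
    simp only [zero_mul, sub_zero]
    positivity
  rw [tet_vol hom]
  have a1 : an ((⟨s0, 0⟩ : ℂ) - 0) (⟨D1, y⟩ - 0) = π - 3 * X / 2 := by
    rw [sub_zero, sub_zero]
    apply an_of (r := s0) hs (by linarith) (by linarith)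
    · rw [cosx']
      simp only [D1]
      ring
    · rw [sinx']
      unfold om
      simp only [zero_mul, sub_zero]
      rw [mul_pow, hy]
      unfold D2
      ring
  have a2 : an (0 - (⟨s0, 0⟩ : ℂ)) (⟨D1, y⟩ - ⟨s0, 0⟩) = X := by
    apply an_of (r := (7 - w13) / 6) (by linarith [w13_hi]) hX0.le (by linarith)
    · rw [cosX]
      simp only [zero_sub, Complex.neg_re, Complex.neg_im, Complex.sub_re, Complex.sub_im]
      unfold D1
      have hs2 := s0_sq
      have hw2 := w13_sq
      field_simp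
      nlinarith
    · rw [sinX]
      unfold om
      simp only [zero_sub, Complex.neg_re, Complex.neg_im, Complex.sub_re, Complex.sub_im]
      have : (-s0 * (y - 0) - -0 * (D1 - s0)) ^ 2 = s0 ^ 2 * y ^ 2 := by ring
      rw [this, hy]
      unfold D2
      ring
  have a3 : an (0 - (⟨D1, y⟩ : ℂ)) (⟨s0, 0⟩ - ⟨D1, y⟩) = X / 2 := by
    have := an_sum hom
    rw [a1, a2] at this
    linarith
  rw [a1, a2, a3]

/-- volume of the tetrahedra of type `(b', d, b)` -/
theorem vol_C {y : ℝ} (hy : y ^ 2 = D2 ^ 2) :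
    hvol (convexHull ℝ {NP, sph ⟨s0, 0⟩, sph ⟨D1, y⟩, sph ⟨1 / s0, 0⟩}) =
      ENNReal.ofReal (F3 (π - X) ((π - (π - X)) / 2) ((π - (π - X)) / 2)) := by
  have hs := s0_pos
  have hs1 := s0_lt
  have hd := D2_pos
  have hpi := Real.pi_pos
  have hX0 := X_pos
  have hX1 := X_lt
  have hy0 : y ≠ 0 := by rintro rfl; nlinarith
  have hss : 0 < 1 / s0 - s0 := by
    have : 1 < 1 / s0 := by rw [lt_div_iff₀ hs]; linarith
    linarith
  have hom : om ((⟨D1, y⟩ : ℂ) - ⟨s0, 0⟩) (⟨1 / s0, 0⟩ - ⟨s0, 0⟩) ≠ 0 := by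
    unfold om
    simp only [Complex.sub_re, Complex.sub_im]
    have : (D1 - s0) * (0 - 0) - (y - 0) * (1 / s0 - s0) = -(y * (1 / s0 - s0)) := by ring
    rw [this]
    exact neg_ne_zero.2 (mul_ne_zero hy0 hss.ne')
  rw [tet_vol hom]
  have a1 : an ((⟨D1, y⟩ : ℂ) - ⟨s0, 0⟩) (⟨1 / s0, 0⟩ - ⟨s0, 0⟩) = π - X := by
    apply an_of (r := (7 - w13) / (6 * s0) * (1 / s0 - s0))
      (mul_pos (div_pos (by linarith [w13_hi]) (by positivity)) hss) (by linarith) (by linarith)
    · rw [Real.cos_pi_sub, cosX]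
      simp only [Complex.sub_re, Complex.sub_im]
      have e : D1 - s0 = (7 - w13) / (6 * s0) * -((w13 - 3) / 4) := by
        unfold D1
        have hs2 := s0_sq
        have hw2 := w13_sq
        field_simp
        nlinarith
      rw [e]
      ring
    · rw [Real.sin_pi_sub, sinX]
      unfold om
      simp only [Complex.sub_re, Complex.sub_im]
      have : ((D1 - s0) * (0 - 0) - (y - 0) * (1 / s0 - s0)) ^ 2 = y ^ 2 * (1 / s0 - s0) ^ 2 := by
        ring
      rw [this, hy]
      unfold D2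
      field_simp
      ring
  have a3 : an ((⟨s0, 0⟩ : ℂ) - ⟨1 / s0, 0⟩) (⟨D1, y⟩ - ⟨1 / s0, 0⟩) = X / 2 := by
    apply an_of (r := (w13 - 1) / 2 * (1 / s0 - s0))
      (mul_pos (by linarith [w13_lo]) hss) (by linarith) (by linarith)
    · rw [cos_half]
      simp only [Complex.sub_re, Complex.sub_im]
      unfold D1
      field_simp
      ring
    · rw [sin_half]
      unfold om
      simp only [Complex.sub_re, Complex.sub_im]
      have : ((s0 - 1 / s0) * (y - 0) - (0 - 0) * (D1 - 1 / s0)) ^ 2 =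
          y ^ 2 * (1 / s0 - s0) ^ 2 := by
        ring
      rw [this, hy]
      have e : D2 = (w13 - 1) / 2 * ((w13 - 1) / 4) := by
        unfold D2
        have hw2 := w13_sq
        nlinarith
      rw [e]
      ring
  have a2 : an ((⟨s0, 0⟩ : ℂ) - ⟨D1, y⟩) (⟨1 / s0, 0⟩ - ⟨D1, y⟩) = X / 2 := by
    have := an_sum hom
    rw [a1, a3] at this
    linarith
  rw [a1, a2, a3]
  congr 1
  congr 1 <;> ring

/-- the eight vertices -/
noncomputable def xe : Fin 8 → E3 :=
  ![NP, sph 0, sph ⟨D1, D2⟩, sph ⟨D1, -D2⟩, sph ⟨-A1, A2⟩, sph ⟨-A1, -A2⟩, sph ⟨s0, 0⟩,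
    sph ⟨1 / s0, 0⟩]

end Pool.Agent.L7h81.IP
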