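import Pool.Agent.L7h81.IP.Lower

/-!
# The volume of the extremal polyhedron
-/

set_option autoImplicit false

namespace Pool.Agent.L7h81.IP

open Real MeasureTheory Set
open scoped ENNReal

/-- the seven tetrahedra -/
noncomputable def TT : Fin 7 → Set E3 := ![
  convexHull ℝ {NP, sph 0, sph ⟨-A1, A2⟩, sph ⟨-A1, -A2⟩},
  convexHull ℝ {NP, sph 0, sph ⟨-A1, -A2⟩, sph ⟨D1, -D2⟩},
  convexHull ℝ {NP, sph 0, sph ⟨s0, 0⟩, sph ⟨D1, -D2⟩},
  convexHull ℝ {NP, sph 0, sph ⟨s0, 0⟩, sph ⟨D1, D2⟩},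
  convexHull ℝ {NP, sph 0, sph ⟨D1, D2⟩, sph ⟨-A1, A2⟩},
  convexHull ℝ {NP, sph ⟨s0, 0⟩, sph ⟨D1, D2⟩, sph ⟨1 / s0, 0⟩},
  convexHull ℝ {NP, sph ⟨s0, 0⟩, sph ⟨D1, -D2⟩, sph ⟨1 / s0, 0⟩}]

theorem pair7 {α : Type*} (R : α → α → Prop) (hsymm : ∀ a b, R a b → R b a) (F : Fin 7 → α)
    (q01 : R (F 0) (F 1)) (q02 : R (F 0) (F 2)) (q03 : R (F 0) (F 3)) (q04 : R (F 0) (F 4))
    (q05 : R (F 0) (F 5)) (q06 : R (F 0) (F 6)) (q12 : R (F 1) (F 2)) (q13 : R (F 1) (F 3))
    (q14 : R (F 1) (F 4)) (q15 : R (F 1) (F 5)) (q16 : R (F 1) (F 6)) (q23 : R (F 2) (F 3))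
    (q24 : R (F 2) (F 4)) (q25 : R (F 2) (F 5)) (q26 : R (F 2) (F 6)) (q34 : R (F 3) (F 4))
    (q35 : R (F 3) (F 5)) (q36 : R (F 3) (F 6)) (q45 : R (F 4) (F 5)) (q46 : R (F 4) (F 6))
    (q56 : R (F 5) (F 6)) : ∀ i j, i ≠ j → R (F i) (F j) := by
  intro i j hij
  fin_cases i <;> fin_cases j
  all_goals first
    | exact absurd rfl hij
    | assumption
    | (apply hsymm; assumption)

set_option maxHeartbeats 1000000 in
theorem tt_disj : Pairwise (Function.onFun (AEDisjoint muh) TT) := by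
  have hs := s0_pos
  have hs1 := s0_lt
  have hb : 0 < 1 / s0 := by positivity
  have hss : 0 < 1 / s0 - s0 := by
    have : 1 < 1 / s0 := by rw [lt_div_iff₀ hs]; linarith
    linarith
  have d1 := D1_pos
  have d2 := D2_pos
  have a1 := A1_pos
  have a2 := A2_pos
  have p1 := mul_pos d1 d2
  have p2 := mul_pos d1 a1
  have p3 := mul_pos d1 a2
  have p4 := mul_pos d2 a1
  have p5 := mul_pos d2 a2
  have p6 := mul_pos a1 a2
  have p7 := mul_pos d2 hs
  have p8 := mul_pos d2 hb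
  have p9 := mul_pos d2 hss
  rw [mul_sub] at p9
  simp only [one_div] at p8 p9 hb hss
  -- the 21 pairs
  have q01 : AEDisjoint muh (TT 0) (TT 1) := by
    apply tet_sep (-A2) (A1) 0 (Or.inl (by linarith)) <;> simp <;> linarith
  have q02 : AEDisjoint muh (TT 0) (TT 2) := by
    apply tet_sep (-1) 0 0 (Or.inl (by norm_num)) <;> simp <;> linarith
  have q03 : AEDisjoint muh (TT 0) (TT 3) := by
    apply tet_sep (-1) 0 0 (Or.inl (by norm_num)) <;> simp <;> linarith
  have q04 : AEDisjoint muh (TT 0) (TT 4) := by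
    apply tet_sep (-A2) (-A1) 0 (Or.inl (by linarith)) <;> simp <;> linarith
  have q05 : AEDisjoint muh (TT 0) (TT 5) := by
    apply tet_sep (-1) 0 0 (Or.inl (by norm_num)) <;> simp <;> linarith
  have q06 : AEDisjoint muh (TT 0) (TT 6) := by
    apply tet_sep (-1) 0 0 (Or.inl (by norm_num)) <;> simp <;> linarith
  have q12 : AEDisjoint muh (TT 1) (TT 2) := by
    apply tet_sep (-D2) (-D1) 0 (Or.inl (by linarith)) <;> simp <;> linarith
  have q13 : AEDisjoint muh (TT 1) (TT 3) := by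
    apply tet_sep 0 (-1) 0 (Or.inr (by norm_num)) <;> simp <;> linarith
  have q14 : AEDisjoint muh (TT 1) (TT 4) := by
    apply tet_sep 0 (-1) 0 (Or.inr (by norm_num)) <;> simp <;> linarith
  have q15 : AEDisjoint muh (TT 1) (TT 5) := by
    apply tet_sep 0 (-1) 0 (Or.inr (by norm_num)) <;> simp <;> linarith
  have q16 : AEDisjoint muh (TT 1) (TT 6) := by
    apply tet_sep (-D2) (-D1) 0 (Or.inl (by linarith)) <;> simp <;> linarith
  have q23 : AEDisjoint muh (TT 2) (TT 3) := by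
    apply tet_sep 0 (-1) 0 (Or.inr (by norm_num)) <;> simp <;> linarith
  have q24 : AEDisjoint muh (TT 2) (TT 4) := by
    apply tet_sep 0 (-1) 0 (Or.inr (by norm_num)) <;> simp <;> linarith
  have q25 : AEDisjoint muh (TT 2) (TT 5) := by
    apply tet_sep 0 (-1) 0 (Or.inr (by norm_num)) <;> simp <;> linarith
  have q26 : AEDisjoint muh (TT 2) (TT 6) := by
    apply tet_sep (-D2) (-(D1 - s0)) (D2 * s0) (Or.inl (by linarith)) <;> simp <;> linarith
  have q34 : AEDisjoint muh (TT 3) (TT 4) := by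
    apply tet_sep (D2) (-D1) 0 (Or.inl (by linarith)) <;> simp <;> linarith
  have q35 : AEDisjoint muh (TT 3) (TT 5) := by
    apply tet_sep (-D2) (D1 - s0) (D2 * s0) (Or.inl (by linarith)) <;> simp <;> linarith
  have q36 : AEDisjoint muh (TT 3) (TT 6) := by
    apply tet_sep 0 (1) 0 (Or.inr (by norm_num)) <;> simp <;> linarith
  have q45 : AEDisjoint muh (TT 4) (TT 5) := by
    apply tet_sep (-D2) (D1) 0 (Or.inl (by linarith)) <;> simp <;> linarith
  have q46 : AEDisjoint muh (TT 4) (TT 6) := by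
    apply tet_sep 0 (1) 0 (Or.inr (by norm_num)) <;> simp <;> linarith
  have q56 : AEDisjoint muh (TT 5) (TT 6) := by
    apply tet_sep 0 (1) 0 (Or.inr (by norm_num)) <;> simp <;> linarith
  exact pair7 (AEDisjoint muh) (fun _ _ h => h.symm) TT q01 q02 q03 q04 q05 q06 q12 q13 q14 q15
    q16 q23 q24 q25 q26 q34 q35 q36 q45 q46 q56

theorem V0_sum : ENNReal.ofReal V0 ≤ hvol (convexHull ℝ (range xe)) := by
  have hpi := Real.pi_pos
  have hX0 := X_pos
  have hX1 := X_lt
  have hK : IsCompact (convexHull ℝ (range xe)) := (Set.finite_range xe).isCompact_convexHull ℝ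
  have hsub : (⋃ i, TT i) ⊆ convexHull ℝ (range xe) := by
    have m : ∀ i : Fin 8, xe i ∈ range xe := fun i => ⟨i, rfl⟩
    have m0 : NP ∈ range xe := m 0
    have m1 : sph 0 ∈ range xe := m 1
    have m2 : sph ⟨D1, D2⟩ ∈ range xe := m 2
    have m3 : sph ⟨D1, -D2⟩ ∈ range xe := m 3
    have m4 : sph ⟨-A1, A2⟩ ∈ range xe := m 4
    have m5 : sph ⟨-A1, -A2⟩ ∈ range xe := m 5
    have m6 : sph ⟨s0, 0⟩ ∈ range xe := m 6
    have m7 : sph ⟨1 / s0, 0⟩ ∈ range xe := m 7
    apply iUnion_subset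
    intro i
    have key : ∀ A B C : ℂ, sph A ∈ range xe → sph B ∈ range xe → sph C ∈ range xe →
        convexHull ℝ {NP, sph A, sph B, sph C} ⊆ convexHull ℝ (range xe) := by
      intro A B C hA hB hC
      apply convexHull_mono
      intro y hy
      simp only [mem_insert_iff, mem_singleton_iff] at hy
      rcases hy with rfl | rfl | rfl | rfl
      · exact m0
      · exact hA
      · exact hB
      · exact hC
    fin_cases i
    · exact key _ _ _ m1 m4 m5
    · exact key _ _ _ m1 m5 m3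
    · exact key _ _ _ m1 m6 m3
    · exact key _ _ _ m1 m6 m2
    · exact key _ _ _ m1 m2 m4
    · exact key _ _ _ m6 m2 m7
    · exact key _ _ _ m6 m3 m7
  have hcpt : ∀ A B C : ℂ, MeasurableSet (convexHull ℝ {NP, sph A, sph B, sph C}) := by
    intro A B C
    have : IsCompact (convexHull ℝ {NP, sph A, sph B, sph C}) :=
      (Set.toFinite _).isCompact_convexHull ℝ
    exact this.isClosed.measurableSet
  have hmeas : ∀ i, MeasurableSet (TT i) := by
    intro i
    fin_cases i <;> exact hcpt _ _ _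
  rw [← muh_apply hK.isClosed.measurableSet]
  refine le_trans ?_ (measure_mono hsub)
  rw [measure_iUnion₀ tt_disj (fun i => (hmeas i).nullMeasurableSet), tsum_fintype]
  rw [Finset.sum_congr rfl (fun i _ => muh_apply (hmeas i))]
  have v0 : hvol (TT 0) = ENNReal.ofReal (F3 X ((π - X) / 2) ((π - X) / 2)) := by
    apply iso_vol
    · simp only; linarith [A_norm]
    · simp only; linarith [A_norm]
    · simp only; linarith [AA_cos]
    · exact hX0
    · linarith
  have v1 : hvol (TT 1) = ENNReal.ofReal (F3 X ((π - X) / 2) ((π - X) / 2)) := by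
    apply iso_vol
    · simp only; linarith [A_norm]
    · simp only; linarith [D_norm]
    · simp only; linarith [DA_cos]
    · exact hX0
    · linarith
  have v4 : hvol (TT 4) = ENNReal.ofReal (F3 X ((π - X) / 2) ((π - X) / 2)) := by
    apply iso_vol
    · simp only; linarith [D_norm]
    · simp only; linarith [A_norm]
    · simp only; linarith [DA_cos]
    · exact hX0
    · linarith
  have v2 : hvol (TT 2) = ENNReal.ofReal (F3 (π - 3 * X / 2) X (X / 2)) :=
    vol_B (neg_sq D2)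
  have v3 : hvol (TT 3) = ENNReal.ofReal (F3 (π - 3 * X / 2) X (X / 2)) :=
    vol_B rfl
  have v5 : hvol (TT 5) =
      ENNReal.ofReal (F3 (π - X) ((π - (π - X)) / 2) ((π - (π - X)) / 2)) := vol_C rfl
  have v6 : hvol (TT 6) =
      ENNReal.ofReal (F3 (π - X) ((π - (π - X)) / 2) ((π - (π - X)) / 2)) := vol_C (neg_sq D2)
  have n1 : 0 ≤ F3 X ((π - X) / 2) ((π - X) / 2) :=
    F3_nonneg hX0 (by linarith) (by linarith) (by ring)
  have n2 : 0 ≤ F3 (π - 3 * X / 2) X (X / 2) :=
    F3_nonneg (by linarith) hX0 (by linarith) (by ring)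
  have n3 : 0 ≤ F3 (π - X) ((π - (π - X)) / 2) ((π - (π - X)) / 2) :=
    F3_nonneg (by linarith) (by linarith) (by linarith) (by ring)
  rw [Fin.sum_univ_seven, v0, v1, v2, v3, v4, v5, v6, ← ENNReal.ofReal_add n1 n1,
    ← ENNReal.ofReal_add (by positivity) n2, ← ENNReal.ofReal_add (by positivity) n2,
    ← ENNReal.ofReal_add (by positivity) n1, ← ENNReal.ofReal_add (by positivity) n3,
    ← ENNReal.ofReal_add (by positivity) n3]
  apply le_of_eq
  congr 1
  unfold V0
  ring

end Pool.Agent.L7h81.IP
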