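import Mathlib

/-!
# Hyperplanes are null sets
-/

set_option autoImplicit false

namespace Pool.Agent.L7h81.IP

open MeasureTheory Set

theorem null_hyper {E : Type*} [NormedAddCommGroup E] [NormedSpace ℝ E] [MeasurableSpace E]
    [BorelSpace E] [FiniteDimensional ℝ E] (μ : Measure E) [μ.IsAddHaarMeasure]
    (f : E →ₗ[ℝ] ℝ) (hf : f ≠ 0) (r : ℝ) : μ {x | f x = r} = 0 := by
  rcases eq_empty_or_nonempty {x | f x = r} with h | ⟨x0, h0⟩
  · rw [h]; simp
  · have h0' : f x0 = r := h0
    have e : {x | f x = r} = (fun x => x + (-x0)) ⁻¹' (LinearMap.ker f : Set E) := by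
      ext x
      simp only [mem_preimage, SetLike.mem_coe, LinearMap.mem_ker, map_add, map_neg, h0']
      constructor
      · intro h
        have h' : f x = r := h
        rw [h']; ring
      · intro h
        show f x = r
        linarith
    rw [e, measure_preimage_add_right]
    apply Measure.addHaar_submodule
    intro h
    apply hf
    exact LinearMap.ker_eq_top.1 h

theorem null_line (p q r : ℝ) (h : p ≠ 0 ∨ q ≠ 0) :
    (volume : Measure ℂ) {w | p * w.re + q * w.im = r} = 0 := by
  have := null_hyper (volume : Measure ℂ) (p • Complex.reLm + q • Complex.imLm) ?_ r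
  · simpa using this
  · intro h0
    have h1 := congrArg (fun f => f (1 : ℂ)) h0
    have h2 := congrArg (fun f => f Complex.I) h0
    simp at h1 h2
    rcases h with h | h <;> contradiction

end Pool.Agent.L7h81.IP
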