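import Pool.Agent.L7h81.IP.Comb

/-!
# The planar view from the vertex at the north pole
-/

set_option autoImplicit false

namespace Pool.Agent.L7h81.IP

open Real MeasureTheory Set
open scoped ENNReal

/-- stereographic projection -/
noncomputable def st (y : E3) : ℂ := ⟨y 0 / (1 - y 2), y 1 / (1 - y 2)⟩

theorem sph_st {y : E3} (hy : ‖y‖ = 1) (hn : y ≠ NP) : sph (st y) = y := by
  have h := norm_sq_E3 y
  rw [hy] at h
  have h2 : 1 - y 2 ≠ 0 := by
    intro h2
    have e2 : y 2 = 1 := by linarith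
    rw [e2] at h
    have e0 : y 0 = 0 := by nlinarith [sq_nonneg (y 0), sq_nonneg (y 1)]
    have e1 : y 1 = 0 := by nlinarith [sq_nonneg (y 0), sq_nonneg (y 1)]
    apply hn
    rw [← mk_eta y, e0, e1, e2]
    unfold NP
    rfl
  have hs : ‖st y‖ ^ 2 = (1 + y 2) / (1 - y 2) := by
    rw [norm_sq_C]
    unfold st
    simp only
    field_simp
    nlinarith
  have h3 : 1 + ‖st y‖ ^ 2 = 2 / (1 - y 2) := by rw [hs]; field_simp; ring
  rw [← mk_eta y]
  rw [mk_eta y]
  conv_rhs => rw [← mk_eta y]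
  unfold sph
  rw [h3, hs]
  congr 1
  · apply Complex.ext
    · simp only [Complex.smul_re, smul_eq_mul, st]
      field_simp
    · simp only [Complex.smul_im, smul_eq_mul, st]
      field_simp
  · field_simp
    ring

theorem dt_sph (A B C : ℂ) : dt (sph B - sph A) (sph C - sph A) (NP - sph A) =
    8 / ((1 + ‖A‖ ^ 2) * (1 + ‖B‖ ^ 2) * (1 + ‖C‖ ^ 2)) * om (B - A) (C - A) := by
  have hA : 0 < 1 + ‖A‖ ^ 2 := by positivity
  have hB : 0 < 1 + ‖B‖ ^ 2 := by positivity
  have hC : 0 < 1 + ‖C‖ ^ 2 := by positivity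
  rw [norm_sq_C] at hA hB hC ⊢
  rw [norm_sq_C, norm_sq_C]
  unfold dt sph NP om
  simp only [PiLp.sub_apply, mk_zero, mk_one, mk_two, norm_sq_C, Complex.smul_re, Complex.smul_im,
    smul_eq_mul, Complex.sub_re, Complex.sub_im, Complex.zero_re, Complex.zero_im]
  field_simp
  ring

section
variable {x : Fin 8 → E3} {v : Fin 8}

theorem ne_of_gen (hx : Gen x) {i j : Fin 8} (h : i ≠ j) : x i ≠ x j := by
  intro he
  obtain ⟨k, k1, k2, -⟩ := exists_other i j i
  obtain ⟨l, l1, l2, l3⟩ := exists_other i j k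
  apply hx.gen i j k l h (Ne.symm k1) (Ne.symm l1) (Ne.symm k2) (Ne.symm l2) (Ne.symm l3)
  unfold chi
  rw [he, sub_self]
  simp [dt]

/-- planar coordinate -/
noncomputable def Z (x : Fin 8 → E3) (i : Fin 8) : ℂ := st (x i)

theorem sph_Z (hx : Gen x) (hv : x v = NP) {i : Fin 8} (h : i ≠ v) : sph (Z x i) = x i :=
  sph_st (hx.norm i) (by rw [← hv]; exact ne_of_gen hx h)

theorem Z_inj (hx : Gen x) (hv : x v = NP) {i j : Fin 8} (hi : i ≠ v) (hj : j ≠ v)
    (h : Z x i = Z x j) : i = j := by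
  by_contra hne
  apply ne_of_gen hx hne
  rw [← sph_Z hx hv hi, ← sph_Z hx hv hj, h]

theorem chi_om (hx : Gen x) (hv : x v = NP) {p a b : Fin 8} (hp : p ≠ v) (ha : a ≠ v)
    (hb : b ≠ v) : ∃ c : ℝ, 0 < c ∧ chi x p a b v = c * om (Z x a - Z x p) (Z x b - Z x p) := by
  refine ⟨8 / ((1 + ‖Z x p‖ ^ 2) * (1 + ‖Z x a‖ ^ 2) * (1 + ‖Z x b‖ ^ 2)), by positivity, ?_⟩
  rw [← dt_sph, sph_Z hx hv hp, sph_Z hx hv ha, sph_Z hx hv hb, ← hv]
  rfl

theorem om_pos (hx : Gen x) (hv : x v = NP) {p a b : Fin 8} (h : FS x p a b) (hp : p ≠ v)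
    (ha : a ≠ v) (hb : b ≠ v) : 0 < om (Z x a - Z x p) (Z x b - Z x p) := by
  obtain ⟨c, hc, he⟩ := chi_om hx hv hp ha hb
  have := h.2.2.2 v hp.symm ha.symm hb.symm
  rw [he] at this
  by_contra hcon
  push Not at hcon
  nlinarith

theorem om_neg (hx : Gen x) (hv : x v = NP) {a b j : Fin 8} (h : FS x v a b) (hj : j ≠ v)
    (hja : j ≠ a) (hjb : j ≠ b) : om (Z x b - Z x a) (Z x j - Z x a) < 0 := by
  obtain ⟨c, hc, he⟩ := chi_om hx hv h.1.symm h.2.1.symm hj (p := a) (a := b) (b := j)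
  have := h.2.2.2 j hj hja hjb
  rw [chi_rot, he] at this
  by_contra hcon
  push Not at hcon
  nlinarith

/-- the Delaunay property -/
theorem delaunay (hx : Gen x) (hv : x v = NP) {t : Finset (Fin 8)} (ht : t ∈ Fc x)
    (hvt : v ∉ t) : ∃ k1 k2 k0 : ℝ,
      (∀ j ∈ t, k1 * (Z x j).re + k2 * (Z x j).im + k0 = ‖Z x j‖ ^ 2) ∧
      ∀ j, j ∉ t → j ≠ v → k1 * (Z x j).re + k2 * (Z x j).im + k0 < ‖Z x j‖ ^ 2 := by
  obtain ⟨p, a, b, rfl, hF⟩ := mem_Fc.1 ht
  simp only [Finset.mem_insert, Finset.mem_singleton, not_or] at hvt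
  have hK := hF.2.2.2 v hvt.1 hvt.2.1 hvt.2.2
  set K := chi x p a b v with hKd
  -- the normal vector
  set u := x a - x p with hu
  set w := x b - x p with hw
  set n0 := u 1 * w 2 - u 2 * w 1 with hn0
  set n1 := u 2 * w 0 - u 0 * w 2 with hn1
  set n2 := u 0 * w 1 - u 1 * w 0 with hn2
  set c0 := n0 * x p 0 + n1 * x p 1 + n2 * x p 2 with hc0
  have hchi : ∀ j, chi x p a b j = n0 * x j 0 + n1 * x j 1 + n2 * x j 2 - c0 := by
    intro j
    unfold chi dt
    rw [← hu, ← hw, hc0, hn0, hn1, hn2]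
    simp only [PiLp.sub_apply]
    ring
  have hK2 : K = n2 - c0 := by
    rw [hKd, hchi, hv]
    unfold NP
    rw [mk_zero, mk_one, mk_two]
    simp
  have main : ∀ j, j ≠ v → ‖Z x j‖ ^ 2 - (-2 * n0 / K * (Z x j).re + -2 * n1 / K * (Z x j).im +
      (n2 + c0) / K) = (1 + ‖Z x j‖ ^ 2) / K * chi x p a b j := by
    intro j hj
    rw [hchi, ← sph_Z hx hv hj]
    generalize Z x j = ζ
    have hz : 0 < 1 + ‖ζ‖ ^ 2 := by positivity
    unfold sph
    rw [mk_zero, mk_one, mk_two, Complex.smul_re, Complex.smul_im, smul_eq_mul, smul_eq_mul]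
    field_simp
    rw [hK2]
    ring
  refine ⟨-2 * n0 / K, -2 * n1 / K, (n2 + c0) / K, ?_, ?_⟩
  · intro j hj
    have hjv : j ≠ v := by
      rintro rfl
      simp only [Finset.mem_insert, Finset.mem_singleton] at hj
      tauto
    have h0 : chi x p a b j = 0 := by
      simp only [Finset.mem_insert, Finset.mem_singleton] at hj
      rcases hj with rfl | rfl | rfl
      · unfold chi; simp [dt]
      · unfold chi dt; ring
      · unfold chi dt; ring
    have := main j hjv
    rw [h0, mul_zero] at this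
    linarith
  · intro j hj hjv
    simp only [Finset.mem_insert, Finset.mem_singleton, not_or] at hj
    have h0 := hF.2.2.2 j hj.1 hj.2.1 hj.2.2
    have := main j hjv
    have hpos : 0 < (1 + ‖Z x j‖ ^ 2) / K * chi x p a b j := by positivity
    linarith

/-- two triangles at `p` whose cones share an interior direction are equal -/
theorem cone_unique (hx : Gen x) (hv : x v = NP) {t t' : Finset (Fin 8)} (ht : t ∈ Fc x)
    (ht' : t' ∈ Fc x) (hvt : v ∉ t) (hvt' : v ∉ t') {p a b c d : Fin 8}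
    (e : t = {p, a, b}) (e' : t' = {p, c, d}) {α β γ δ : ℝ} (hα : 0 < α) (hβ : 0 < β)
    (hγ : 0 < γ) (hδ : 0 < δ)
    (h : α • (Z x a - Z x p) + β • (Z x b - Z x p) = γ • (Z x c - Z x p) + δ • (Z x d - Z x p)) :
    t = t' := by
  obtain ⟨k1, k2, k0, hk, hk'⟩ := delaunay hx hv ht hvt
  obtain ⟨l1, l2, l0, hl, hl'⟩ := delaunay hx hv ht' hvt'
  have pt : p ∈ t := by rw [e]; simp
  have at' : a ∈ t := by rw [e]; simp
  have bt : b ∈ t := by rw [e]; simp
  have pt' : p ∈ t' := by rw [e']; simp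
  have ct : c ∈ t' := by rw [e']; simp
  have dt' : d ∈ t' := by rw [e']; simp
  have hre := congrArg Complex.re h
  have him := congrArg Complex.im h
  simp only [Complex.add_re, Complex.add_im, Complex.smul_re, Complex.smul_im, Complex.sub_re,
    Complex.sub_im, smul_eq_mul] at hre him
  have hlt : ∀ j ∈ t, l1 * (Z x j).re + l2 * (Z x j).im + l0 ≤ ‖Z x j‖ ^ 2 := by
    intro j hj
    by_cases hjt : j ∈ t'
    · exact (hl j hjt).le
    · exact (hl' j hjt (by rintro rfl; exact hvt hj)).le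
  have hkt : ∀ j ∈ t', k1 * (Z x j).re + k2 * (Z x j).im + k0 ≤ ‖Z x j‖ ^ 2 := by
    intro j hj
    by_cases hjt : j ∈ t
    · exact (hk j hjt).le
    · exact (hk' j hjt (by rintro rfl; exact hvt' hj)).le
  have a1 := hk a at'
  have a2 := hlt a at'
  have b1 := hk b bt
  have b2 := hlt b bt
  have c1 := hl c ct
  have c2 := hkt c ct
  have d1 := hl d dt'
  have d2 := hkt d dt'
  have p1 := hk p pt
  have p2 := hl p pt'
  -- difference of the two affine functions
  set da := ‖Z x a‖ ^ 2 - (l1 * (Z x a).re + l2 * (Z x a).im + l0) with hda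
  set db := ‖Z x b‖ ^ 2 - (l1 * (Z x b).re + l2 * (Z x b).im + l0) with hdb
  set dc := ‖Z x c‖ ^ 2 - (k1 * (Z x c).re + k2 * (Z x c).im + k0) with hdc
  set dd := ‖Z x d‖ ^ 2 - (k1 * (Z x d).re + k2 * (Z x d).im + k0) with hdd
  have da0 : 0 ≤ da := by linarith
  have db0 : 0 ≤ db := by linarith
  have dc0 : 0 ≤ dc := by linarith
  have dd0 : 0 ≤ dd := by linarith
  have key : α * da + β * db + γ * dc + δ * dd = 0 := by
    rw [hda, hdb, hdc, hdd, ← a1, ← b1, ← c1, ← d1]
    linear_combination (k1 - l1) * hre + (k2 - l2) * him + (α + β - γ - δ) * (p1 - p2)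
  have ea : da = 0 := by
    have h1 : 0 ≤ α * da := by positivity
    have h2 : 0 ≤ β * db := by positivity
    have h3 : 0 ≤ γ * dc := by positivity
    have h4 : 0 ≤ δ * dd := by positivity
    have h5 : α * da = 0 := by linarith
    rcases mul_eq_zero.1 h5 with h | h
    · exact absurd h hα.ne'
    · exact h
  have eb : db = 0 := by
    have h1 : 0 ≤ α * da := by positivity
    have h2 : 0 ≤ β * db := by positivity
    have h3 : 0 ≤ γ * dc := by positivity
    have h4 : 0 ≤ δ * dd := by positivity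
    have h5 : β * db = 0 := by linarith
    rcases mul_eq_zero.1 h5 with h | h
    · exact absurd h hβ.ne'
    · exact h
  have hat : a ∈ t' := by
    by_contra hcon
    have := hl' a hcon (by rintro rfl; exact hvt at')
    linarith
  have hbt : b ∈ t' := by
    by_contra hcon
    have := hl' b hcon (by rintro rfl; exact hvt bt)
    linarith
  apply Finset.eq_of_subset_of_card_le
  · rw [e]
    intro i hi
    simp only [Finset.mem_insert, Finset.mem_singleton] at hi
    rcases hi with rfl | rfl | rfl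
    · exact pt'
    · exact hat
    · exact hbt
  · rw [card_facet ht, card_facet ht']

end

end Pool.Agent.L7h81.IP
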