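import Pool.Agent.L7h81.IP.Bound
import Pool.Agent.L7h81.IP.Cover

/-!
# The upper bound for generic configurations
-/

set_option autoImplicit false

namespace Pool.Agent.L7h81.IP

open Real MeasureTheory Set
open scoped ENNReal

theorem dt_linear (R : E3 →ₗ[ℝ] E3) : ∃ c : ℝ, ∀ u w r, dt (R u) (R w) (R r) = c * dt u w r := by
  refine ⟨dt (R (mk 1 0)) (R (mk Complex.I 0)) (R (mk 0 1)), fun u w r => ?_⟩
  have e : ∀ y : E3, R y = y 0 • R (mk 1 0) + y 1 • R (mk Complex.I 0) + y 2 • R (mk 0 1) := by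
    intro y
    have e : y = y 0 • mk 1 0 + y 1 • mk Complex.I 0 + y 2 • mk 0 1 := by
      rw [mk_smul, mk_smul, mk_smul, mk_add, mk_add]
      conv_lhs => rw [← mk_eta y]
      congr 1
      · apply Complex.ext <;> simp
      · simp
    conv_lhs => rw [e]
    rw [map_add, map_add, map_smul, map_smul, map_smul]
  rw [e u, e w, e r]
  generalize R (mk 1 0) = f0
  generalize R (mk Complex.I 0) = f1
  generalize R (mk 0 1) = f2
  unfold dt
  simp only [PiLp.add_apply, PiLp.smul_apply, smul_eq_mul]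
  ring

theorem dt_isom (R : E3 ≃ₗᵢ[ℝ] E3) : ∃ c : ℝ, c ≠ 0 ∧
    ∀ u w r, dt (R u) (R w) (R r) = c * dt u w r := by
  obtain ⟨c, hc⟩ := dt_linear R.toLinearEquiv.toLinearMap
  obtain ⟨c', hc'⟩ := dt_linear R.symm.toLinearEquiv.toLinearMap
  refine ⟨c, ?_, hc⟩
  rintro rfl
  have h1 := hc (mk 1 0) (mk Complex.I 0) (mk 0 1)
  have h2 := hc' (R (mk 1 0)) (R (mk Complex.I 0)) (R (mk 0 1))
  have h3 : dt (R (mk 1 0)) (R (mk Complex.I 0)) (R (mk 0 1)) = 0 := by
    rw [zero_mul] at h1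
    exact h1
  rw [h3, mul_zero] at h2
  have h4 : dt (mk 1 0) (mk Complex.I 0) (mk 0 1) = 0 := by
    have e : ∀ y : E3, (R.symm.toLinearEquiv.toLinearMap) (R y) = y := by
      intro y
      exact R.symm_apply_apply y
    rwa [e, e, e] at h2
  unfold dt at h4
  simp only [mk_zero, mk_one, mk_two] at h4
  norm_num at h4

theorem hvol_isom (R : E3 ≃ₗᵢ[ℝ] E3) (A : Set E3) : hvol (R '' A) = hvol A := by
  have h := R.measurePreserving.setLIntegral_comp_preimage_emb
    R.toHomeomorph.measurableEmbedding (fun x => ENNReal.ofReal (1 / (1 - ‖x‖ ^ 2) ^ 2)) (R '' A)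
  unfold hvol
  rw [← h, R.injective.preimage_image]
  simp only [LinearIsometryEquiv.norm_map]

theorem hull_isom {n : ℕ} (R : E3 ≃ₗᵢ[ℝ] E3) (x : Fin n → E3) :
    R '' (convexHull ℝ (range x)) = convexHull ℝ (range (fun i => R (x i))) := by
  have := R.toLinearEquiv.toLinearMap.image_convexHull (range x)
  rw [← range_comp] at this
  exact this

theorem exists_rot {y : E3} (hy : ‖y‖ = 1) : ∃ R : E3 ≃ₗᵢ[ℝ] E3, R y = NP := by
  refine ⟨(ℝ ∙ (y - NP))ᗮ.reflection, ?_⟩
  exact Submodule.reflection_sub (by rw [hy, norm_NP])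

section
variable {x : Fin 8 → E3}

theorem gen_isom (hx : Gen x) (R : E3 ≃ₗᵢ[ℝ] E3) : Gen (fun i => R (x i)) := by
  obtain ⟨c, hc0, hc⟩ := dt_isom R
  refine ⟨fun i => by rw [R.norm_map]; exact hx.norm i, ?_⟩
  intro i j k l h1 h2 h3 h4 h5 h6
  have : chi (fun i => R (x i)) i j k l = c * chi x i j k l := by
    unfold chi
    rw [← hc, map_sub, map_sub, map_sub]
  rw [this]
  exact mul_ne_zero hc0 (hx.gen i j k l h1 h2 h3 h4 h5 h6)

theorem Nb_isom (hx : Gen x) (R : E3 ≃ₗᵢ[ℝ] E3) (p : Fin 8) :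
    Nb (fun i => R (x i)) p = Nb x p := by
  obtain ⟨c, hc0, hc⟩ := dt_isom R
  have hchi : ∀ i j k l, chi (fun i => R (x i)) i j k l = c * chi x i j k l := by
    intro i j k l
    unfold chi
    rw [← hc, map_sub, map_sub, map_sub]
  ext a
  rw [mem_Nb, mem_Nb]
  rcases lt_or_gt_of_ne hc0 with h | h
  · have key : ∀ a b, FS (fun i => R (x i)) p a b ↔ FS x p b a := by
      intro a b
      constructor
      · rintro ⟨h1, h2, h3, h4⟩
        refine ⟨h2, h1, h3.symm, fun l l1 l2 l3 => ?_⟩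
        have := h4 l l1 l3 l2
        rw [hchi] at this
        rw [chi_swap]
        by_contra hcon
        push Not at hcon
        nlinarith
      · rintro ⟨h1, h2, h3, h4⟩
        refine ⟨h2, h1, h3.symm, fun l l1 l2 l3 => ?_⟩
        have := h4 l l1 l3 l2
        rw [chi_swap] at this
        rw [hchi]
        nlinarith
    constructor
    · rintro ⟨b, hb⟩
      rw [key] at hb
      obtain ⟨c, hc⟩ := FS_exists hx (FS_cyc (FS_cyc hb))
      exact ⟨c, FS_cyc (FS_cyc hc)⟩
    · rintro ⟨b, hb⟩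
      obtain ⟨c, hc⟩ := FS_exists hx hb
      exact ⟨c, (key a c).2 hc⟩
  · have key : ∀ a b, FS (fun i => R (x i)) p a b ↔ FS x p a b := by
      intro a b
      constructor
      · rintro ⟨h1, h2, h3, h4⟩
        refine ⟨h1, h2, h3, fun l l1 l2 l3 => ?_⟩
        have := h4 l l1 l2 l3
        rw [hchi] at this
        by_contra hcon
        push Not at hcon
        nlinarith
      · rintro ⟨h1, h2, h3, h4⟩
        refine ⟨h1, h2, h3, fun l l1 l2 l3 => ?_⟩
        rw [hchi]
        exact mul_pos h (h4 l l1 l2 l3)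
    simp only [key]

theorem gen_bound (hx : Gen x) : hvol (convexHull ℝ (range x)) ≤ ENNReal.ofReal V0 := by
  classical
  obtain ⟨v, -, hv⟩ := Finset.exists_max_image Finset.univ (fun u => (Nb x u).card)
    Finset.univ_nonempty
  obtain ⟨R, hR⟩ := exists_rot (hx.norm v)
  have hy := gen_isom hx R
  have h1 : hvol (convexHull ℝ (range x)) = hvol (convexHull ℝ (range (fun i => R (x i)))) := by
    rw [← hull_isom, hvol_isom]
  rw [h1]
  refine (cover hy v).trans ?_
  have h2 := sum_bound hy (v := v) hR (fun u => by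
    rw [Nb_isom hx, Nb_isom hx]
    exact hv u (Finset.mem_univ _))
  rw [← hR] at h2
  exact h2

end

end Pool.Agent.L7h81.IP
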