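import Pool.Agent.L7h81.IP.Tri2

/-!
# Hyperbolic volume in the Klein model, and ideal tetrahedra with a vertex at the north pole
-/

set_option autoImplicit false

namespace Pool.Agent.L7h81.IP

open Real MeasureTheory Set
open scoped ENNReal

/-- Euclidean 3-space -/
abbrev E3 : Type := EuclideanSpace ℝ (Fin 3)

/-- hyperbolic volume in the Klein model (the open unit ball) -/
noncomputable def hvol (A : Set E3) : ℝ≥0∞ :=
  ∫⁻ x in A, ENNReal.ofReal (1 / (1 - ‖x‖ ^ 2) ^ 2)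

/-- points of the convex hull of a finite family -/
theorem mem_hull_range {E ι : Type*} [AddCommGroup E] [Module ℝ E] [Fintype ι] (v : ι → E)
    (x : E) : x ∈ convexHull ℝ (range v) ↔
      ∃ w : ι → ℝ, (∀ i, 0 ≤ w i) ∧ ∑ i, w i = 1 ∧ ∑ i, w i • v i = x := by
  classical
  constructor
  · intro h
    have hsub : convexHull ℝ (range v) ⊆
        {x | ∃ w : ι → ℝ, (∀ i, 0 ≤ w i) ∧ ∑ i, w i = 1 ∧ ∑ i, w i • v i = x} := by
      apply convexHull_min
      · rintro _ ⟨i, rfl⟩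
        refine ⟨Pi.single i 1, ?_, ?_, ?_⟩
        · intro j
          by_cases h : j = i
          · subst h; simp
          · simp [Pi.single_apply, h]
        · simp
        · simp [Pi.single_apply, ite_smul]
      · rintro _ ⟨w, w0, w1, rfl⟩ _ ⟨w', w0', w1', rfl⟩ a b ha hb hab
        refine ⟨fun i => a * w i + b * w' i, fun i => by
          have := w0 i; have := w0' i; positivity, ?_, ?_⟩
        · rw [Finset.sum_add_distrib, ← Finset.mul_sum, ← Finset.mul_sum, w1, w1']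
          linarith
        · simp only [add_smul, mul_smul, Finset.sum_add_distrib, ← Finset.smul_sum]
    exact hsub h
  · rintro ⟨w, w0, w1, rfl⟩
    exact (convex_convexHull ℝ _).sum_mem (fun i _ => w0 i) w1
      (fun i _ => subset_convexHull _ _ ⟨i, rfl⟩)

/-- the point with horizontal part `w` and height `z` -/
noncomputable def mk (w : ℂ) (z : ℝ) : E3 := !₂[w.re, w.im, z]

theorem mk_zero (w : ℂ) (z : ℝ) : mk w z 0 = w.re := rfl
theorem mk_one (w : ℂ) (z : ℝ) : mk w z 1 = w.im := rfl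
theorem mk_two (w : ℂ) (z : ℝ) : mk w z 2 = z := rfl

theorem mk_eta (x : E3) : mk (⟨x 0, x 1⟩ : ℂ) (x 2) = x := by
  ext i
  fin_cases i <;> rfl

theorem mk_inj {w w' : ℂ} {z z' : ℝ} (h : mk w z = mk w' z') : w = w' ∧ z = z' := by
  have h0 := congrArg (fun x : E3 => x 0) h
  have h1 := congrArg (fun x : E3 => x 1) h
  have h2 := congrArg (fun x : E3 => x 2) h
  exact ⟨Complex.ext h0 h1, h2⟩

theorem mk_add (w w' : ℂ) (z z' : ℝ) : mk w z + mk w' z' = mk (w + w') (z + z') := by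
  ext i
  fin_cases i <;> rfl

theorem mk_smul (r : ℝ) (w : ℂ) (z : ℝ) : r • mk w z = mk (r • w) (r * z) := by
  ext i
  fin_cases i <;> simp [mk]

theorem norm_sq_E3 (x : E3) : ‖x‖ ^ 2 = x 0 ^ 2 + x 1 ^ 2 + x 2 ^ 2 := by
  rw [EuclideanSpace.norm_eq, Real.sq_sqrt (by positivity)]
  simp [Fin.sum_univ_three]

theorem norm_sq_C (w : ℂ) : ‖w‖ ^ 2 = w.re ^ 2 + w.im ^ 2 := by
  rw [Complex.sq_norm, Complex.normSq_apply]; ring

theorem norm_mk (w : ℂ) (z : ℝ) : ‖mk w z‖ ^ 2 = ‖w‖ ^ 2 + z ^ 2 := by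
  rw [norm_sq_E3, mk_zero, mk_one, mk_two, norm_sq_C]

theorem mk_preserving : MeasurePreserving (fun p : ℝ × ℂ => mk p.2 p.1) := by
  have h1 : MeasurePreserving (fun p : ℝ × ℂ => (p.1, Complex.measurableEquivPi p.2)) :=
    (MeasurePreserving.id volume).prod Complex.volume_preserving_equiv_pi
  have h2 := (volume_preserving_piFinSuccAbove (fun _ : Fin 3 => ℝ) 2).symm
  have h3 := PiLp.volume_preserving_toLp (Fin 3)
  have h4 := (h3.comp h2).comp h1
  convert h4 using 1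
  funext p
  ext i
  fin_cases i <;> rfl

theorem lintegral_E3 (F : E3 → ℝ≥0∞) (hF : Measurable F) :
    ∫⁻ x, F x = ∫⁻ z : ℝ, ∫⁻ w : ℂ, F (mk w z) := by
  rw [← mk_preserving.lintegral_comp hF, Measure.volume_eq_prod]
  exact lintegral_prod (fun p : ℝ × ℂ => F (mk p.2 p.1))
    (hF.comp mk_preserving.measurable).aemeasurable

theorem lintegral_scale {r : ℝ} (hr : 0 < r) (G : ℂ → ℝ≥0∞) :
    ∫⁻ w, G w = ENNReal.ofReal (r ^ 2) * ∫⁻ ζ : ℂ, G (r • ζ) := by
  have h1 : ∫⁻ ζ : ℂ, G (r • ζ) = ENNReal.ofReal |(r ^ 2)⁻¹| * ∫⁻ w, G w := by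
    have h2 := Measure.map_addHaar_smul (volume : Measure ℂ) hr.ne'
    rw [Complex.finrank_real_complex] at h2
    have hemb : MeasurableEmbedding (fun ζ : ℂ => r • ζ) :=
      (Homeomorph.smulOfNeZero r hr.ne').measurableEmbedding
    rw [← hemb.lintegral_map, h2, lintegral_smul_measure, smul_eq_mul]
  rw [h1, ← mul_assoc, ← ENNReal.ofReal_mul (by positivity), abs_of_pos (by positivity),
    mul_inv_cancel₀ (by positivity), ENNReal.ofReal_one, one_mul]

/-- the north pole -/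
noncomputable def NP : E3 := mk 0 1

/-- inverse stereographic projection from the north pole -/
noncomputable def sph (A : ℂ) : E3 :=
  mk ((2 / (1 + ‖A‖ ^ 2) : ℝ) • A) ((‖A‖ ^ 2 - 1) / (1 + ‖A‖ ^ 2))

theorem norm_sph (A : ℂ) : ‖sph A‖ = 1 := by
  have : ‖sph A‖ ^ 2 = 1 := by
    unfold sph
    rw [norm_mk, norm_smul, Real.norm_of_nonneg (by positivity)]
    have : 0 < 1 + ‖A‖ ^ 2 := by positivity
    field_simp
    ring
  have h0 := norm_nonneg (sph A)
  nlinarith

theorem norm_NP : ‖NP‖ = 1 := by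
  have : ‖NP‖ ^ 2 = 1 := by
    unfold NP
    rw [norm_mk]
    simp
  have h0 := norm_nonneg NP
  nlinarith

section
variable {A B C : ℂ}

/-- the power of a point of the triangle in barycentric coordinates -/
theorem power_bary {k1 k2 k0 : ℝ}
    (hA : k1 * A.re + k2 * A.im + k0 = ‖A‖ ^ 2) (hB : k1 * B.re + k2 * B.im + k0 = ‖B‖ ^ 2)
    (hC : k1 * C.re + k2 * C.im + k0 = ‖C‖ ^ 2) {l m n : ℝ} (h : l + m + n = 1) :
    k1 * (l • A + m • B + n • C).re + k2 * (l • A + m • B + n • C).im + k0 -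
      ‖l • A + m • B + n • C‖ ^ 2 =
      l * m * ‖A - B‖ ^ 2 + m * n * ‖B - C‖ ^ 2 + l * n * ‖A - C‖ ^ 2 := by
  rw [norm_sq_C] at hA hB hC
  simp only [norm_sq_C, Complex.add_re, Complex.add_im, Complex.real_smul, Complex.mul_re,
    Complex.mul_im, Complex.ofReal_re, Complex.ofReal_im, zero_mul, sub_zero, add_zero,
    Complex.sub_re, Complex.sub_im]
  have hn : n = 1 - l - m := by linarith
  subst hn
  linear_combination l * hA + m * hB + (1 - l - m) * hC

theorem exists_affine (h : om (B - A) (C - A) ≠ 0) : ∃ k1 k2 k0 : ℝ,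
    k1 * A.re + k2 * A.im + k0 = ‖A‖ ^ 2 ∧ k1 * B.re + k2 * B.im + k0 = ‖B‖ ^ 2 ∧
    k1 * C.re + k2 * C.im + k0 = ‖C‖ ^ 2 := by
  set o := om (B - A) (C - A) with ho
  have hoe : o = (B.re - A.re) * (C.im - A.im) - (B.im - A.im) * (C.re - A.re) := by
    simp [ho, om]
  set b := ‖B‖ ^ 2 - ‖A‖ ^ 2
  set c := ‖C‖ ^ 2 - ‖A‖ ^ 2
  refine ⟨(b * (C.im - A.im) - c * (B.im - A.im)) / o,
    (c * (B.re - A.re) - b * (C.re - A.re)) / o,
    ‖A‖ ^ 2 - (b * (C.im - A.im) - c * (B.im - A.im)) / o * A.re -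
      (c * (B.re - A.re) - b * (C.re - A.re)) / o * A.im, by ring, ?_, ?_⟩
  · field_simp
    rw [hoe]
    ring
  · field_simp
    rw [hoe]
    ring

theorem mem_tet {k1 k2 k0 : ℝ}
    (hA : k1 * A.re + k2 * A.im + k0 = ‖A‖ ^ 2) (hB : k1 * B.re + k2 * B.im + k0 = ‖B‖ ^ 2)
    (hC : k1 * C.re + k2 * C.im + k0 = ‖C‖ ^ 2) {z : ℝ} (hz : z < 1) (ζ : ℂ) :
    mk ((1 - z) • ζ) z ∈ convexHull ℝ {NP, sph A, sph B, sph C} ↔
      ζ ∈ convexHull ℝ {A, B, C} ∧ (1 - z) * (1 + (k1 * ζ.re + k2 * ζ.im + k0)) ≤ 2 := by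
  have r1 : ({NP, sph A, sph B, sph C} : Set E3) = range ![NP, sph A, sph B, sph C] := by
    simp [Matrix.range_cons, Matrix.range_empty]
    ext x; simp; tauto
  have r2 : ({A, B, C} : Set ℂ) = range ![A, B, C] := by
    simp [Matrix.range_cons, Matrix.range_empty]
    ext x; simp; tauto
  have z1 : 0 < 1 - z := by linarith
  have pA : 0 < 1 + ‖A‖ ^ 2 := by positivity
  have pB : 0 < 1 + ‖B‖ ^ 2 := by positivity
  have pC : 0 < 1 + ‖C‖ ^ 2 := by positivity
  rw [r1, r2, mem_hull_range, mem_hull_range]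
  constructor
  · rintro ⟨w, w0, w1, w2⟩
    rw [Fin.sum_univ_four] at w1 w2
    simp only [Matrix.cons_val_zero, Matrix.cons_val_one, Matrix.cons_val] at w2
    unfold NP sph at w2
    rw [mk_smul, mk_smul, mk_smul, mk_smul, mk_add, mk_add, mk_add] at w2
    obtain ⟨e1, e2⟩ := mk_inj w2
    set a := w 1 * (2 / (1 + ‖A‖ ^ 2)) with ha
    set b := w 2 * (2 / (1 + ‖B‖ ^ 2)) with hb
    set c := w 3 * (2 / (1 + ‖C‖ ^ 2)) with hc
    have a0 : 0 ≤ a := by have := w0 1; positivity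
    have b0 : 0 ≤ b := by have := w0 2; positivity
    have c0 : 0 ≤ c := by have := w0 3; positivity
    have ew1 : w 1 = a * (1 + ‖A‖ ^ 2) / 2 := by rw [ha]; field_simp
    have ew2 : w 2 = b * (1 + ‖B‖ ^ 2) / 2 := by rw [hb]; field_simp
    have ew3 : w 3 = c * (1 + ‖C‖ ^ 2) / 2 := by rw [hc]; field_simp
    have hsum : a + b + c = 1 - z := by
      have q1 : w 1 * ((‖A‖ ^ 2 - 1) / (1 + ‖A‖ ^ 2)) = w 1 - a := by rw [ha]; field_simp; ring
      have q2 : w 2 * ((‖B‖ ^ 2 - 1) / (1 + ‖B‖ ^ 2)) = w 2 - b := by rw [hb]; field_simp; ring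
      have q3 : w 3 * ((‖C‖ ^ 2 - 1) / (1 + ‖C‖ ^ 2)) = w 3 - c := by rw [hc]; field_simp; ring
      rw [q1, q2, q3] at e2
      linarith
    have h3 : (1 - z) • ζ = a • A + b • B + c • C := by
      rw [← e1, ha, hb, hc]
      simp only [smul_smul, smul_zero, zero_add]
    have hζ : ζ = (a / (1 - z)) • A + (b / (1 - z)) • B + (c / (1 - z)) • C := by
      have h4 : ζ = (1 - z)⁻¹ • ((1 - z) • ζ) := by
        rw [smul_smul, inv_mul_cancel₀ z1.ne', one_smul]
      rw [h4, h3]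
      simp only [smul_add, smul_smul]
      rw [div_eq_inv_mul, div_eq_inv_mul, div_eq_inv_mul]
    refine ⟨⟨![a / (1 - z), b / (1 - z), c / (1 - z)], ?_, ?_, ?_⟩, ?_⟩
    · intro i; fin_cases i <;> simp <;> positivity
    · simp [Fin.sum_univ_three]
      field_simp
      linarith
    · simp [Fin.sum_univ_three]
      rw [hζ]
      simp
    · have hl : (1 - z) * (1 + (k1 * ζ.re + k2 * ζ.im + k0)) =
          a * (1 + ‖A‖ ^ 2) + b * (1 + ‖B‖ ^ 2) + c * (1 + ‖C‖ ^ 2) := by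
        have hre : (1 - z) * ζ.re = a * A.re + b * B.re + c * C.re := by
          have := congrArg Complex.re h3
          simpa [Complex.smul_re] using this
        have him : (1 - z) * ζ.im = a * A.im + b * B.im + c * C.im := by
          have := congrArg Complex.im h3
          simpa [Complex.smul_im] using this
        rw [← hA, ← hB, ← hC]
        linear_combination k1 * hre + k2 * him - (1 + k0) * hsum
      rw [hl]
      have := w0 0
      rw [ew1, ew2, ew3] at w1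
      linarith
  · rintro ⟨⟨w, w0, w1, w2⟩, hle⟩
    rw [Fin.sum_univ_three] at w1 w2
    simp only [Matrix.cons_val_zero, Matrix.cons_val_one, Matrix.cons_val] at w2
    set a := w 0 with ha
    set b := w 1 with hb
    set c := w 2 with hc
    have a0 : 0 ≤ a := w0 0
    have b0 : 0 ≤ b := w0 1
    have c0 : 0 ≤ c := w0 2
    have hl : (1 - z) * (1 + (k1 * ζ.re + k2 * ζ.im + k0)) =
        (1 - z) * (a * (1 + ‖A‖ ^ 2) + b * (1 + ‖B‖ ^ 2) + c * (1 + ‖C‖ ^ 2)) := by
      rw [← w2, ← hA, ← hB, ← hC]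
      simp only [Complex.add_re, Complex.add_im, Complex.smul_re, Complex.smul_im, smul_eq_mul]
      linear_combination (-(1 - z) * (1 + k0)) * w1
    rw [hl] at hle
    refine ⟨![1 - (1 - z) * (a * (1 + ‖A‖ ^ 2) + b * (1 + ‖B‖ ^ 2) + c * (1 + ‖C‖ ^ 2)) / 2,
      (1 - z) * (a * (1 + ‖A‖ ^ 2)) / 2, (1 - z) * (b * (1 + ‖B‖ ^ 2)) / 2,
      (1 - z) * (c * (1 + ‖C‖ ^ 2)) / 2], ?_, ?_, ?_⟩
    · intro i
      fin_cases i
      · simp; linarith
      · simp; positivity
      · simp; positivity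
      · simp; positivity
    · simp [Fin.sum_univ_four]
      ring
    · simp only [Fin.sum_univ_four, Matrix.cons_val_zero, Matrix.cons_val_one, Matrix.cons_val]
      unfold NP sph
      rw [mk_smul, mk_smul, mk_smul, mk_smul, mk_add, mk_add, mk_add]
      have g1 : (1 - z) * (a * (1 + ‖A‖ ^ 2)) / 2 * (2 / (1 + ‖A‖ ^ 2)) = (1 - z) * a := by
        field_simp
      have g2 : (1 - z) * (b * (1 + ‖B‖ ^ 2)) / 2 * (2 / (1 + ‖B‖ ^ 2)) = (1 - z) * b := by
        field_simp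
      have g3 : (1 - z) * (c * (1 + ‖C‖ ^ 2)) / 2 * (2 / (1 + ‖C‖ ^ 2)) = (1 - z) * c := by
        field_simp
      congr 1
      · rw [← w2]
        simp only [smul_smul, g1, g2, g3, smul_zero, zero_add, smul_add]
      · field_simp
        linear_combination (-2 * (1 - z)) * w1

end

end Pool.Agent.L7h81.IP
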