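import Pool.Agent.L7h81.IP.Tet
import Pool.Agent.L7h81.IP.Null

/-!
# The volume of an ideal tetrahedron with a vertex at the north pole
-/

set_option autoImplicit false

namespace Pool.Agent.L7h81.IP

open Real MeasureTheory Set
open scoped ENNReal

/-- inner integral -/
theorem inner_tet {m l : ℝ} (hm : 0 ≤ m) (hl : m < l) :
    ∫⁻ z in Ico ((l - 1) / (l + 1)) 1, ENNReal.ofReal (1 / ((1 + z) - (1 - z) * m) ^ 2) =
      ENNReal.ofReal (1 / (2 * (l - m))) := by
  set z0 := (l - 1) / (l + 1) with hz0
  have hl0 : 0 < l + 1 := by linarith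
  have hz : z0 ≤ 1 := by
    rw [hz0, div_le_one hl0]; linarith
  have hpos : ∀ z, z0 ≤ z → 0 < (1 + z) - (1 - z) * m := by
    intro z hz
    have h1 : (1 + z) - (1 - z) * m = (1 - m) + (1 + m) * z := by ring
    have h2 : (1 + m) * z0 ≤ (1 + m) * z := by
      apply mul_le_mul_of_nonneg_left hz; linarith
    have h3 : (1 - m) + (1 + m) * z0 = 2 * (l - m) / (l + 1) := by
      rw [hz0]; field_simp; ring
    have h4 : 0 < 2 * (l - m) / (l + 1) := by
      apply div_pos _ hl0; linarith
    linarith
  have hd : ∀ z ∈ uIcc z0 1, HasDerivAt (fun z => -(1 / (1 + m)) * ((1 + z) - (1 - z) * m)⁻¹)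
      (1 / ((1 + z) - (1 - z) * m) ^ 2) z := by
    intro z hzz
    rw [uIcc_of_le hz] at hzz
    have h1 := (hpos z hzz.1).ne'
    have h2 : HasDerivAt (fun z : ℝ => (1 + z) - (1 - z) * m) (1 + m) z := by
      have := ((hasDerivAt_id z).const_add 1).sub (((hasDerivAt_id z).const_sub 1).mul_const m)
      refine this.congr_deriv ?_
      ring
    have := (h2.inv h1).const_mul (-(1 / (1 + m)) : ℝ)
    refine this.congr_deriv ?_
    have : 1 + m ≠ 0 := by linarith
    field_simp
  have hc : ContinuousOn (fun z => 1 / ((1 + z) - (1 - z) * m) ^ 2) (uIcc z0 1) := by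
    apply ContinuousOn.div continuousOn_const (by fun_prop)
    intro z hzz
    rw [uIcc_of_le hz] at hzz
    have := hpos z hzz.1
    positivity
  have hi : IntervalIntegrable (fun z => 1 / ((1 + z) - (1 - z) * m) ^ 2) volume z0 1 :=
    hc.intervalIntegrable
  have h := intervalIntegral.integral_eq_sub_of_hasDerivAt hd hi
  rw [intervalIntegral.integral_of_le hz, integral_Ioc_eq_integral_Ioo] at h
  rw [← Measure.restrict_congr_set Ioo_ae_eq_Ico, ← ofReal_integral_eq_lintegral_ofReal, h]
  · congr 1
    have h3 : (1 + z0) - (1 - z0) * m = 2 * (l - m) / (l + 1) := by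
      rw [hz0]; field_simp; ring
    rw [h3]
    have h4 : l - m ≠ 0 := by linarith
    have h5 : 1 + m ≠ 0 := by linarith
    field_simp
    ring
  · rw [intervalIntegrable_iff_integrableOn_Ioo_of_le hz] at hi
    exact hi
  · rw [Filter.EventuallyLE, ae_restrict_iff' measurableSet_Ioo]
    filter_upwards with z hzz
    have h1 := hpos z hzz.1.le
    simp only [Pi.zero_apply]
    positivity

section
variable {A B C : ℂ}

theorem power_pos {k1 k2 k0 : ℝ} (h : om (B - A) (C - A) ≠ 0)
    (hA : k1 * A.re + k2 * A.im + k0 = ‖A‖ ^ 2) (hB : k1 * B.re + k2 * B.im + k0 = ‖B‖ ^ 2)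
    (hC : k1 * C.re + k2 * C.im + k0 = ‖C‖ ^ 2) {ζ : ℂ} (hζ : ζ ∈ convexHull ℝ {A, B, C})
    (nA : ζ ≠ A) (nB : ζ ≠ B) (nC : ζ ≠ C) :
    ‖ζ‖ ^ 2 < k1 * ζ.re + k2 * ζ.im + k0 := by
  have r2 : ({A, B, C} : Set ℂ) = range ![A, B, C] := by
    simp [Matrix.range_cons, Matrix.range_empty]
    ext x; simp; tauto
  rw [r2, mem_hull_range] at hζ
  obtain ⟨w, w0, w1, w2⟩ := hζ
  rw [Fin.sum_univ_three] at w1 w2
  simp only [Matrix.cons_val_zero, Matrix.cons_val_one, Matrix.cons_val] at w2
  have hp := power_bary hA hB hC w1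
  rw [w2] at hp
  have hAB : 0 < ‖A - B‖ ^ 2 := by
    have : A - B ≠ 0 := by
      intro h0
      have : B - A = 0 := by rw [← neg_sub, h0, neg_zero]
      exact h (by rw [this]; simp [om])
    positivity
  have hAC : 0 < ‖A - C‖ ^ 2 := by
    have : A - C ≠ 0 := by
      intro h0
      have : C - A = 0 := by rw [← neg_sub, h0, neg_zero]
      exact h (by rw [this]; simp [om])
    positivity
  have hBC : 0 < ‖B - C‖ ^ 2 := by
    have : B - C ≠ 0 := by
      intro h0
      have : B = C := sub_eq_zero.1 h0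
      exact h (by rw [this]; simp [om]; ring)
    positivity
  have p0 := w0 0
  have p1 := w0 1
  have p2 := w0 2
  by_contra hcon
  push Not at hcon
  have t1 : w 0 * w 1 * ‖A - B‖ ^ 2 = 0 := by
    apply le_antisymm _ (by positivity)
    have : 0 ≤ w 1 * w 2 * ‖B - C‖ ^ 2 := by positivity
    have : 0 ≤ w 0 * w 2 * ‖A - C‖ ^ 2 := by positivity
    linarith
  have t2 : w 1 * w 2 * ‖B - C‖ ^ 2 = 0 := by
    apply le_antisymm _ (by positivity)
    have : 0 ≤ w 0 * w 1 * ‖A - B‖ ^ 2 := by positivity
    have : 0 ≤ w 0 * w 2 * ‖A - C‖ ^ 2 := by positivity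
    linarith
  have t3 : w 0 * w 2 * ‖A - C‖ ^ 2 = 0 := by
    apply le_antisymm _ (by positivity)
    have : 0 ≤ w 0 * w 1 * ‖A - B‖ ^ 2 := by positivity
    have : 0 ≤ w 1 * w 2 * ‖B - C‖ ^ 2 := by positivity
    linarith
  have u1 : w 0 * w 1 = 0 := by
    rcases mul_eq_zero.1 t1 with h | h
    · exact h
    · exact absurd h hAB.ne'
  have u2 : w 1 * w 2 = 0 := by
    rcases mul_eq_zero.1 t2 with h | h
    · exact h
    · exact absurd h hBC.ne'
  have u3 : w 0 * w 2 = 0 := by
    rcases mul_eq_zero.1 t3 with h | h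
    · exact h
    · exact absurd h hAC.ne'
  by_cases q0 : w 0 = 0
  · by_cases q1 : w 1 = 0
    · have q2 : w 2 = 1 := by linarith
      apply nC
      rw [← w2, q0, q1, q2]; simp
    · have q2 : w 2 = 0 := by
        rcases mul_eq_zero.1 u2 with h | h
        · exact absurd h q1
        · exact h
      have q1' : w 1 = 1 := by linarith
      apply nB
      rw [← w2, q0, q1', q2]; simp
  · have q1 : w 1 = 0 := by
      rcases mul_eq_zero.1 u1 with h | h
      · exact absurd h q0
      · exact h
    have q2 : w 2 = 0 := by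
      rcases mul_eq_zero.1 u3 with h | h
      · exact absurd h q0
      · exact h
    have q0' : w 0 = 1 := by linarith
    apply nA
    rw [← w2, q0', q1, q2]; simp

/-- the volume of the ideal tetrahedron with vertices `NP, sph A, sph B, sph C` -/
theorem tet_vol (h : om (B - A) (C - A) ≠ 0) :
    hvol (convexHull ℝ {NP, sph A, sph B, sph C}) =
      ENNReal.ofReal (F3 (an (B - A) (C - A)) (an (A - B) (C - B)) (an (A - C) (B - C))) := by
  classical
  obtain ⟨k1, k2, k0, hA, hB, hC⟩ := exists_affine h
  rw [← tri_general h k1 k2 k0 hA hB hC]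
  set K : Set E3 := convexHull ℝ {NP, sph A, sph B, sph C} with hK
  set T : Set ℂ := convexHull ℝ {A, B, C} with hT
  have hKc : IsCompact K := (Set.toFinite _).isCompact_convexHull ℝ
  have hTc : IsCompact T := (Set.toFinite _).isCompact_convexHull ℝ
  have hKm : MeasurableSet K := hKc.isClosed.measurableSet
  have hTm : MeasurableSet T := hTc.isClosed.measurableSet
  set ell : ℂ → ℝ := fun ζ => k1 * ζ.re + k2 * ζ.im + k0 with hell
  have hellm : Measurable ell := by fun_prop
  have hKball : K ⊆ Metric.closedBall 0 1 := by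
    apply convexHull_min _ (convex_closedBall 0 1)
    intro x hx
    simp only [mem_insert_iff, mem_singleton_iff] at hx
    rw [mem_closedBall_zero_iff]
    rcases hx with rfl | rfl | rfl | rfl
    · exact norm_NP.le
    · exact (norm_sph _).le
    · exact (norm_sph _).le
    · exact (norm_sph _).le
  set S : Set (ℝ × ℂ) := {p | p.2 ∈ T ∧ (1 - p.1) * (1 + ell p.2) ≤ 2} with hS
  have hSm : MeasurableSet S := by
    apply MeasurableSet.inter
    · exact measurable_snd hTm
    · have hf : Measurable fun p : ℝ × ℂ => (1 - p.1) * (1 + ell p.2) := by fun_prop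
      exact measurableSet_le hf measurable_const
  set g : ℝ × ℂ → ℝ≥0∞ := fun p =>
    ENNReal.ofReal (1 / ((1 + p.1) - (1 - p.1) * ‖p.2‖ ^ 2) ^ 2) with hg
  have hgm : Measurable g := by fun_prop
  -- step 1
  have step1 : hvol K = ∫⁻ z in Iio (1:ℝ), ∫⁻ ζ : ℂ, S.indicator g (z, ζ) := by
    unfold hvol
    rw [← lintegral_indicator hKm, lintegral_E3 _ (by
      apply Measurable.indicator _ hKm
      fun_prop), ← lintegral_indicator measurableSet_Iio]
    apply lintegral_congr_ae
    have hne : ∀ᵐ z : ℝ, z ≠ 1 := by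
      rw [ae_iff]; simp
    filter_upwards [hne] with z hz1
    rcases lt_or_gt_of_ne hz1 with hz | hz
    · rw [indicator_of_mem (by exact hz)]
      have hpz : 0 < 1 - z := by linarith
      rw [lintegral_scale hpz, ← lintegral_const_mul' _ _ ENNReal.ofReal_ne_top]
      apply lintegral_congr
      intro ζ
      by_cases hm : mk ((1 - z) • ζ) z ∈ K
      · rw [indicator_of_mem hm]
        rw [hK, mem_tet hA hB hC hz] at hm
        rw [indicator_of_mem (show (z, ζ) ∈ S from hm), hg]
        simp only
        rw [norm_mk, norm_smul, Real.norm_of_nonneg hpz.le, ← ENNReal.ofReal_mul (by positivity)]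
        congr 1
        have e : 1 - (((1 - z) * ‖ζ‖) ^ 2 + z ^ 2) = (1 - z) * ((1 + z) - (1 - z) * ‖ζ‖ ^ 2) := by
          ring
        rw [e, mul_pow]
        by_cases h0 : (1 + z) - (1 - z) * ‖ζ‖ ^ 2 = 0
        · rw [h0]; simp
        · field_simp
      · rw [indicator_of_notMem hm]
        rw [hK, mem_tet hA hB hC hz] at hm
        rw [indicator_of_notMem (show (z, ζ) ∉ S from hm)]
        simp
    · rw [indicator_of_notMem (by simp; linarith)]
      rw [lintegral_eq_zero_iff']
      · apply Filter.Eventually.of_forall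
        intro w
        apply indicator_of_notMem
        intro hm
        have h1 := hKball hm
        rw [mem_closedBall_zero_iff] at h1
        have h2 := norm_mk w z
        have h3 : ‖mk w z‖ ^ 2 ≤ 1 := by
          have := norm_nonneg (mk w z)
          nlinarith
        nlinarith [sq_nonneg ‖w‖]
      · apply Measurable.aemeasurable
        have : Measurable fun w : ℂ => mk w z := by
          have := mk_preserving.measurable.comp (measurable_prodMk_left (x := z) (β := ℂ))
          exact this
        exact (Measurable.indicator (by fun_prop) hKm).comp this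
  rw [step1, lintegral_lintegral_swap (by
    apply Measurable.aemeasurable
    exact hgm.indicator hSm)]
  rw [← lintegral_indicator hTm]
  apply lintegral_congr_ae
  have hne : ∀ᵐ ζ : ℂ, ζ ≠ A ∧ ζ ≠ B ∧ ζ ≠ C := by
    have n1 : ∀ D : ℂ, ∀ᵐ ζ : ℂ, ζ ≠ D := by
      intro D
      rw [ae_iff]; simp
    filter_upwards [n1 A, n1 B, n1 C] with ζ a b c using ⟨a, b, c⟩
  filter_upwards [hne] with ζ hζ
  by_cases hm : ζ ∈ T
  · rw [indicator_of_mem hm]
    have hp := power_pos h hA hB hC hm hζ.1 hζ.2.1 hζ.2.2
    rw [← inner_tet (by positivity) hp]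
    have hl0 : 0 < ell ζ + 1 := by
      have : 0 ≤ ‖ζ‖ ^ 2 := by positivity
      simp only [hell]
      linarith
    have e : ∀ z, z < 1 → S.indicator g (z, ζ) =
        (Ico ((ell ζ - 1) / (ell ζ + 1)) 1).indicator (fun z => g (z, ζ)) z := by
      intro z hz
      by_cases h1 : (ell ζ - 1) / (ell ζ + 1) ≤ z
      · rw [indicator_of_mem (show z ∈ Ico _ _ from ⟨h1, hz⟩), indicator_of_mem]
        refine ⟨hm, ?_⟩
        rw [div_le_iff₀ hl0] at h1
        simp only
        nlinarith
      · rw [indicator_of_notMem (show z ∉ Ico _ _ from fun h => h1 h.1), indicator_of_notMem]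
        rintro ⟨-, h2⟩
        apply h1
        rw [div_le_iff₀ hl0]
        simp only at h2
        nlinarith
    rw [setLIntegral_congr_fun measurableSet_Iio (fun z hz => e z hz)]
    rw [lintegral_indicator measurableSet_Ico, Measure.restrict_restrict measurableSet_Ico]
    rw [show Ico ((ell ζ - 1) / (ell ζ + 1)) 1 ∩ Iio 1 = Ico ((ell ζ - 1) / (ell ζ + 1)) 1 by
      apply inter_eq_left.2
      intro z hz
      exact hz.2]
  · rw [indicator_of_notMem hm]
    rw [show (fun z => S.indicator g (z, ζ)) = fun _ => 0 by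
      funext z
      apply indicator_of_notMem
      rintro ⟨h1, -⟩
      exact hm h1]
    simp

end

end Pool.Agent.L7h81.IP
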