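import Pool.Agent.L7h81.IP.Lob

/-!
# The volume over a triangle in normal position
-/

set_option autoImplicit false

namespace Pool.Agent.L7h81.IP

open Real MeasureTheory Set
open scoped ENNReal

/-- inner integral -/
theorem inner_int {L r : ℝ} (hr : 0 < r) (hL : r < L) :
    ∫⁻ ρ in Ioo 0 r, ENNReal.ofReal (1 / (2 * (L - ρ))) =
      ENNReal.ofReal (1 / 2 * (Real.log L - Real.log (L - r))) := by
  have hd : ∀ ρ ∈ uIcc 0 r, HasDerivAt (fun ρ => -(1 / 2) * Real.log (L - ρ))
      (1 / (2 * (L - ρ))) ρ := by
    intro ρ hρ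
    rw [uIcc_of_le hr.le] at hρ
    have h1 : L - ρ ≠ 0 := by linarith [hρ.2]
    have := ((((hasDerivAt_id ρ).const_sub L).log h1)).const_mul (-(1 / 2) : ℝ)
    refine this.congr_deriv ?_
    simp only [id]
    field_simp
  have hc : ContinuousOn (fun ρ => 1 / (2 * (L - ρ))) (uIcc 0 r) := by
    apply ContinuousOn.div continuousOn_const (by fun_prop)
    intro ρ hρ
    rw [uIcc_of_le hr.le] at hρ
    have h1 : L - ρ > 0 := by linarith [hρ.2]
    positivity
  have hi : IntervalIntegrable (fun ρ => 1 / (2 * (L - ρ))) volume 0 r :=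
    hc.intervalIntegrable
  have h := intervalIntegral.integral_eq_sub_of_hasDerivAt hd hi
  rw [intervalIntegral.integral_of_le hr.le, integral_Ioc_eq_integral_Ioo] at h
  rw [← ofReal_integral_eq_lintegral_ofReal, h]
  · congr 1
    simp
    ring
  · rw [intervalIntegrable_iff_integrableOn_Ioo_of_le hr.le] at hi
    exact hi
  · rw [Filter.EventuallyLE, ae_restrict_iff' measurableSet_Ioo]
    filter_upwards with ρ hρ
    have h1 : L - ρ > 0 := by linarith [hρ.2]
    simp only [Pi.zero_apply]
    positivity

section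
variable {α β γ D : ℝ}

theorem trig1 (h : α + β + γ = π) (θ : ℝ) :
    Real.sin (γ + θ) * Real.sin (β + θ) - Real.sin β * Real.sin γ =
      Real.sin θ * Real.sin (α - θ) := by
  have e : α = π - (β + γ) := by linarith
  have e2 : Real.sin (α - θ) = Real.sin (β + γ + θ) := by
    rw [e, show π - (β + γ) - θ = π - (β + γ + θ) by ring, Real.sin_pi_sub]
  rw [e2]
  simp only [Real.sin_add, Real.cos_add]
  have h1 := Real.sin_sq_add_cos_sq θ
  have h2 : Real.cos θ ^ 2 = 1 - Real.sin θ ^ 2 := by linarith
  ring_nf
  rw [h2]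
  ring

/-- the integrand of the outer integral -/
noncomputable def hh (α β γ θ : ℝ) : ℝ :=
  1 / 2 * (lg (γ + θ) + lg (β + θ) - lg θ - lg (α - θ))

theorem hh_eq (hα : 0 < α) (hβ : 0 < β) (hγ : 0 < γ) (h : α + β + γ = π) (hD : 0 < D)
    {θ : ℝ} (h0 : 0 < θ) (h1 : θ < α) :
    0 < D * Real.sin β * Real.sin γ / Real.sin (β + θ) ∧
    D * Real.sin β * Real.sin γ / Real.sin (β + θ) < D * Real.sin (γ + θ) ∧
    1 / 2 * (Real.log (D * Real.sin (γ + θ)) - Real.log (D * Real.sin (γ + θ) -
      D * Real.sin β * Real.sin γ / Real.sin (β + θ))) = hh α β γ θ := by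
  have s1 : 0 < Real.sin (γ + θ) := Real.sin_pos_of_pos_of_lt_pi (by linarith) (by linarith)
  have s2 : 0 < Real.sin (β + θ) := Real.sin_pos_of_pos_of_lt_pi (by linarith) (by linarith)
  have s3 : 0 < Real.sin θ := Real.sin_pos_of_pos_of_lt_pi (by linarith) (by linarith)
  have s4 : 0 < Real.sin (α - θ) := Real.sin_pos_of_pos_of_lt_pi (by linarith) (by linarith)
  have s5 : 0 < Real.sin β := Real.sin_pos_of_pos_of_lt_pi (by linarith) (by linarith)
  have s6 : 0 < Real.sin γ := Real.sin_pos_of_pos_of_lt_pi (by linarith) (by linarith)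
  have t := trig1 h θ
  have e : D * Real.sin (γ + θ) - D * Real.sin β * Real.sin γ / Real.sin (β + θ) =
      D * (Real.sin θ * Real.sin (α - θ)) / Real.sin (β + θ) := by
    rw [← t]
    field_simp
  have p : 0 < D * (Real.sin θ * Real.sin (α - θ)) / Real.sin (β + θ) := by positivity
  refine ⟨by positivity, by linarith, ?_⟩
  rw [e, ← Real.log_div (by positivity) (by positivity)]
  unfold hh lg
  rw [← Real.log_mul (by positivity) (by positivity),
    ← Real.log_div (by positivity) (by positivity),
    ← Real.log_div (by positivity) (by positivity)]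
  congr 2
  field_simp

theorem hh_int (h : α + β + γ = π) :
    ∫ θ in (0:ℝ)..α, hh α β γ θ = F3 α β γ ∧ IntervalIntegrable (hh α β γ) volume 0 α := by
  have i1 : IntervalIntegrable (fun θ => lg (γ + θ)) volume 0 α := by
    have := (lg_int γ (γ + α)).comp_add_left γ
    rwa [sub_self, show γ + α - γ = α by ring] at this
  have i2 : IntervalIntegrable (fun θ => lg (β + θ)) volume 0 α := by
    have := (lg_int β (β + α)).comp_add_left β
    rwa [sub_self, show β + α - β = α by ring] at this
  have i3 : IntervalIntegrable (fun θ => lg θ) volume 0 α := lg_int 0 α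
  have i4 : IntervalIntegrable (fun θ => lg (α - θ)) volume 0 α := by
    have := (lg_int α 0).comp_sub_left α
    rwa [sub_self, sub_zero] at this
  have e1 : ∫ θ in (0:ℝ)..α, lg (γ + θ) = Lob γ + Lob β := by
    rw [intervalIntegral.integral_comp_add_left, ← Lob_sub, add_zero,
      show γ + α = π - β by linarith, Lob_pi_sub]
    ring
  have e2 : ∫ θ in (0:ℝ)..α, lg (β + θ) = Lob β + Lob γ := by
    rw [intervalIntegral.integral_comp_add_left, ← Lob_sub, add_zero,
      show β + α = π - γ by linarith, Lob_pi_sub]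
    ring
  have e3 : ∫ θ in (0:ℝ)..α, lg θ = -Lob α := by
    unfold Lob; ring
  have e4 : ∫ θ in (0:ℝ)..α, lg (α - θ) = -Lob α := by
    rw [intervalIntegral.integral_comp_sub_left, sub_self, sub_zero]
    unfold Lob; ring
  have ii := (((i1.add i2).sub i3).sub i4).const_mul (1 / 2)
  refine ⟨?_, ii⟩
  have : (hh α β γ) = fun θ => 1 / 2 * (lg (γ + θ) + lg (β + θ) - lg θ - lg (α - θ)) := rfl
  rw [this, intervalIntegral.integral_const_mul,
    intervalIntegral.integral_sub ((i1.add i2).sub i3) i4,
    intervalIntegral.integral_sub (i1.add i2) i3, intervalIntegral.integral_add i1 i2,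
    e1, e2, e3, e4]
  unfold F3
  ring

/-- the open triangle with vertices `0`, `D sin γ`, `D sin β exp (i α)` -/
def TN (α β γ D : ℝ) : Set ℂ := {w | 0 < w.im ∧ 0 < w.re * Real.sin α - w.im * Real.cos α ∧
  w.re * Real.sin β + w.im * Real.cos β < D * Real.sin β * Real.sin γ}

/-- the power function of its circumcircle -/
noncomputable def qn (γ D : ℝ) (w : ℂ) : ℝ :=
  D * (Real.sin γ * w.re + Real.cos γ * w.im) - ‖w‖ ^ 2

theorem TN_meas : MeasurableSet (TN α β γ D) := by
  have m1 : MeasurableSet {w : ℂ | 0 < w.im} :=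
    measurableSet_lt measurable_const Complex.measurable_im
  have m2 : MeasurableSet {w : ℂ | 0 < w.re * Real.sin α - w.im * Real.cos α} :=
    measurableSet_lt measurable_const
      ((Complex.measurable_re.mul_const _).sub (Complex.measurable_im.mul_const _))
  have m3 : MeasurableSet {w : ℂ | w.re * Real.sin β + w.im * Real.cos β <
      D * Real.sin β * Real.sin γ} :=
    measurableSet_lt ((Complex.measurable_re.mul_const _).add
      (Complex.measurable_im.mul_const _)) measurable_const
  exact m1.inter (m2.inter m3)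

theorem qn_meas : Measurable (qn γ D) := by
  unfold qn
  exact ((measurable_const.mul ((measurable_const.mul Complex.measurable_re).add
    (measurable_const.mul Complex.measurable_im))).sub (measurable_norm.pow_const 2))

theorem tri_normal (hα : 0 < α) (hβ : 0 < β) (hγ : 0 < γ) (h : α + β + γ = π) (hD : 0 < D) :
    ∫⁻ w in TN α β γ D, ENNReal.ofReal (1 / (2 * qn γ D w)) = ENNReal.ofReal (F3 α β γ) := by
  rw [← lintegral_indicator TN_meas, ← Complex.lintegral_comp_polarCoord_symm,
    ← lintegral_indicator polarCoord.open_target.measurableSet]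
  -- rewrite the integrand
  set G : ℝ → ℝ → ℝ≥0∞ := fun θ ρ => (Ioo 0 α).indicator (fun θ =>
    (Ioo 0 (D * Real.sin β * Real.sin γ / Real.sin (β + θ))).indicator
      (fun ρ => ENNReal.ofReal (1 / (2 * (D * Real.sin (γ + θ) - ρ)))) ρ) θ with hG
  have hint : ∀ p : ℝ × ℝ, polarCoord.target.indicator (fun p => ENNReal.ofReal p.1 •
      (TN α β γ D).indicator (fun w => ENNReal.ofReal (1 / (2 * qn γ D w)))
        (Complex.polarCoord.symm p)) p = G p.2 p.1 := by
    rintro ⟨ρ, θ⟩
    have hre : (Complex.polarCoord.symm (ρ, θ)).re = ρ * Real.cos θ := by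
      simp [Complex.polarCoord_symm_apply, Complex.cos_ofReal_re]
    have him : (Complex.polarCoord.symm (ρ, θ)).im = ρ * Real.sin θ := by
      simp [Complex.polarCoord_symm_apply, Complex.sin_ofReal_re]
    simp only [hG]
    by_cases hp : (ρ, θ) ∈ polarCoord.target
    · rw [indicator_of_mem hp]
      simp only [polarCoord_target, mem_prod, mem_Ioi, mem_Ioo] at hp
      obtain ⟨hρ, hθ1, hθ2⟩ := hp
      have hmem : Complex.polarCoord.symm (ρ, θ) ∈ TN α β γ D ↔ (θ ∈ Ioo 0 α ∧
          ρ ∈ Ioo 0 (D * Real.sin β * Real.sin γ / Real.sin (β + θ))) := by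
        unfold TN
        simp only [mem_ofPred_eq, hre, him, mem_Ioo]
        have k1 : 0 < ρ * Real.sin θ ↔ 0 < θ := by
          constructor
          · intro h1
            by_contra h2
            push Not at h2
            have : Real.sin θ ≤ 0 := Real.sin_nonpos_of_nonpos_of_neg_pi_le h2 hθ1.le
            nlinarith
          · intro h1
            have := Real.sin_pos_of_pos_of_lt_pi h1 hθ2
            positivity
        have k2 : ρ * Real.cos θ * Real.sin α - ρ * Real.sin θ * Real.cos α =
            ρ * Real.sin (α - θ) := by rw [Real.sin_sub]; ring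
        have k3 : ρ * Real.cos θ * Real.sin β + ρ * Real.sin θ * Real.cos β =
            ρ * Real.sin (β + θ) := by rw [Real.sin_add]; ring
        rw [k1, k2, k3]
        constructor
        · rintro ⟨h1, h2, h3⟩
          have h4 : θ < α := by
            by_contra h5
            push Not at h5
            have : Real.sin (α - θ) ≤ 0 :=
              Real.sin_nonpos_of_nonpos_of_neg_pi_le (by linarith) (by linarith)
            nlinarith
          have s2 : 0 < Real.sin (β + θ) :=
            Real.sin_pos_of_pos_of_lt_pi (by linarith) (by linarith)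
          exact ⟨⟨h1, h4⟩, hρ, by rw [lt_div_iff₀ s2]; exact h3⟩
        · rintro ⟨⟨h1, h4⟩, -, h3⟩
          have s2 : 0 < Real.sin (β + θ) :=
            Real.sin_pos_of_pos_of_lt_pi (by linarith) (by linarith)
          have s4 : 0 < Real.sin (α - θ) :=
            Real.sin_pos_of_pos_of_lt_pi (by linarith) (by linarith)
          rw [lt_div_iff₀ s2] at h3
          exact ⟨h1, by positivity, h3⟩
      by_cases hm : Complex.polarCoord.symm (ρ, θ) ∈ TN α β γ D
      · rw [indicator_of_mem hm]
        obtain ⟨h1, h2⟩ := hmem.1 hm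
        rw [indicator_of_mem h1, indicator_of_mem h2, smul_eq_mul,
          ← ENNReal.ofReal_mul hρ.le]
        congr 1
        unfold qn
        rw [hre, him, Complex.norm_polarCoord_symm, abs_of_pos hρ]
        have := (hh_eq hα hβ hγ h hD h1.1 h1.2).2.1
        have h3 : 0 < D * Real.sin (γ + θ) - ρ := by linarith [h2.2]
        have e : D * (Real.sin γ * (ρ * Real.cos θ) + Real.cos γ * (ρ * Real.sin θ)) - ρ ^ 2 =
            ρ * (D * Real.sin (γ + θ) - ρ) := by rw [Real.sin_add]; ring
        rw [e]
        field_simp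
      · rw [indicator_of_notMem hm]
        rw [hmem, not_and_or] at hm
        rcases hm with hm | hm
        · rw [indicator_of_notMem hm]; simp
        · by_cases h1 : θ ∈ Ioo 0 α
          · rw [indicator_of_mem h1, indicator_of_notMem hm]; simp
          · rw [indicator_of_notMem h1]; simp
    · rw [indicator_of_notMem hp]
      symm
      by_cases h1 : θ ∈ Ioo 0 α
      · rw [indicator_of_mem h1]
        apply indicator_of_notMem
        intro h2
        apply hp
        simp only [polarCoord_target, mem_prod, mem_Ioi, mem_Ioo]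
        exact ⟨h2.1, by linarith [h1.1, Real.pi_pos], by linarith [h1.2]⟩
      · rw [indicator_of_notMem h1]
  rw [lintegral_congr hint]
  have hGm : Measurable (fun p : ℝ × ℝ => G p.2 p.1) := by
    have hS : MeasurableSet {p : ℝ × ℝ | p.2 ∈ Ioo 0 α ∧ p.1 ∈
        Ioo 0 (D * Real.sin β * Real.sin γ / Real.sin (β + p.2))} := by
      apply MeasurableSet.inter
      · exact measurable_snd measurableSet_Ioo
      · apply MeasurableSet.inter
        · exact measurableSet_lt measurable_const measurable_fst
        · exact measurableSet_lt measurable_fst (by fun_prop)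
    have : (fun p : ℝ × ℝ => G p.2 p.1) = {p : ℝ × ℝ | p.2 ∈ Ioo 0 α ∧ p.1 ∈
        Ioo 0 (D * Real.sin β * Real.sin γ / Real.sin (β + p.2))}.indicator
        (fun p => ENNReal.ofReal (1 / (2 * (D * Real.sin (γ + p.2) - p.1)))) := by
      funext p
      simp only [hG]
      by_cases h1 : p.2 ∈ Ioo 0 α
      · by_cases h2 : p.1 ∈ Ioo 0 (D * Real.sin β * Real.sin γ / Real.sin (β + p.2))
        · rw [indicator_of_mem h1, indicator_of_mem h2, indicator_of_mem]
          exact ⟨h1, h2⟩
        · rw [indicator_of_mem h1, indicator_of_notMem h2, indicator_of_notMem]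
          exact fun h3 => h2 h3.2
      · rw [indicator_of_notMem h1, indicator_of_notMem]
        exact fun h3 => h1 h3.1
    rw [this]
    apply Measurable.indicator _ hS
    fun_prop
  have hswap : ∫⁻ p : ℝ × ℝ, G p.2 p.1 = ∫⁻ θ, ∫⁻ ρ, G θ ρ := by
    rw [Measure.volume_eq_prod, lintegral_prod_symm' _ hGm]
  rw [hswap]
  have hin : ∀ θ, ∫⁻ ρ, G θ ρ = (Ioo 0 α).indicator (fun θ => ENNReal.ofReal (hh α β γ θ)) θ := by
    intro θ
    simp only [hG]
    by_cases h1 : θ ∈ Ioo 0 α
    · simp only [indicator_of_mem h1]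
      rw [lintegral_indicator measurableSet_Ioo]
      obtain ⟨h2, h3, h4⟩ := hh_eq hα hβ hγ h hD h1.1 h1.2
      rw [inner_int h2 h3, h4]
    · simp only [indicator_of_notMem h1]
      simp
  rw [lintegral_congr hin, lintegral_indicator measurableSet_Ioo]
  obtain ⟨e1, e2⟩ := hh_int h
  rw [← ofReal_integral_eq_lintegral_ofReal]
  · rw [← integral_Ioc_eq_integral_Ioo, ← intervalIntegral.integral_of_le hα.le, e1]
  · rw [intervalIntegrable_iff_integrableOn_Ioo_of_le hα.le] at e2
    exact e2
  · rw [Filter.EventuallyLE, ae_restrict_iff' measurableSet_Ioo]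
    filter_upwards with θ hθ
    obtain ⟨h2, h3, h4⟩ := hh_eq hα hβ hγ h hD hθ.1 hθ.2
    simp only [Pi.zero_apply]
    rw [← h4]
    have : Real.log (D * Real.sin (γ + θ) - D * Real.sin β * Real.sin γ / Real.sin (β + θ)) ≤
        Real.log (D * Real.sin (γ + θ)) := Real.log_le_log (by linarith) (by linarith)
    linarith

end

end Pool.Agent.L7h81.IP
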