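import Pool.Agent.L7h81.IP.Tri
import Pool.Agent.L7h81.IP.Null

/-!
# The volume over a triangle in general position
-/

set_option autoImplicit false

namespace Pool.Agent.L7h81.IP

open Real MeasureTheory Set
open scoped ENNReal

/-- the area form -/
def om (a b : ℂ) : ℝ := a.re * b.im - a.im * b.re

/-- the angle of two vectors -/
noncomputable def an (a b : ℂ) : ℝ := InnerProductGeometry.angle a b

theorem inner_eq (a b : ℂ) : inner ℝ a b = a.re * b.re + a.im * b.im := by
  rw [Complex.inner]
  simp
  ring

theorem cos_an (a b : ℂ) : Real.cos (an a b) * (‖a‖ * ‖b‖) = a.re * b.re + a.im * b.im := by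
  unfold an
  rw [InnerProductGeometry.cos_angle_mul_norm_mul_norm, inner_eq]

theorem sin_an (a b : ℂ) : Real.sin (an a b) * (‖a‖ * ‖b‖) = |om a b| := by
  unfold an
  rw [InnerProductGeometry.sin_angle_mul_norm_mul_norm, inner_eq, inner_eq, inner_eq,
    ← Real.sqrt_sq_eq_abs]
  congr 1
  unfold om
  ring

theorem an_comm (a b : ℂ) : an a b = an b a := InnerProductGeometry.angle_comm a b

theorem om_comm (a b : ℂ) : om a b = -om b a := by unfold om; ring

theorem om_ne_left {a b : ℂ} (h : om a b ≠ 0) : a ≠ 0 := by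
  rintro rfl; apply h; simp [om]

theorem om_ne_right {a b : ℂ} (h : om a b ≠ 0) : b ≠ 0 := by
  rintro rfl; apply h; simp [om]

theorem sin_an_pos {a b : ℂ} (h : om a b ≠ 0) : 0 < Real.sin (an a b) := by
  have h1 := norm_pos_iff.2 (om_ne_left h)
  have h2 := norm_pos_iff.2 (om_ne_right h)
  have h3 := sin_an a b
  have h4 : 0 < |om a b| := abs_pos.2 h
  rw [← h3] at h4
  exact (mul_pos_iff_of_pos_right (by positivity)).1 h4

theorem an_pos {a b : ℂ} (h : om a b ≠ 0) : 0 < an a b := by
  rcases eq_or_lt_of_le (InnerProductGeometry.angle_nonneg a b) with h1 | h1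
  · have := sin_an_pos h
    unfold an at this
    rw [← h1] at this
    simp at this
  · exact h1

theorem an_lt {a b : ℂ} (h : om a b ≠ 0) : an a b < π := by
  rcases eq_or_lt_of_le (InnerProductGeometry.angle_le_pi a b) with h1 | h1
  · have := sin_an_pos h
    unfold an at this
    rw [h1] at this
    simp at this
  · exact h1

section
variable {A B C : ℂ}

theorem om_B : om (A - B) (C - B) = -om (B - A) (C - A) := by
  simp [om]; ring

theorem om_C : om (A - C) (B - C) = om (B - A) (C - A) := by
  simp [om]; ring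

theorem an_sum (h : om (B - A) (C - A) ≠ 0) :
    an (B - A) (C - A) + an (A - B) (C - B) + an (A - C) (B - C) = π := by
  have h1 := InnerProductGeometry.angle_add_angle_sub_add_angle_sub_eq_pi (B - A)
    (om_ne_right h)
  have e1 : an (A - B) (C - B) = InnerProductGeometry.angle (B - A) (B - A - (C - A)) := by
    unfold an
    rw [← InnerProductGeometry.angle_neg_neg]
    congr 1 <;> ring
  have e2 : an (A - C) (B - C) = InnerProductGeometry.angle (C - A) (C - A - (B - A)) := by
    unfold an
    rw [← InnerProductGeometry.angle_neg_neg]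
    congr 1 <;> ring
  rw [e1, e2]
  exact h1

/-- the data of a triangle -/
theorem tri_data (h : om (B - A) (C - A) ≠ 0) :
    ∃ D : ℝ, 0 < D ∧ ‖B - A‖ = D * Real.sin (an (A - C) (B - C)) ∧
      ‖C - A‖ = D * Real.sin (an (A - B) (C - B)) := by
  have hB : om (A - B) (C - B) ≠ 0 := by rw [om_B]; exact neg_ne_zero.2 h
  have hC : om (A - C) (B - C) ≠ 0 := by rw [om_C]; exact h
  have s0 := sin_an (A - B) (C - B)
  have s1 := sin_an (A - C) (B - C)
  rw [om_B, abs_neg] at s0
  rw [om_C] at s1
  have c0 : 0 < ‖B - A‖ := norm_pos_iff.2 (om_ne_left h)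
  have b0 : 0 < ‖C - A‖ := norm_pos_iff.2 (om_ne_right h)
  have a0 : 0 < ‖C - B‖ := norm_pos_iff.2 (om_ne_right hB)
  have n1 : ‖A - B‖ = ‖B - A‖ := norm_sub_rev _ _
  have n2 : ‖A - C‖ = ‖C - A‖ := norm_sub_rev _ _
  have n3 : ‖B - C‖ = ‖C - B‖ := norm_sub_rev _ _
  rw [n1] at s0
  rw [n2, n3] at s1
  have o0 : 0 < |om (B - A) (C - A)| := abs_pos.2 h
  refine ⟨‖B - A‖ * ‖C - A‖ * ‖C - B‖ / |om (B - A) (C - A)|, by positivity, ?_, ?_⟩
  · rw [div_mul_eq_mul_div, eq_div_iff o0.ne', ← s1]; ring
  · rw [div_mul_eq_mul_div, eq_div_iff o0.ne', ← s0]; ring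

theorem tri_oriented (h : 0 < om (B - A) (C - A)) (k1 k2 k0 : ℝ)
    (hA : k1 * A.re + k2 * A.im + k0 = ‖A‖ ^ 2) (hB : k1 * B.re + k2 * B.im + k0 = ‖B‖ ^ 2)
    (hC : k1 * C.re + k2 * C.im + k0 = ‖C‖ ^ 2) :
    ∫⁻ z in convexHull ℝ {A, B, C},
      ENNReal.ofReal (1 / (2 * (k1 * z.re + k2 * z.im + k0 - ‖z‖ ^ 2))) =
    ENNReal.ofReal (F3 (an (B - A) (C - A)) (an (A - B) (C - B)) (an (A - C) (B - C))) := by
  have hne := h.ne'
  have hBn : om (A - B) (C - B) ≠ 0 := by rw [om_B]; exact neg_ne_zero.2 hne
  have hCn : om (A - C) (B - C) ≠ 0 := by rw [om_C]; exact hne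
  obtain ⟨D, hD, hc, hb⟩ := tri_data hne
  have hsum := an_sum hne
  have pα := an_pos hne
  have pβ := an_pos hBn
  have pγ := an_pos hCn
  have sα := sin_an_pos hne
  have sβ := sin_an_pos hBn
  have sγ := sin_an_pos hCn
  have cosα := cos_an (B - A) (C - A)
  have sinα := sin_an (B - A) (C - A)
  rw [abs_of_pos h] at sinα
  set α := an (B - A) (C - A) with hα
  set β := an (A - B) (C - B) with hβ
  set γ := an (A - C) (B - C) with hγ
  have c0 : 0 < ‖B - A‖ := norm_pos_iff.2 (om_ne_left hne)
  set c := ‖B - A‖ with hcdef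
  set b := ‖C - A‖ with hbdef
  set u : ℂ := (B - A) / c with hu
  have cC : (c : ℂ) ≠ 0 := by exact_mod_cast c0.ne'
  have unorm : ‖u‖ = 1 := by
    rw [hu, norm_div, Complex.norm_real, Real.norm_of_nonneg c0.le, ← hcdef, div_self c0.ne']
  have u0 : u ≠ 0 := by intro h0; rw [h0] at unorm; simp at unorm
  -- the rigid motion
  set φ : ℂ → ℂ := fun w => A + u * w with hφ
  have hφm : MeasurePreserving φ := by
    have h1 : MeasurePreserving (fun w : ℂ => u * w) := by
      obtain ⟨cu, hcu⟩ : ∃ cu : Circle, (cu : ℂ) = u :=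
        ⟨⟨u, by simp [Submonoid.unitSphere, unorm]⟩, rfl⟩
      have := (rotation cu).measurePreserving
      have e : (fun w => u * w) = ⇑(rotation cu) := by
        funext w
        rw [rotation_apply, hcu]
      rw [e]
      exact this
    exact (measurePreserving_add_left volume A).comp h1
  have hφe : MeasurableEmbedding φ := by
    have h1 : MeasurableEmbedding (fun w : ℂ => u * w) :=
      (Homeomorph.mulLeft₀ u u0).measurableEmbedding
    exact (measurableEmbedding_addLeft A).comp h1
  have hBφ : φ (c : ℂ) = B := by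
    simp only [hφ, hu]
    field_simp
    ring
  have hAφ : φ 0 = A := by simp [hφ]
  set C' : ℂ := (C - A) / u with hC'
  have hCφ : φ C' = C := by
    simp only [hφ, hC']
    field_simp
    ring
  have ure : u.re = (B - A).re / c := by rw [hu, Complex.div_ofReal_re]
  have uim : u.im = (B - A).im / c := by rw [hu, Complex.div_ofReal_im]
  have ure2 : u.re ^ 2 + u.im ^ 2 = 1 := by
    have := Complex.sq_norm u
    rw [unorm, Complex.normSq_apply] at this
    linarith
  have hCA : C - A = u * C' := by rw [hC']; field_simp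
  have hBA : B - A = u * c := by rw [hu]; field_simp
  have C're : C'.re = b * Real.cos α := by
    have e1 : u.re * (C - A).re + u.im * (C - A).im = C'.re := by
      rw [hCA, Complex.mul_re, Complex.mul_im]
      linear_combination C'.re * ure2
    rw [← e1, ure, uim]
    field_simp
    linear_combination -cosα
  have C'im : C'.im = b * Real.sin α := by
    have e1 : u.re * (C - A).im - u.im * (C - A).re = C'.im := by
      rw [hCA, Complex.mul_re, Complex.mul_im]
      linear_combination C'.im * ure2
    rw [← e1, ure, uim]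
    unfold om at sinα
    field_simp
    linear_combination -sinα
  have b0 : 0 < b := norm_pos_iff.2 (om_ne_right hne)
  -- transport the integral
  rw [← hφm.setLIntegral_comp_preimage_emb hφe]
  -- the integrand
  have hq : ∀ w : ℂ, k1 * (φ w).re + k2 * (φ w).im + k0 - ‖φ w‖ ^ 2 = qn γ D w := by
    intro w
    have norm_φ : ∀ w : ℂ, ‖φ w‖ ^ 2 = ‖A‖ ^ 2 + 2 * (A.re * (u * w).re + A.im * (u * w).im) +
        ‖w‖ ^ 2 := by
      intro w
      have h1 : ‖u * w‖ ^ 2 = ‖w‖ ^ 2 := by rw [norm_mul, unorm, one_mul]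
      rw [← h1]
      simp only [hφ, Complex.sq_norm, Complex.normSq_apply, Complex.add_re, Complex.add_im]
      ring
    set m1 := (k1 - 2 * A.re) * u.re + (k2 - 2 * A.im) * u.im with hm1
    set m2 := -(k1 - 2 * A.re) * u.im + (k2 - 2 * A.im) * u.re with hm2
    have e : ∀ w : ℂ, k1 * (φ w).re + k2 * (φ w).im + k0 - ‖φ w‖ ^ 2 =
        m1 * w.re + m2 * w.im - ‖w‖ ^ 2 := by
      intro w
      rw [norm_φ]
      have e1 : (φ w).re = A.re + (u.re * w.re - u.im * w.im) := by simp [hφ]
      have e2 : (φ w).im = A.im + (u.re * w.im + u.im * w.re) := by simp [hφ]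
      rw [e1, e2, Complex.mul_re, Complex.mul_im, hm1, hm2]
      linear_combination hA
    have eB := e c
    rw [hBφ, hB] at eB
    have eC := e C'
    rw [hCφ, hC] at eC
    rw [e w]
    have n1 : ‖(c : ℂ)‖ ^ 2 = c ^ 2 := by
      rw [Complex.norm_real, Real.norm_of_nonneg c0.le]
    have n2 : ‖C'‖ ^ 2 = b ^ 2 := by
      rw [Complex.sq_norm, Complex.normSq_apply, C're, C'im]
      linear_combination b ^ 2 * Real.sin_sq_add_cos_sq α
    rw [n1] at eB
    rw [n2, C're, C'im] at eC
    simp only [Complex.ofReal_re, Complex.ofReal_im, mul_zero, add_zero] at eB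
    have m1c : m1 = c := by
      have : c * (m1 - c) = 0 := by linarith
      rcases mul_eq_zero.1 this with h | h
      · exact absurd h c0.ne'
      · linarith
    have m1v : m1 = D * Real.sin γ := by rw [m1c, hc]
    have m2v : m2 = D * Real.cos γ := by
      have h1 : b * (m1 * Real.cos α + m2 * Real.sin α - b) = 0 := by linarith
      have h2 : m1 * Real.cos α + m2 * Real.sin α - b = 0 := by
        rcases mul_eq_zero.1 h1 with h | h
        · exact absurd h b0.ne'
        · exact h
      have h3 : Real.sin β = Real.sin α * Real.cos γ + Real.cos α * Real.sin γ := by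
        rw [← Real.sin_add, show α + γ = π - β by linarith, Real.sin_pi_sub]
      rw [m1v, hb, h3] at h2
      have h4 : Real.sin α * (m2 - D * Real.cos γ) = 0 := by linear_combination h2
      rcases mul_eq_zero.1 h4 with h | h
      · exact absurd h sα.ne'
      · linarith
    unfold qn
    rw [m1v, m2v]
    ring
  have hcong : ∀ w, ENNReal.ofReal (1 / (2 * (k1 * (φ w).re + k2 * (φ w).im + k0 -
      ‖φ w‖ ^ 2))) = ENNReal.ofReal (1 / (2 * qn γ D w)) := by
    intro w; rw [hq]
  simp only [hcong]
  rw [← tri_normal pα pβ pγ hsum hD]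
  -- the domains agree almost everywhere
  apply setLIntegral_congr
  have hsub1 : TN α β γ D ⊆ φ ⁻¹' (convexHull ℝ {A, B, C}) := by
    rintro w ⟨w1, w2, w3⟩
    -- barycentric coordinates
    set l1 := w.im / (b * Real.sin α) with hl1
    set l2 := (w.re * Real.sin α - w.im * Real.cos α) / (c * Real.sin α) with hl2
    have l1p : 0 ≤ l1 := by positivity
    have l2p : 0 ≤ l2 := by positivity
    have hs : l1 + l2 ≤ 1 := by
      have h3 : Real.sin γ = Real.sin α * Real.cos β + Real.cos α * Real.sin β := by
        rw [← Real.sin_add, show α + β = π - γ by linarith, Real.sin_pi_sub]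
      have e : l1 + l2 = (w.re * Real.sin β + w.im * Real.cos β) /
          (D * Real.sin β * Real.sin γ) := by
        rw [hl1, hl2, hc, hb]
        field_simp
        rw [h3]
        ring
      rw [e, div_le_one (by positivity)]
      exact w3.le
    have hw : φ w = (1 - l1 - l2) • A + l2 • B + l1 • C := by
      have h1 : w = l2 * c + l1 * C' := by
        apply Complex.ext
        · simp only [Complex.add_re, Complex.mul_re, Complex.ofReal_re, Complex.ofReal_im,
            C're, hl1, hl2]
          field_simp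
          ring
        · simp only [Complex.add_im, Complex.mul_im, Complex.ofReal_re, Complex.ofReal_im,
            C'im, hl1, hl2]
          field_simp
          ring
      have h2 : φ w = A + l2 * (B - A) + l1 * (C - A) := by
        rw [hCA, hBA]
        simp only [hφ]
        conv_lhs => rw [h1]
        ring
      rw [h2]
      simp only [Complex.real_smul]
      push_cast
      ring
    show φ w ∈ convexHull ℝ {A, B, C}
    rw [hw]
    have hcx := convex_convexHull ℝ ({A, B, C} : Set ℂ)
    have mA : A ∈ convexHull ℝ ({A, B, C} : Set ℂ) := subset_convexHull _ _ (by simp)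
    have mB : B ∈ convexHull ℝ ({A, B, C} : Set ℂ) := subset_convexHull _ _ (by simp)
    have mC : C ∈ convexHull ℝ ({A, B, C} : Set ℂ) := subset_convexHull _ _ (by simp)
    have := hcx.sum_mem (t := Finset.univ) (w := ![1 - l1 - l2, l2, l1]) (z := ![A, B, C])
      (by intro i _; fin_cases i <;> simp <;> linarith) (by simp [Fin.sum_univ_three])
      (by intro i _; fin_cases i <;> simp [mA, mB, mC])
    simpa [Fin.sum_univ_three] using this
  set TC : Set ℂ := {w | 0 ≤ w.im ∧ 0 ≤ w.re * Real.sin α - w.im * Real.cos α ∧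
    w.re * Real.sin β + w.im * Real.cos β ≤ D * Real.sin β * Real.sin γ} with hTC
  have hsub2 : φ ⁻¹' (convexHull ℝ {A, B, C}) ⊆ TC := by
    -- pull back the hull
    have hpre : φ ⁻¹' (convexHull ℝ {A, B, C}) ⊆ convexHull ℝ {0, (c : ℂ), C'} := by
      set ψ : ℂ →ᵃ[ℝ] ℂ := (LinearMap.mulLeft ℝ u⁻¹).toAffineMap.comp
        ((AffineMap.id ℝ ℂ) - AffineMap.const ℝ ℂ A) with hψ
      have hψφ : ∀ w, ψ (φ w) = w := by
        intro w
        simp [hψ, hφ, u0]
      intro w hw
      have h1 : ψ (φ w) ∈ ψ '' (convexHull ℝ {A, B, C}) := ⟨φ w, hw, rfl⟩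
      rw [AffineMap.image_convexHull, hψφ] at h1
      have e : ψ '' {A, B, C} = {0, (c : ℂ), C'} := by
        rw [image_insert_eq, image_pair]
        conv_lhs => rw [← hAφ, ← hBφ, ← hCφ]
        rw [hψφ, hψφ, hψφ]
      rwa [e] at h1
    refine hpre.trans (convexHull_min ?_ ?_)
    · have h3 : Real.sin β = Real.sin α * Real.cos γ + Real.cos α * Real.sin γ := by
        rw [← Real.sin_add, show α + γ = π - β by linarith, Real.sin_pi_sub]
      intro w hw
      simp only [mem_insert_iff, mem_singleton_iff] at hw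
      rcases hw with rfl | rfl | rfl
      · simp only [hTC, mem_ofPred_eq, Complex.zero_im, Complex.zero_re]
        refine ⟨le_refl _, by simp, ?_⟩
        simp only [zero_mul, add_zero]
        positivity
      · simp only [hTC, mem_ofPred_eq, Complex.ofReal_im, Complex.ofReal_re]
        refine ⟨le_refl _, by simp; positivity, ?_⟩
        rw [hc]
        simp only [zero_mul, add_zero]
        apply le_of_eq; ring
      · simp only [hTC, mem_ofPred_eq, C're, C'im]
        refine ⟨by positivity, le_of_eq (by ring), le_of_eq ?_⟩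
        rw [hb]
        have h4 : Real.sin γ = Real.sin α * Real.cos β + Real.cos α * Real.sin β := by
          rw [← Real.sin_add, show α + β = π - γ by linarith, Real.sin_pi_sub]
        rw [h4]; ring
    · intro x hx y hy s t hs ht hst
      obtain ⟨x1, x2, x3⟩ := hx
      obtain ⟨y1, y2, y3⟩ := hy
      simp only [hTC, mem_ofPred_eq, Complex.add_re, Complex.add_im, Complex.real_smul,
        Complex.mul_re, Complex.mul_im, Complex.ofReal_re, Complex.ofReal_im, zero_mul,
        sub_zero, add_zero]
      refine ⟨by positivity, ?_, ?_⟩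
      · have : (s * x.re + t * y.re) * Real.sin α - (s * x.im + t * y.im) * Real.cos α =
            s * (x.re * Real.sin α - x.im * Real.cos α) +
            t * (y.re * Real.sin α - y.im * Real.cos α) := by ring
        rw [this]; positivity
      · have : (s * x.re + t * y.re) * Real.sin β + (s * x.im + t * y.im) * Real.cos β =
            s * (x.re * Real.sin β + x.im * Real.cos β) +
            t * (y.re * Real.sin β + y.im * Real.cos β) := by ring
        rw [this]
        have h1 := mul_le_mul_of_nonneg_left x3 hs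
        have h2 := mul_le_mul_of_nonneg_left y3 ht
        have : D * Real.sin β * Real.sin γ = s * (D * Real.sin β * Real.sin γ) +
            t * (D * Real.sin β * Real.sin γ) := by rw [← add_mul, hst, one_mul]
        linarith
  have hdiff : volume (TC \ TN α β γ D) = 0 := by
    have hs : TC \ TN α β γ D ⊆ {w : ℂ | 0 * w.re + 1 * w.im = 0} ∪
        ({w : ℂ | Real.sin α * w.re + (-Real.cos α) * w.im = 0} ∪
        {w : ℂ | Real.sin β * w.re + Real.cos β * w.im = D * Real.sin β * Real.sin γ}) := by
      rintro w ⟨⟨w1, w2, w3⟩, hw⟩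
      simp only [mem_union, mem_ofPred_eq]
      by_contra hcon
      push Not at hcon
      obtain ⟨c1, c2, c3⟩ := hcon
      apply hw
      refine ⟨lt_of_le_of_ne w1 (fun h => c1 ?_), lt_of_le_of_ne w2 (fun h => c2 ?_),
        lt_of_le_of_ne w3 (fun h => c3 ?_)⟩
      · rw [← h]; ring
      · rw [h]; ring
      · rw [← h]; ring
    refine measure_mono_null hs ?_
    rw [measure_union_null_iff, measure_union_null_iff]
    exact ⟨null_line _ _ _ (Or.inr one_ne_zero), null_line _ _ _ (Or.inl sα.ne'),
      null_line _ _ _ (Or.inl sβ.ne')⟩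
  apply Filter.EventuallyLE.antisymm
  · rw [ae_le_set]
    exact measure_mono_null (sdiff_subset_sdiff_left hsub2) hdiff
  · exact (Filter.Eventually.of_forall fun w hw => hsub1 hw)

/-- the volume over a triangle -/
theorem tri_general (h : om (B - A) (C - A) ≠ 0) (k1 k2 k0 : ℝ)
    (hA : k1 * A.re + k2 * A.im + k0 = ‖A‖ ^ 2) (hB : k1 * B.re + k2 * B.im + k0 = ‖B‖ ^ 2)
    (hC : k1 * C.re + k2 * C.im + k0 = ‖C‖ ^ 2) :
    ∫⁻ z in convexHull ℝ {A, B, C},
      ENNReal.ofReal (1 / (2 * (k1 * z.re + k2 * z.im + k0 - ‖z‖ ^ 2))) =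
    ENNReal.ofReal (F3 (an (B - A) (C - A)) (an (A - B) (C - B)) (an (A - C) (B - C))) := by
  rcases lt_or_gt_of_ne h with h1 | h1
  · have h2 : 0 < om (C - A) (B - A) := by rw [om_comm]; linarith
    have := tri_oriented h2 k1 k2 k0 hA hC hB
    rw [show ({A, B, C} : Set ℂ) = {A, C, B} by
      rw [Set.pair_comm], this]
    congr 1
    unfold F3
    rw [an_comm (C - A) (B - A)]
    ring
  · exact tri_oriented h1 k1 k2 k0 hA hB hC

end

end Pool.Agent.L7h81.IP
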